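import Mathlib

/-!
# Mobility of a graph and connectivity of its neighbourhood complex
-/

open scoped unitInterval

namespace Pool.Agent.Helper5_Mobility

/-- The graph `Hom(F, H)`: its vertices are the homomorphisms `F → H`, two homomorphisms being
adjacent when they differ at exactly one vertex of `F`. -/
def homGraph {T V : Type} (F : SimpleGraph T) (H : SimpleGraph V) : SimpleGraph (F →g H) where
  Adj f g := ∃! x, f x ≠ g x
  symm := ⟨fun _ _ ⟨x, hx, hu⟩ => ⟨x, fun h => hx h.symm, fun y hy => hu y fun h => hy h.symm⟩⟩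
  loopless := ⟨fun _ ⟨_, hx, _⟩ => hx rfl⟩

/-- `H` is `d`-mobile: for each finite graph `F` of maximum degree at most `d - 2`, any two
homomorphisms `F → H` are joined by a path in the graph `Hom(F, H)` (that is, `Hom(F, H)` is
empty or connected). -/
def IsMobile {V : Type} (H : SimpleGraph V) (d : ℕ) : Prop :=
  ∀ (T : Type) [Finite T] (F : SimpleGraph T), (∀ x, (F.neighborSet x).ncard ≤ d - 2) →
    ∀ f g : F →g H, (homGraph F H).Reachable f g

/-- The mobility `m(H)`: the largest `d ≥ 2` such that `H` is `d`-mobile (as an extended real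
number; it would be `∞` if there were no largest one). -/
noncomputable def mobility {V : Type} (H : SimpleGraph V) : EReal :=
  sSup {r | ∃ d : ℕ, 2 ≤ d ∧ IsMobile H d ∧ r = ((d : ℝ) : EReal)}

/-- The (geometric realization of the) neighbourhood complex `N(H)`: the functions
`w : V → ℝ` with `w ≥ 0`, `∑ w = 1`, whose support is a set of vertices having a common
neighbour in `H`. -/
def NComplex {V : Type} [Fintype V] (H : SimpleGraph V) : Type :=
  {w : V → ℝ // (∀ v, 0 ≤ w v) ∧ ∑ v, w v = 1 ∧ ∃ u, ∀ v, w v ≠ 0 → H.Adj u v}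

/-- The topology of `N(H)` as a subspace of `ℝ^V`. -/
instance {V : Type} [Fintype V] (H : SimpleGraph V) : TopologicalSpace (NComplex H) :=
  inferInstanceAs (TopologicalSpace {w : V → ℝ // (∀ v, 0 ≤ w v) ∧ ∑ v, w v = 1 ∧
    ∃ u, ∀ v, w v ≠ 0 → H.Adj u v})

/-- `X` is `k`-connected (`k ≥ -1`): it is nonempty and its homotopy groups `π_i(X, x)` are
trivial for all `0 ≤ i ≤ k` and all base points. -/
def IsKConnected (k : ℤ) (X : Type) [TopologicalSpace X] : Prop :=
  Nonempty X ∧ ∀ i : ℕ, (i : ℤ) ≤ k → ∀ x : X, Subsingleton (HomotopyGroup.Pi i X x)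

/-- `conn(X)`: the largest `k` such that `X` is `k`-connected, `-1` if `X` is nonempty and
disconnected, and `-2` if `X` is empty (as an extended real number; it is `∞` if `X` is
`k`-connected for all `k`). -/
noncomputable def conn (X : Type) [TopologicalSpace X] : EReal :=
  sSup {r | r = ((-2 : ℝ) : EReal) ∨ ∃ k : ℤ, -1 ≤ k ∧ IsKConnected k X ∧ r = ((k : ℝ) : EReal)}

end Pool.Agent.Helper5_Mobility
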