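import Mathlib

/-!
# Nearly flat `ℤ/5`-gauge fields on sets of triples

`V` is a type with a distinguished (pinned) point `o`.  A field is an antisymmetric function
`β : V → V → ZMod 5` vanishing when one of the arguments is `o`.  Its curvature on a triple is
`β a b + β b c + β c a`; the field is flat on a set if all curvatures of triples in this set are in
`{-1, 0, 1}`.  If each point other than `o` is in at most three members of a family `C` of
three-element sets, then each field which is flat on all the members of `C` can be changed to the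
zero field by elementary steps, through fields flat on the members of `C`.
-/

namespace Pool.Agent.Helper5_Mobility

/-- The elements `-1, 0, 1` of `ℤ/5`. -/
def Small (z : ZMod 5) : Prop := z = 0 ∨ z = 1 ∨ z = -1

instance (z : ZMod 5) : Decidable (Small z) := by unfold Small; infer_instance

theorem small_zero : Small 0 := Or.inl rfl

theorem small_one : Small 1 := Or.inr (Or.inl rfl)

theorem small_neg_one : Small (-1) := Or.inr (Or.inr rfl)

theorem Small.neg {z : ZMod 5} (h : Small z) : Small (-z) := by
  rcases h with rfl | rfl | rfl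
  · simpa using small_zero
  · exact small_neg_one
  · simpa using small_one

variable {V : Type}

/-- The curvature of a field on a triple. -/
def cur (β : V → V → ZMod 5) (a b c : V) : ZMod 5 := β a b + β b c + β c a

/-- The field is flat on the set `T`. -/
def Flat (β : V → V → ZMod 5) (T : Finset V) : Prop :=
  ∀ a ∈ T, ∀ b ∈ T, ∀ c ∈ T, Small (cur β a b c)

/-- Antisymmetric fields, supported on the relation `R`. -/
structure IsField (R : V → V → Prop) (β : V → V → ZMod 5) : Prop where
  anti : ∀ a b, β a b = - β b a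
  supp : ∀ a b, β a b ≠ 0 → R a b

theorem self_eq_zero {z : ZMod 5} (h : z = -z) : z = 0 := by
  revert z; decide

theorem flat_triple {β : V → V → ZMod 5} [DecidableEq V] (hanti : ∀ a b, β a b = - β b a)
    {a b c : V} (h : Small (cur β a b c)) : Flat β {a, b, c} := by
  have h0 : ∀ x, β x x = 0 := fun x => self_eq_zero (hanti x x)
  have e1 : ∀ x y, cur β x x y = 0 := by
    intro x y; simp only [cur, h0, hanti y x]; ring
  have e2 : ∀ x y, cur β x y x = 0 := by
    intro x y; simp only [cur, h0, hanti y x]; ring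
  have e3 : ∀ x y, cur β y x x = 0 := by
    intro x y; simp only [cur, h0, hanti y x]; ring
  have r1 : cur β b c a = cur β a b c := by simp only [cur]; ring
  have r2 : cur β c a b = cur β a b c := by simp only [cur]; ring
  have s1 : cur β b a c = - cur β a b c := by
    simp only [cur]; rw [hanti b a, hanti a c, hanti c b]; ring
  have s2 : cur β a c b = - cur β a b c := by
    simp only [cur]; rw [hanti b a, hanti a c, hanti c b]; ring
  have s3 : cur β c b a = - cur β a b c := by
    simp only [cur]; rw [hanti b a, hanti a c, hanti c b]; ring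
  intro x hx y hy z hz
  simp only [Finset.mem_insert, Finset.mem_singleton] at hx hy hz
  rcases hx with rfl | rfl | rfl <;> rcases hy with rfl | rfl | rfl <;>
    rcases hz with rfl | rfl | rfl <;>
    first
      | (rw [e1]; exact small_zero)
      | (rw [e2]; exact small_zero)
      | (rw [e3]; exact small_zero)
      | exact h
      | (rw [r1]; exact h)
      | (rw [r2]; exact h)
      | (rw [s1]; exact h.neg)
      | (rw [s2]; exact h.neg)
      | (rw [s3]; exact h.neg)

/-- The elementary change of a field at the point `x`. -/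
def upd [DecidableEq V] (β : V → V → ZMod 5) (x : V) (g : V → ZMod 5) : V → V → ZMod 5 :=
  fun u v => β u v + (if u = x then g v else 0) - (if v = x then g u else 0)

/-- One elementary step through fields flat on the members of `C`. -/
def Step [DecidableEq V] (o : V) (R : V → V → Prop) (C : Finset (Finset V))
    (β β' : V → V → ZMod 5) : Prop :=
  ∃ (x : V) (g : V → ZMod 5), x ≠ o ∧ g x = 0 ∧ g o = 0 ∧ (∀ z, Small (g z)) ∧
    (∀ z, g z ≠ 0 → R x z) ∧ β' = upd β x g ∧ ∀ T ∈ C, Flat β' T

open Relation

section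

variable [DecidableEq V] {o : V} {R : V → V → Prop} {C : Finset (Finset V)}
  {β γ : V → V → ZMod 5}

omit [DecidableEq V] in
theorem Flat.congr {T : Finset V} (h : Flat β T) (he : ∀ a ∈ T, ∀ b ∈ T, γ a b = β a b) :
    Flat γ T := by
  intro a ha b hb c hc
  have := h a ha b hb c hc
  simp only [cur] at *
  rw [he a ha b hb, he b hb c hc, he c hc a ha]
  exact this

theorem upd_field (hβ : IsField R β) (hRs : ∀ a b, R a b → R b a) {x : V} {g : V → ZMod 5}
    (hg : ∀ z, g z ≠ 0 → R x z) : IsField R (upd β x g) := by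
  constructor
  · intro a b
    simp only [upd]
    rw [hβ.anti a b]
    ring
  · intro a b h
    by_contra hR
    apply h
    have h1 : β a b = 0 := by
      by_contra h1; exact hR (hβ.supp a b h1)
    have h2 : (if a = x then g b else 0) = 0 := by
      split_ifs with h2
      · subst h2
        by_contra h3
        exact hR (hg b h3)
      · rfl
    have h3 : (if b = x then g a else 0) = 0 := by
      split_ifs with h2
      · subst h2
        by_contra h3
        exact hR (hRs _ _ (hg a h3))
      · rfl
    simp only [upd, h1, h2, h3]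
    ring

theorem Step.field (hRs : ∀ a b, R a b → R b a) (hβ : IsField R β) (h : Step o R C β γ) :
    IsField R γ := by
  obtain ⟨x, g, _, _, _, _, hg, rfl, _⟩ := h
  exact upd_field hβ hRs hg

theorem reach_field (hRs : ∀ a b, R a b → R b a) (hβ : IsField R β)
    (h : ReflTransGen (Step o R C) β γ) : IsField R γ := by
  induction h with
  | refl => exact hβ
  | tail _ h ih => exact h.field hRs ih

theorem reach_flat (hβ : ∀ T ∈ C, Flat β T)
    (h : ReflTransGen (Step o R C) β γ) : ∀ T ∈ C, Flat γ T := by
  induction h with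
  | refl => exact hβ
  | tail _ h ih =>
    obtain ⟨x, g, _, _, _, _, _, _, h⟩ := h
    exact h

theorem upd_zero (x : V) : upd β x 0 = β := by
  funext a b
  simp [upd]

theorem upd_upd (u : V) (g h : V → ZMod 5) : upd (upd β u g) u h = upd β u (g + h) := by
  funext a b
  simp only [upd, Pi.add_apply]
  split_ifs <;> ring

theorem upd_single_add (u v : V) (s t : ZMod 5) :
    upd (upd β u (Pi.single v s)) u (Pi.single v t) = upd β u (Pi.single v (s + t)) := by
  rw [upd_upd, Pi.single_add]

theorem upd_single_apply_ne {u v a b : V} (s : ZMod 5) (h : ¬ ((a = u ∧ b = v) ∨ (a = v ∧ b = u))) :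
    upd β u (Pi.single v s) a b = β a b := by
  simp only [upd, Pi.single_apply]
  by_cases h1 : a = u <;> by_cases h2 : b = u <;> by_cases h3 : a = v <;> by_cases h4 : b = v <;>
    simp_all

theorem upd_single_apply {u v : V} (huv : u ≠ v) (s : ZMod 5) :
    upd β u (Pi.single v s) u v = β u v + s := by
  simp [upd, huv.symm]

theorem upd_single_apply' {u v : V} (huv : u ≠ v) (s : ZMod 5) :
    upd β u (Pi.single v s) v u = β v u - s := by
  simp [upd, huv.symm]

/-- Changing the field on an edge which is in no member of `C`. -/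
theorem edge_reach {u v : V} (huo : u ≠ o) (hvo : v ≠ o) (huv : u ≠ v) (hR : R u v)
    (hfree : ∀ T ∈ C, ¬ (u ∈ T ∧ v ∈ T)) (hflat : ∀ T ∈ C, Flat β T) (t : ZMod 5) :
    ReflTransGen (Step o R C) β (upd β u (Pi.single v t)) := by
  have key : ∀ n : ℕ, ReflTransGen (Step o R C) β (upd β u (Pi.single v (n : ZMod 5))) := by
    intro n
    induction n with
    | zero =>
      rw [Nat.cast_zero, Pi.single_zero, upd_zero]
    | succ n ih =>
      refine ih.tail ⟨u, Pi.single v 1, huo, ?_, ?_, ?_, ?_, ?_, ?_⟩
      · simp [huv]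
      · simp [hvo.symm]
      · intro z
        rw [Pi.single_apply]
        split_ifs
        · exact small_one
        · exact small_zero
      · intro z hz
        rw [Pi.single_apply] at hz
        split_ifs at hz with h
        · rw [h]; exact hR
        · exact absurd rfl hz
      · rw [upd_single_add]; push_cast; rfl
      · intro T hT
        refine (hflat T hT).congr fun a ha b hb => ?_
        apply upd_single_apply_ne
        rintro (⟨rfl, rfl⟩ | ⟨rfl, rfl⟩)
        · exact hfree T hT ⟨ha, hb⟩
        · exact hfree T hT ⟨hb, ha⟩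
  have := key t.val
  rwa [ZMod.natCast_val, ZMod.cast_id] at this

/-! ### The case of a free edge -/

theorem cur_upd_single {u v w : V} (huv : u ≠ v) (huw : u ≠ w) (hvw : v ≠ w) (t : ZMod 5) :
    cur (upd β u (Pi.single v t)) u v w = cur β u v w + t := by
  simp only [cur]
  rw [upd_single_apply huv, upd_single_apply_ne, upd_single_apply_ne]
  · ring
  · rintro (⟨h, _⟩ | ⟨h, h'⟩)
    · exact huw h.symm
    · exact hvw h.symm
  · rintro (⟨h, _⟩ | ⟨h, h'⟩)
    · exact huv h.symm
    · exact huw h'.symm

theorem single_step {u v w : V} (huo : u ≠ o) (hvo : v ≠ o) (huv : u ≠ v) (huw : u ≠ w)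
    (hvw : v ≠ w) (hRs : ∀ a b, R a b → R b a) (hR : R u v)
    (hfree : ∀ T ∈ C, u ∈ T → v ∈ T → T = {u, v, w}) (hβ : IsField R β)
    (hflat : ∀ T ∈ C, Flat β T) {ε : ZMod 5} (hε : Small ε) (hs : Small (cur β u v w + ε)) :
    Step o R C β (upd β u (Pi.single v ε)) := by
  have hsup : ∀ z, (Pi.single v ε : V → ZMod 5) z ≠ 0 → R u z := by
    intro z hz
    rw [Pi.single_apply] at hz
    split_ifs at hz with h
    · rw [h]; exact hR
    · exact absurd rfl hz
  refine ⟨u, Pi.single v ε, huo, by simp [huv], by simp [hvo.symm], ?_, hsup, rfl, ?_⟩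
  · intro z
    rw [Pi.single_apply]
    split_ifs
    · exact hε
    · exact small_zero
  · intro T hT
    by_cases h : u ∈ T ∧ v ∈ T
    · rw [hfree T hT h.1 h.2]
      apply flat_triple (upd_field hβ hRs hsup).anti
      rw [cur_upd_single huv huw hvw]
      exact hs
    · refine (hflat T hT).congr fun a ha b hb => ?_
      apply upd_single_apply_ne
      rintro (⟨rfl, rfl⟩ | ⟨rfl, rfl⟩)
      · exact h ⟨ha, hb⟩
      · exact h ⟨hb, ha⟩

/-- The curvature of the triple of a free edge can be adjusted. -/
theorem adjust {u v w : V} (huo : u ≠ o) (hvo : v ≠ o) (huv : u ≠ v) (huw : u ≠ w)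
    (hvw : v ≠ w) (hRs : ∀ a b, R a b → R b a) (hR : R u v)
    (hfree : ∀ T ∈ C, u ∈ T → v ∈ T → T = {u, v, w}) (hβ : IsField R β)
    (hflat : ∀ T ∈ C, Flat β T) (hc : Small (cur β u v w)) {s : ZMod 5} (hs : Small s) :
    ReflTransGen (Step o R C) β (upd β u (Pi.single v (s - cur β u v w))) := by
  have dec : ∀ c s : ZMod 5, Small c → Small s → (s = c) ∨ Small (s - c) ∨
      (∃ ε, Small ε ∧ Small (c + ε) ∧ s - c = ε + ε ∧ Small (c + ε + ε)) := by decide
  rcases dec _ _ hc hs with h | h | ⟨ε, h1, h2, h3, h4⟩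
  · rw [h, sub_self, Pi.single_zero, upd_zero]
  · exact ReflTransGen.single (single_step huo hvo huv huw hvw hRs hR hfree hβ hflat h
      (by rw [add_sub_cancel]; exact hs))
  · have st1 := single_step huo hvo huv huw hvw hRs hR hfree hβ hflat h1 h2
    have hβ1 := st1.field hRs hβ
    have hflat1 : ∀ T ∈ C, Flat (upd β u (Pi.single v ε)) T := by
      obtain ⟨_, _, _, _, _, _, _, _, h⟩ := st1
      exact h
    have st2 := single_step huo hvo huv huw hvw hRs hR hfree hβ1 hflat1 h1
      (by rw [cur_upd_single huv huw hvw]; exact h4)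
    rw [upd_single_add, ← h3] at st2
    exact (ReflTransGen.single st1).tail st2

/-- Two fields agree off the edge `{u, v}`. -/
def AgreeOff (u v : V) (γ β : V → V → ZMod 5) : Prop :=
  ∀ a b, ¬ ((a = u ∧ b = v) ∨ (a = v ∧ b = u)) → γ a b = β a b

/-- Lifting a step. -/
theorem lift_step {u v w : V} (huo : u ≠ o) (hvo : v ≠ o) (huv : u ≠ v) (huw : u ≠ w)
    (hvw : v ≠ w) (hRs : ∀ a b, R a b → R b a) (hR : R u v)
    (hT : {u, v, w} ∈ C) (hfree : ∀ T ∈ C, u ∈ T → v ∈ T → T = {u, v, w})
    {β' : V → V → ZMod 5} (hst : Step o R (C.erase {u, v, w}) β β')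
    (hγ : IsField R γ) (hγflat : ∀ T ∈ C, Flat γ T) (hag : AgreeOff u v γ β) :
    ∃ γ', ReflTransGen (Step o R C) γ γ' ∧ AgreeOff u v γ' β' := by
  obtain ⟨x, g, hxo, hgx, hgo, hg, hgR, rfl, hfl⟩ := hst
  have hc : Small (cur γ u v w) := hγflat _ hT u (by simp) v (by simp) w (by simp)
  -- flatness of the other triples
  have other : ∀ γ' : V → V → ZMod 5, AgreeOff u v γ' (upd β x g) → ∀ T ∈ C, T ≠ {u, v, w} →
      Flat γ' T := by
    intro γ' h T hT' hne
    refine (hfl T (Finset.mem_erase.2 ⟨hne, hT'⟩)).congr fun a ha b hb => h a b ?_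
    rintro (⟨rfl, rfl⟩ | ⟨rfl, rfl⟩)
    · exact hne (hfree T hT' ha hb)
    · exact hne (hfree T hT' hb ha)
  -- general construction of the last step
  have last : ∀ (γ₁ : V → V → ZMod 5) (g' : V → ZMod 5), IsField R γ₁ → AgreeOff u v γ₁ β →
      (∀ z, Small (g' z)) → (∀ z, g' z ≠ 0 → R x z) → g' x = 0 → g' o = 0 →
      (∀ z, ¬ ((x = u ∧ z = v) ∨ (x = v ∧ z = u)) → g' z = g z) →
      Small (cur (upd γ₁ x g') u v w) →
      Step o R C γ₁ (upd γ₁ x g') ∧ AgreeOff u v (upd γ₁ x g') (upd β x g) := by
    intro γ₁ g' h1 h2 h3 h4 h5 h6 h7 h8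
    have hagree : AgreeOff u v (upd γ₁ x g') (upd β x g) := by
      intro a b hab
      simp only [upd]
      rw [h2 a b hab]
      have e1 : (if a = x then g' b else 0) = (if a = x then g b else 0) := by
        split_ifs with h
        · apply h7
          rw [← h]; exact hab
        · rfl
      have e2 : (if b = x then g' a else 0) = (if b = x then g a else 0) := by
        split_ifs with h
        · apply h7
          rw [← h]
          rintro (⟨h9, h10⟩ | ⟨h9, h10⟩)
          · exact hab (Or.inr ⟨h10, h9⟩)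
          · exact hab (Or.inl ⟨h10, h9⟩)
        · rfl
      rw [e1, e2]
    refine ⟨⟨x, g', hxo, h5, h6, h3, h4, rfl, ?_⟩, hagree⟩
    intro T hT'
    by_cases hne : T = {u, v, w}
    · rw [hne]
      exact flat_triple (upd_field h1 hRs h4).anti h8
    · exact other _ hagree T hT' hne
  by_cases hxw : x = w
  · -- adjust first
    subst hxw
    have hd : ∀ c p q : ZMod 5, Small c → Small p → Small q → ∃ s, Small s ∧ Small (s + p - q) := by
      decide
    obtain ⟨s, hs, hs'⟩ := hd _ _ _ hc (hg u) (hg v)
    have had := adjust huo hvo huv huw hvw hRs hR hfree hγ hγflat hc hs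
    set γ₁ := upd γ u (Pi.single v (s - cur γ u v x)) with hγ₁
    have hf1 := reach_field hRs hγ had
    have hcur1 : cur γ₁ u v x = s := by
      rw [hγ₁, cur_upd_single huv huw hvw]; ring
    have hag1 : AgreeOff u v γ₁ β := by
      intro a b hab
      rw [hγ₁, upd_single_apply_ne _ hab]
      exact hag a b hab
    have hcur : cur (upd γ₁ x g) u v x = s + g u - g v := by
      rw [← hcur1]
      simp only [cur, upd]
      simp only [huw, hvw, if_true, if_false]
      ring
    obtain ⟨st, hag2⟩ := last γ₁ g hf1 hag1 hg hgR hgx hgo (fun _ _ => rfl)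
      (by rw [hcur]; exact hs')
    exact ⟨_, had.tail st, hag2⟩
  · by_cases hxu : x = u
    · subst hxu
      obtain ⟨st, hag2⟩ := last γ (Function.update g v (g w)) hγ hag
        (by
          intro z
          by_cases hz : z = v
          · subst hz; simpa using hg w
          · simpa [hz] using hg z)
        (by
          intro z hz
          by_cases hzv : z = v
          · subst hzv; exact hR
          · rw [Function.update_of_ne hzv] at hz; exact hgR z hz)
        (by rw [Function.update_of_ne huv]; exact hgx)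
        (by rw [Function.update_of_ne hvo.symm]; exact hgo)
        (by
          intro z hz
          have hzv : z ≠ v := fun h => hz (Or.inl ⟨rfl, h⟩)
          rw [Function.update_of_ne hzv])
        (by
          have : cur (upd γ x (Function.update g v (g w))) x v w = cur γ x v w := by
            simp only [cur, upd]
            simp only [huv.symm, huw.symm, if_true, if_false, Function.update_self,
              Function.update_of_ne hvw.symm]
            ring
          rw [this]; exact hc)
      exact ⟨_, ReflTransGen.single st, hag2⟩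
    · by_cases hxv : x = v
      · subst hxv
        obtain ⟨st, hag2⟩ := last γ (Function.update g u (g w)) hγ hag
          (by
            intro z
            by_cases hz : z = u
            · subst hz; simpa using hg w
            · simpa [hz] using hg z)
          (by
            intro z hz
            by_cases hzv : z = u
            · subst hzv; exact hRs _ _ hR
            · rw [Function.update_of_ne hzv] at hz; exact hgR z hz)
          (by rw [Function.update_of_ne huv.symm]; exact hgx)
          (by rw [Function.update_of_ne huo.symm]; exact hgo)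
          (by
            intro z hz
            have hzv : z ≠ u := fun h => hz (Or.inr ⟨rfl, h⟩)
            rw [Function.update_of_ne hzv])
          (by
            have : cur (upd γ x (Function.update g u (g w))) u x w = cur γ u x w := by
              simp only [cur, upd]
              simp only [huv, hvw.symm, if_true, if_false, Function.update_self,
                Function.update_of_ne huw.symm]
              ring
            rw [this]; exact hc)
        exact ⟨_, ReflTransGen.single st, hag2⟩
      · obtain ⟨st, hag2⟩ := last γ g hγ hag hg hgR hgx hgo (fun _ _ => rfl)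
          (by
            have : cur (upd γ x g) u v w = cur γ u v w := by
              simp only [cur, upd]
              simp only [Ne.symm hxu, Ne.symm hxv, Ne.symm hxw, if_false]
              ring
            rw [this]; exact hc)
        exact ⟨_, ReflTransGen.single st, hag2⟩

/-- Lifting a path. -/
theorem lift_path {u v w : V} (huo : u ≠ o) (hvo : v ≠ o) (huv : u ≠ v) (huw : u ≠ w)
    (hvw : v ≠ w) (hRs : ∀ a b, R a b → R b a) (hR : R u v)
    (hT : {u, v, w} ∈ C) (hfree : ∀ T ∈ C, u ∈ T → v ∈ T → T = {u, v, w})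
    {β β' : V → V → ZMod 5} (hst : ReflTransGen (Step o R (C.erase {u, v, w})) β β')
    (hγ : IsField R γ) (hγflat : ∀ T ∈ C, Flat γ T) (hag : AgreeOff u v γ β) :
    ∃ γ', ReflTransGen (Step o R C) γ γ' ∧ AgreeOff u v γ' β' := by
  induction hst with
  | refl => exact ⟨γ, ReflTransGen.refl, hag⟩
  | tail _ h ih =>
    obtain ⟨γ₁, h1, h2⟩ := ih
    obtain ⟨γ₂, h3, h4⟩ := lift_step huo hvo huv huw hvw hRs hR hT hfree h
      (reach_field hRs hγ h1) (reach_flat hγflat h1) h2
    exact ⟨γ₂, h1.trans h3, h4⟩

theorem reach_of_free {u v w : V} (huo : u ≠ o) (hvo : v ≠ o) (huv : u ≠ v) (huw : u ≠ w)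
    (hvw : v ≠ w) (hRs : ∀ a b, R a b → R b a) (hR : R u v)
    (hT : {u, v, w} ∈ C) (hfree : ∀ T ∈ C, u ∈ T → v ∈ T → T = {u, v, w})
    (hβ : IsField R β) (hflat : ∀ T ∈ C, Flat β T)
    (ih : ReflTransGen (Step o R (C.erase {u, v, w})) β 0) :
    ReflTransGen (Step o R C) β 0 := by
  obtain ⟨γ, h1, h2⟩ := lift_path huo hvo huv huw hvw hRs hR hT hfree ih hβ hflat
    (fun _ _ _ => rfl)
  have hγ := reach_field hRs hβ h1
  have hγf := reach_flat hflat h1
  have had := adjust huo hvo huv huw hvw hRs hR hfree hγ hγf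
    (hγf _ hT u (by simp) v (by simp) w (by simp)) small_zero
  have e : upd γ u (Pi.single v (0 - cur γ u v w)) = 0 := by
    have hvw0 : γ v w = 0 := h2 v w (by
      rintro (⟨h, _⟩ | ⟨_, h⟩)
      · exact huv h.symm
      · exact huw h.symm)
    have hwu0 : γ w u = 0 := h2 w u (by
      rintro (⟨h, _⟩ | ⟨h, _⟩)
      · exact huw h.symm
      · exact hvw h.symm)
    have hcur : cur γ u v w = γ u v := by
      simp only [cur, hvw0, hwu0]; ring
    funext a b
    by_cases hab : (a = u ∧ b = v) ∨ (a = v ∧ b = u)
    · rcases hab with ⟨rfl, rfl⟩ | ⟨rfl, rfl⟩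
      · rw [upd_single_apply huv, hcur]; simp
      · rw [upd_single_apply' huv, hcur, hγ.anti a b]; simp
    · rw [upd_single_apply_ne _ hab, h2 a b hab]
  rw [e] at had
  exact h1.trans had

/-! ### The case of a tetrahedron -/

/-- Lifting a path from the complement of a set `Q` of triples with vertex set `E`, keeping the
field zero on the pairs in `E`. -/
theorem lift_zero {C' : Finset (Finset V)} {E : Finset V}
    (h1 : ∀ T ∈ C, T ∉ C' → T ⊆ E) (h2 : ∀ T ∈ C, T ∈ C' → ∀ a ∈ T, ∀ b ∈ T, a ∈ E → b ∈ E →
      a ≠ b → False)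
    {β β' : V → V → ZMod 5} (hst : ReflTransGen (Step o R C') β β')
    (hRs : ∀ a b, R a b → R b a) (hβ : IsField R β)
    (hγ : IsField R γ) (hγ0 : ∀ a ∈ E, ∀ b ∈ E, γ a b = 0)
    (hag : ∀ a b, ¬ (a ∈ E ∧ b ∈ E) → γ a b = β a b) :
    ∃ γ', ReflTransGen (Step o R C) γ γ' ∧ (∀ a ∈ E, ∀ b ∈ E, γ' a b = 0) ∧
      (∀ a b, ¬ (a ∈ E ∧ b ∈ E) → γ' a b = β' a b) := by
  induction hst with
  | refl => exact ⟨γ, ReflTransGen.refl, hγ0, hag⟩
  | @tail β₁ β₂ hprev h ih =>
    obtain ⟨γ₁, h3, h4, h5⟩ := ih
    have hβ₁ := reach_field hRs hβ hprev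
    obtain ⟨x, g, hxo, hgx, hgo, hg, hgR, rfl, hfl⟩ := h
    have hγ₁ := reach_field hRs hγ h3
    classical
    set g' : V → ZMod 5 := fun z => if x ∈ E ∧ z ∈ E then 0 else g z with hg'
    have hg'R : ∀ z, g' z ≠ 0 → R x z := by
      intro z hz
      simp only [hg'] at hz
      split_ifs at hz
      · exact absurd rfl hz
      · exact hgR z hz
    have z0 : ∀ a ∈ E, ∀ b ∈ E, upd γ₁ x g' a b = 0 := by
      intro a ha b hb
      simp only [upd, h4 a ha b hb]
      have e1 : (if a = x then g' b else 0) = 0 := by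
        split_ifs with h
        · subst h; simp [hg', ha, hb]
        · rfl
      have e2 : (if b = x then g' a else 0) = 0 := by
        split_ifs with h
        · subst h; simp [hg', ha, hb]
        · rfl
      rw [e1, e2]; ring
    have hagr : ∀ a b, ¬ (a ∈ E ∧ b ∈ E) → upd γ₁ x g' a b = upd β₁ x g a b := by
      intro a b hab
      simp only [upd, h5 a b hab]
      have e1 : (if a = x then g' b else 0) = (if a = x then g b else 0) := by
        split_ifs with h
        · subst h; simp only [hg', if_neg hab]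
        · rfl
      have e2 : (if b = x then g' a else 0) = (if b = x then g a else 0) := by
        split_ifs with h
        · subst h
          have : ¬ (b ∈ E ∧ a ∈ E) := fun h => hab ⟨h.2, h.1⟩
          simp only [hg', if_neg this]
        · rfl
      rw [e1, e2]
    refine ⟨upd γ₁ x g', h3.tail ⟨x, g', hxo, ?_, ?_, ?_, hg'R, rfl, ?_⟩, z0, hagr⟩
    · simp only [hg']; split_ifs
      · rfl
      · exact hgx
    · simp only [hg']; split_ifs
      · rfl
      · exact hgo
    · intro z
      simp only [hg']
      split_ifs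
      · exact small_zero
      · exact hg z
    · intro T hT
      have hf := upd_field hγ₁ hRs hg'R
      by_cases hTC : T ∈ C'
      · have hxx : ∀ a, upd γ₁ x g' a a = upd β₁ x g a a := by
          intro a
          by_cases ha : a ∈ E
          · rw [z0 a ha a ha]
            -- need the field property of the other side
            have : upd β₁ x g a a = β₁ a a := by simp only [upd]; ring
            rw [this]
            exact (self_eq_zero (hβ₁.anti a a)).symm
          · exact hagr a a (fun h => ha h.1)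
        refine (hfl T hTC).congr fun a ha b hb => ?_
        by_cases hab : a = b
        · rw [hab]; exact hxx b
        · exact hagr a b fun h => h2 T hT hTC a ha b hb h.1 h.2 hab
      · intro a ha b hb c hc
        simp only [cur]
        rw [z0 a (h1 T hT hTC ha) b (h1 T hT hTC hb), z0 b (h1 T hT hTC hb) c (h1 T hT hTC hc),
          z0 c (h1 T hT hTC hc) a (h1 T hT hTC ha)]
        exact small_zero

theorem eq_three {T : Finset V} (hT : T.card = 3) {x y : V} (hx : x ∈ T) (hy : y ∈ T)
    (hxy : x ≠ y) : ∃ z, z ≠ x ∧ z ≠ y ∧ T = {x, y, z} := by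
  have h1 : ((T.erase x).erase y).card = 1 := by
    rw [Finset.card_erase_of_mem (Finset.mem_erase.2 ⟨hxy.symm, hy⟩),
      Finset.card_erase_of_mem hx, hT]
  obtain ⟨z, hz⟩ := Finset.card_eq_one.1 h1
  have hz' : z ∈ (T.erase x).erase y := by rw [hz]; simp
  simp only [Finset.mem_erase] at hz'
  refine ⟨z, hz'.2.1, hz'.1, ?_⟩
  ext t
  simp only [Finset.mem_insert, Finset.mem_singleton]
  constructor
  · intro ht
    by_cases h2 : t = x
    · exact Or.inl h2
    · by_cases h3 : t = y
      · exact Or.inr (Or.inl h3)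
      · right; right
        have : t ∈ (T.erase x).erase y := by simp [h2, h3, ht]
        rw [hz] at this
        simpa using this
  · rintro (rfl | rfl | rfl)
    · exact hx
    · exact hy
    · exact hz'.2.2

/-- The star of a point when there is no free edge. -/
theorem star3 (h3 : ∀ T ∈ C, T.card = 3) (hdeg : ∀ x, x ≠ o → (C.filter (x ∈ ·)).card ≤ 3)
    (hnf : ∀ T ∈ C, ∀ u ∈ T, ∀ v ∈ T, u ≠ v → u ≠ o → v ≠ o → ∃ T' ∈ C, T' ≠ T ∧ u ∈ T' ∧ v ∈ T')
    {x p q : V} (hxo : x ≠ o) (hxp : x ≠ p) (hxq : x ≠ q) (hpq : p ≠ q) (hT : {x, p, q} ∈ C) :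
    ∃ r, r ≠ x ∧ r ≠ p ∧ r ≠ q ∧ {x, p, r} ∈ C ∧ {x, q, r} ∈ C ∧
      ∀ T ∈ C, x ∈ T → T = {x, p, q} ∨ T = {x, p, r} ∨ T = {x, q, r} := by
  -- symmetric auxiliary statement with `p ≠ o`
  have aux : ∀ p q : V, x ≠ p → x ≠ q → p ≠ q → {x, p, q} ∈ C → p ≠ o →
      ∃ r, r ≠ x ∧ r ≠ p ∧ r ≠ q ∧ {x, p, r} ∈ C ∧ {x, q, r} ∈ C ∧
      ∀ T ∈ C, x ∈ T → T = {x, p, q} ∨ T = {x, p, r} ∨ T = {x, q, r} := by
    intro p q hxp hxq hpq hT hpo
    obtain ⟨T2, hT2, hne2, hx2, hp2⟩ := hnf _ hT x (by simp) p (by simp) hxp hxo hpo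
    obtain ⟨r, hrx, hrp, rfl⟩ := eq_three (h3 _ hT2) hx2 hp2 hxp
    have hrq : r ≠ q := by rintro rfl; exact hne2 rfl
    -- the third member
    have third : ∀ T3 ∈ C, x ∈ T3 → T3 ≠ {x, p, q} → T3 ≠ {x, p, r} →
        ∀ T ∈ C, x ∈ T → T = {x, p, q} ∨ T = {x, p, r} ∨ T = T3 := by
      intro T3 hT3 hx3 hn1 hn2 T hT' hxT
      by_contra! hcon
      obtain ⟨c1, c2, c3⟩ := hcon
      have hsub : ({{x, p, q}, {x, p, r}, T3, T} : Finset (Finset V)) ⊆ C.filter (x ∈ ·) := by
        intro S hS
        simp only [Finset.mem_insert, Finset.mem_singleton] at hS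
        rw [Finset.mem_filter]
        rcases hS with rfl | rfl | rfl | rfl
        · exact ⟨hT, by simp⟩
        · exact ⟨hT2, by simp⟩
        · exact ⟨hT3, hx3⟩
        · exact ⟨hT', hxT⟩
      have hcard : ({{x, p, q}, {x, p, r}, T3, T} : Finset (Finset V)).card = 4 := by
        rw [Finset.card_insert_of_notMem, Finset.card_insert_of_notMem,
          Finset.card_insert_of_notMem, Finset.card_singleton]
        · simpa using fun h => c3 h.symm
        · simp only [Finset.mem_insert, Finset.mem_singleton, not_or]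
          exact ⟨fun h => hn2 h.symm, fun h => c2 h.symm⟩
        · simp only [Finset.mem_insert, Finset.mem_singleton, not_or]
          exact ⟨fun h => hne2 h.symm, fun h => hn1 h.symm, fun h => c1 h.symm⟩
      have := Finset.card_le_card hsub
      have := hdeg x hxo
      omega
    by_cases hqo : q = o
    · have hro : r ≠ o := by rw [← hqo]; exact hrq
      obtain ⟨T3, hT3, hne3, hx3, hr3⟩ := hnf _ hT2 x (by simp) r (by simp) hrx.symm hxo hro
      have hne3' : T3 ≠ {x, p, q} := by
        rintro rfl
        simp only [Finset.mem_insert, Finset.mem_singleton] at hr3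
        rcases hr3 with h | h | h
        · exact hrx h
        · exact hrp h
        · exact hrq h
      obtain ⟨s, hsx, hsr, rfl⟩ := eq_three (h3 _ hT3) hx3 hr3 hrx.symm
      have hall := third _ hT3 hx3 hne3' hne3
      have hsq : s = q := by
        by_contra hsq
        have hso : s ≠ o := by rw [← hqo]; exact hsq
        obtain ⟨T5, hT5, hne5, hx5, hs5⟩ := hnf _ hT3 x (by simp) s (by simp) hsx.symm hxo hso
        have hsp : s ≠ p := by
          rintro rfl
          apply hne3
          ext t; simp only [Finset.mem_insert, Finset.mem_singleton]; tauto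
        rcases hall T5 hT5 hx5 with h | h | h
        · rw [h] at hs5
          simp only [Finset.mem_insert, Finset.mem_singleton] at hs5
          rcases hs5 with h | h | h
          · exact hsx h
          · exact hsp h
          · exact hsq h
        · rw [h] at hs5
          simp only [Finset.mem_insert, Finset.mem_singleton] at hs5
          rcases hs5 with h | h | h
          · exact hsx h
          · exact hsp h
          · exact hsr h
        · exact hne5 h
      subst hsq
      have e : ({x, r, s} : Finset V) = {x, s, r} := by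
        ext t; simp only [Finset.mem_insert, Finset.mem_singleton]; tauto
      rw [e] at hT3 hall
      exact ⟨r, hrx, hrp, hrq, hT2, hT3, hall⟩
    · obtain ⟨T3, hT3, hne3, hx3, hq3⟩ := hnf _ hT x (by simp) q (by simp) hxq hxo hqo
      have hne3' : T3 ≠ {x, p, r} := by
        rintro rfl
        simp only [Finset.mem_insert, Finset.mem_singleton] at hq3
        rcases hq3 with h | h | h
        · exact hxq h.symm
        · exact hpq h.symm
        · exact hrq h.symm
      obtain ⟨s, hsx, hsq, rfl⟩ := eq_three (h3 _ hT3) hx3 hq3 hxq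
      have hall := third _ hT3 hx3 hne3 hne3'
      have hsp : s ≠ p := by
        rintro rfl
        apply hne3
        ext t; simp only [Finset.mem_insert, Finset.mem_singleton]; tauto
      have hrs : r = s := by
        by_cases hro : r = o
        · by_contra hrs
          have hso : s ≠ o := by rw [← hro]; exact fun h => hrs h.symm
          obtain ⟨T5, hT5, hne5, hx5, hs5⟩ := hnf _ hT3 x (by simp) s (by simp) hsx.symm hxo hso
          rcases hall T5 hT5 hx5 with h | h | h
          · rw [h] at hs5
            simp only [Finset.mem_insert, Finset.mem_singleton] at hs5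
            rcases hs5 with h | h | h
            · exact hsx h
            · exact hsp h
            · exact hsq h
          · rw [h] at hs5
            simp only [Finset.mem_insert, Finset.mem_singleton] at hs5
            rcases hs5 with h | h | h
            · exact hsx h
            · exact hsp h
            · exact hrs h.symm
          · exact hne5 h
        · obtain ⟨T4, hT4, hne4, hx4, hr4⟩ := hnf _ hT2 x (by simp) r (by simp) hrx.symm hxo hro
          rcases hall T4 hT4 hx4 with h | h | h
          · rw [h] at hr4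
            simp only [Finset.mem_insert, Finset.mem_singleton] at hr4
            rcases hr4 with h | h | h
            · exact absurd h hrx
            · exact absurd h hrp
            · exact absurd h hrq
          · exact absurd h hne4
          · rw [h] at hr4
            simp only [Finset.mem_insert, Finset.mem_singleton] at hr4
            rcases hr4 with h | h | h
            · exact absurd h hrx
            · exact absurd h hrq
            · exact h
      subst hrs
      exact ⟨r, hrx, hrp, hrq, hT2, hT3, hall⟩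
  by_cases hpo : p = o
  · have hqo : q ≠ o := by rw [← hpo]; exact hpq.symm
    have e : ({x, q, p} : Finset V) = {x, p, q} := by
      ext t; simp only [Finset.mem_insert, Finset.mem_singleton]; tauto
    obtain ⟨r, h1, h2, h4, h5, h6, h7⟩ := aux q p hxq hxp hpq.symm (by rw [e]; exact hT) hqo
    refine ⟨r, h1, h4, h2, h6, h5, fun T hT' hx => ?_⟩
    rcases h7 T hT' hx with h | h | h
    · left; rw [h, e]
    · right; right; exact h
    · right; left; exact h
  · exact aux p q hxp hxq hpq hT hpo

theorem star_pair (h3 : ∀ T ∈ C, T.card = 3) (hdeg : ∀ x, x ≠ o → (C.filter (x ∈ ·)).card ≤ 3)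
    (hnf : ∀ T ∈ C, ∀ u ∈ T, ∀ v ∈ T, u ≠ v → u ≠ o → v ≠ o → ∃ T' ∈ C, T' ≠ T ∧ u ∈ T' ∧ v ∈ T')
    {x y z t : V} (hyo : y ≠ o) (hxy : x ≠ y) (hxz : x ≠ z) (hxt : x ≠ t) (hyz : y ≠ z)
    (hyt : y ≠ t) (hzt : z ≠ t) (h1 : {x, y, z} ∈ C) (h2 : {x, y, t} ∈ C) :
    {y, z, t} ∈ C ∧ ∀ T ∈ C, y ∈ T → T = {x, y, z} ∨ T = {x, y, t} ∨ T = {y, z, t} := by
  have e : ({y, x, z} : Finset V) = {x, y, z} := by
    ext t; simp only [Finset.mem_insert, Finset.mem_singleton]; tauto
  obtain ⟨r, hry, hrx, hrz, h4, h5, h6⟩ := star3 h3 hdeg hnf hyo hxy.symm hyz hxz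
    (by rw [e]; exact h1)
  have hrt : r = t := by
    have ht : t ∈ ({x, y, t} : Finset V) := by simp
    have hx : x ∈ ({x, y, t} : Finset V) := by simp
    rcases h6 _ h2 (by simp) with h | h | h
    · rw [h] at ht
      simp only [Finset.mem_insert, Finset.mem_singleton] at ht
      rcases ht with h | h | h
      · exact absurd h.symm hyt
      · exact absurd h.symm hxt
      · exact absurd h.symm hzt
    · rw [h] at ht
      simp only [Finset.mem_insert, Finset.mem_singleton] at ht
      rcases ht with h | h | h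
      · exact absurd h.symm hyt
      · exact absurd h.symm hxt
      · exact h.symm
    · rw [h] at hx
      simp only [Finset.mem_insert, Finset.mem_singleton] at hx
      rcases hx with h | h | h
      · exact absurd h hxy
      · exact absurd h hxz
      · exact absurd h.symm hrx
  subst hrt
  refine ⟨h5, fun T hT hy => ?_⟩
  rcases h6 T hT hy with h | h | h
  · left; rw [h, e]
  · right; left; rw [h]
    ext t; simp only [Finset.mem_insert, Finset.mem_singleton]; tauto
  · right; right; exact h

theorem exists_tetra (h3 : ∀ T ∈ C, T.card = 3)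
    (hdeg : ∀ x, x ≠ o → (C.filter (x ∈ ·)).card ≤ 3)
    (hnf : ∀ T ∈ C, ∀ u ∈ T, ∀ v ∈ T, u ≠ v → u ≠ o → v ≠ o → ∃ T' ∈ C, T' ≠ T ∧ u ∈ T' ∧ v ∈ T')
    (hne : C.Nonempty) :
    ∃ a b c d : V, b ≠ o ∧ c ≠ o ∧ d ≠ o ∧ a ≠ b ∧ a ≠ c ∧ a ≠ d ∧ b ≠ c ∧ b ≠ d ∧ c ≠ d ∧
      {a, b, c} ∈ C ∧ {a, b, d} ∈ C ∧ {a, c, d} ∈ C ∧ {b, c, d} ∈ C ∧
      ∀ T ∈ C, ∀ y ∈ T, y ≠ o → y ∈ ({a, b, c, d} : Finset V) → T ⊆ {a, b, c, d} := by
  obtain ⟨T, hT⟩ := hne
  have : ∃ x ∈ T, x ≠ o := by
    by_contra! hcon
    have h1 : T ⊆ {o} := fun x hx => Finset.mem_singleton.2 (hcon x hx)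
    have := Finset.card_le_card h1
    rw [h3 T hT, Finset.card_singleton] at this
    omega
  obtain ⟨x, hxT, hxo⟩ := this
  have : ∃ p ∈ T, p ≠ x := by
    by_contra! hcon
    have h1 : T ⊆ {x} := fun y hy => Finset.mem_singleton.2 (hcon y hy)
    have := Finset.card_le_card h1
    rw [h3 T hT, Finset.card_singleton] at this
    omega
  obtain ⟨p, hpT, hpx⟩ := this
  obtain ⟨q, hqx, hqp, rfl⟩ := eq_three (h3 T hT) hxT hpT hpx.symm
  obtain ⟨r, hrx, hrp, hrq, hM2, hM3, hx⟩ := star3 h3 hdeg hnf hxo hpx.symm hqx.symm hqp.symm hT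
  -- the star at each of the other points
  have s12 : ∀ a b c : V, ({a, b, c} : Finset V) = {b, a, c} := fun a b c =>
    Finset.insert_comm a b {c}
  have s23 : ∀ a b c : V, ({a, b, c} : Finset V) = {a, c, b} := fun a b c => by
    rw [Finset.pair_comm b c]
  have hp : p ≠ o → {p, q, r} ∈ C ∧
      ∀ T ∈ C, p ∈ T → T = {x, p, q} ∨ T = {x, p, r} ∨ T = {p, q, r} := fun hpo =>
    star_pair h3 hdeg hnf hpo hpx.symm hqx.symm hrx.symm hqp.symm hrp.symm hrq.symm hT hM2
  have hq : q ≠ o → {q, p, r} ∈ C ∧
      ∀ T ∈ C, q ∈ T → T = {x, q, p} ∨ T = {x, q, r} ∨ T = {q, p, r} := fun hqo =>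
    star_pair h3 hdeg hnf hqo hqx.symm hpx.symm hrx.symm hqp hrq.symm hrp.symm
      (by rw [s23 x q p]; exact hT) hM3
  have hr : r ≠ o → {r, p, q} ∈ C ∧
      ∀ T ∈ C, r ∈ T → T = {x, r, p} ∨ T = {x, r, q} ∨ T = {r, p, q} := fun hro =>
    star_pair h3 hdeg hnf hro hrx.symm hpx.symm hqx.symm hrp hrq hqp.symm
      (by rw [s23 x r p]; exact hM2) (by rw [s23 x r q]; exact hM3)
  have hM4 : {p, q, r} ∈ C := by
    by_cases hpo : p = o
    · have hqo : q ≠ o := by rw [← hpo]; exact hqp
      have := (hq hqo).1
      rwa [s12 q p r] at this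
    · exact (hp hpo).1
  have hclosed : ∀ T' ∈ C, ∀ y ∈ T', y ≠ o → (y = x ∨ y = p ∨ y = q ∨ y = r) →
      T' = {x, p, q} ∨ T' = {x, p, r} ∨ T' = {x, q, r} ∨ T' = {p, q, r} := by
    intro T' hT' y hy hyo hy4
    rcases hy4 with h0 | h0 | h0 | h0 <;> rw [h0] at hy hyo
    · rcases hx T' hT' hy with h | h | h
      · left; exact h
      · right; left; exact h
      · right; right; left; exact h
    · rcases (hp hyo).2 T' hT' hy with h | h | h
      · left; exact h
      · right; left; exact h
      · right; right; right; exact h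
    · rcases (hq hyo).2 T' hT' hy with h | h | h
      · left; rw [h]; exact s23 _ _ _
      · right; right; left; exact h
      · right; right; right; rw [h]; exact s12 _ _ _
    · rcases (hr hyo).2 T' hT' hy with h | h | h
      · right; left; rw [h]; exact s23 _ _ _
      · right; right; left; rw [h]; exact s23 _ _ _
      · right; right; right; rw [h, s12 r p q, s23 p r q]
  have hsub : ∀ E : Finset V, x ∈ E → p ∈ E → q ∈ E → r ∈ E →
      (∀ t ∈ E, t = x ∨ t = p ∨ t = q ∨ t = r) →
      ∀ T' ∈ C, ∀ y ∈ T', y ≠ o → y ∈ E → T' ⊆ E := by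
    intro E hxE hpE hqE hrE hE T' hT' y hy hyo hyE
    rcases hclosed T' hT' y hy hyo (hE y hyE) with h | h | h | h <;> rw [h] <;>
      intro t ht <;> simp only [Finset.mem_insert, Finset.mem_singleton] at ht <;>
      rcases ht with h | h | h <;> rw [h] <;> assumption
  have mem1 : ∀ a b c d : V, a ∈ ({a, b, c, d} : Finset V) := fun a b c d => by simp
  have mem2 : ∀ a b c d : V, b ∈ ({a, b, c, d} : Finset V) := fun a b c d => by simp
  have mem3 : ∀ a b c d : V, c ∈ ({a, b, c, d} : Finset V) := fun a b c d => by simp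
  have mem4 : ∀ a b c d : V, d ∈ ({a, b, c, d} : Finset V) := fun a b c d => by simp
  have memE : ∀ a b c d t : V, t ∈ ({a, b, c, d} : Finset V) → t = a ∨ t = b ∨ t = c ∨ t = d :=
    fun a b c d t h => by simpa using h
  by_cases hpo : p = o
  · refine ⟨p, x, q, r, hxo, by rw [← hpo]; exact hqp, by rw [← hpo]; exact hrp, hpx, hqp.symm,
      hrp.symm, hqx.symm, hrx.symm, hrq.symm, ?_, ?_, hM4, hM3, ?_⟩
    · rw [s12 p x q]; exact hT
    · rw [s12 p x r]; exact hM2
    · refine hsub _ (mem2 _ _ _ _) (mem1 _ _ _ _) (mem3 _ _ _ _) (mem4 _ _ _ _) fun t ht => ?_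
      rcases memE _ _ _ _ _ ht with h | h | h | h
      exacts [Or.inr (Or.inl h), Or.inl h, Or.inr (Or.inr (Or.inl h)), Or.inr (Or.inr (Or.inr h))]
  · by_cases hqo : q = o
    · refine ⟨q, x, p, r, hxo, hpo, by rw [← hqo]; exact hrq, hqx, hqp, hrq.symm, hpx.symm,
        hrx.symm, hrp.symm, ?_, ?_, ?_, hM2, ?_⟩
      · rw [s12 q x p, s23 x q p]; exact hT
      · rw [s12 q x r]; exact hM3
      · rw [s12 q p r]; exact hM4
      · refine hsub _ (mem2 _ _ _ _) (mem3 _ _ _ _) (mem1 _ _ _ _) (mem4 _ _ _ _) fun t ht => ?_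
        rcases memE _ _ _ _ _ ht with h | h | h | h
        exacts [Or.inr (Or.inr (Or.inl h)), Or.inl h, Or.inr (Or.inl h), Or.inr (Or.inr (Or.inr h))]
    · by_cases hro : r = o
      · refine ⟨r, x, p, q, hxo, hpo, hqo, hrx, hrp, hrq, hpx.symm, hqx.symm, hqp.symm,
          ?_, ?_, ?_, hT, ?_⟩
        · rw [s12 r x p, s23 x r p]; exact hM2
        · rw [s12 r x q, s23 x r q]; exact hM3
        · rw [s12 r p q, s23 p r q]; exact hM4
        · refine hsub _ (mem2 _ _ _ _) (mem3 _ _ _ _) (mem4 _ _ _ _) (mem1 _ _ _ _) fun t ht => ?_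
          rcases memE _ _ _ _ _ ht with h | h | h | h
          exacts [Or.inr (Or.inr (Or.inr h)), Or.inl h, Or.inr (Or.inl h),
            Or.inr (Or.inr (Or.inl h))]
      · refine ⟨x, p, q, r, hpo, hqo, hro, hpx.symm, hqx.symm, hrx.symm, hqp.symm, hrp.symm,
          hrq.symm, hT, hM2, hM3, hM4, ?_⟩
        exact hsub _ (mem1 _ _ _ _) (mem2 _ _ _ _) (mem3 _ _ _ _) (mem4 _ _ _ _) (memE _ _ _ _)

/-- The fields `γ` and `β` agree off the pairs in `E`. -/
def AgreeOutside (E : Finset V) (γ β : V → V → ZMod 5) : Prop :=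
  ∀ p q, ¬ (p ∈ E ∧ q ∈ E) → γ p q = β p q

omit [DecidableEq V] in
theorem AgreeOutside.trans {E : Finset V} {α : V → V → ZMod 5} (h : AgreeOutside E γ β)
    (h' : AgreeOutside E β α) : AgreeOutside E γ α := fun p q hpq => (h p q hpq).trans (h' p q hpq)

/-- Gauge transformations. -/
theorem gauge {E : Finset V} {y : V} (hyE : y ∈ E) (hoE : o ∉ E)
    (hRE : ∀ z ∈ E, z ≠ y → R y z) (hcl : ∀ T ∈ C, y ∈ T → T ⊆ E)
    (hflat : ∀ T ∈ C, Flat β T) (t : ZMod 5) :
    ReflTransGen (Step o R C) β (upd β y (fun z => if z ∈ E ∧ z ≠ y then t else 0)) := by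
  have hyo : y ≠ o := fun h => hoE (h ▸ hyE)
  have key : ∀ n : ℕ, ReflTransGen (Step o R C) β
      (upd β y (fun z => if z ∈ E ∧ z ≠ y then (n : ZMod 5) else 0)) := by
    intro n
    induction n with
    | zero =>
      have : (fun z => if z ∈ E ∧ z ≠ y then ((0 : ℕ) : ZMod 5) else 0) = 0 := by
        funext z; simp
      rw [this, upd_zero]
    | succ n ih =>
      refine ih.tail ⟨y, fun z => if z ∈ E ∧ z ≠ y then 1 else 0, hyo, ?_, ?_, ?_, ?_, ?_, ?_⟩
      · simp
      · simp [hoE]
      · intro z
        dsimp only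
        split_ifs
        · exact small_one
        · exact small_zero
      · intro z hz
        dsimp only at hz
        split_ifs at hz with h
        · exact hRE z h.1 h.2
        · exact absurd rfl hz
      · rw [upd_upd]
        congr 1
        funext z
        simp only [Pi.add_apply]
        split_ifs <;> push_cast <;> ring
      · intro T hT p hp q hq r hr
        by_cases hyT : y ∈ T
        · have hpE := hcl T hT hyT hp
          have hqE := hcl T hT hyT hq
          have hrE := hcl T hT hyT hr
          have h0 := hflat T hT p hp q hq r hr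
          have : cur (upd β y (fun z => if z ∈ E ∧ z ≠ y then ((n + 1 : ℕ) : ZMod 5) else 0)) p q r
              = cur β p q r := by
            simp only [cur, upd, hpE, hqE, hrE, true_and]
            by_cases e1 : p = y <;> by_cases e2 : q = y <;> by_cases e3 : r = y <;>
              simp [e1, e2, e3] <;> ring
          rw [this]
          exact h0
        · have hpy : p ≠ y := fun h => hyT (h ▸ hp)
          have hqy : q ≠ y := fun h => hyT (h ▸ hq)
          have hry : r ≠ y := fun h => hyT (h ▸ hr)
          have h0 := hflat T hT p hp q hq r hr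
          simp only [cur, upd, hpy, hqy, hry, if_false, add_zero, sub_zero] at h0 ⊢
          exact h0
  have := key t.val
  rwa [ZMod.natCast_val, ZMod.cast_id] at this

theorem edge_zero {p q : V} (hpo : p ≠ o) (hqo : q ≠ o) (hpq : p ≠ q) (hRs : ∀ a b, R a b → R b a)
    (hR : R p q) (hβ : IsField R β) (hflat : ∀ T ∈ C, Flat β T) (hs : Small (β p q))
    (hT : ∀ T ∈ C, p ∈ T → q ∈ T → ∃ z, z ≠ p ∧ z ≠ q ∧ T = {p, q, z} ∧
      Small (β q z + β z p)) :
    Step o R C β (upd β p (Pi.single q (-β p q))) := by
  have hsup : ∀ z, (Pi.single q (-β p q) : V → ZMod 5) z ≠ 0 → R p z := by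
    intro z hz
    rw [Pi.single_apply] at hz
    split_ifs at hz with h
    · rw [h]; exact hR
    · exact absurd rfl hz
  refine ⟨p, Pi.single q (-β p q), hpo, by simp [hpq], by simp [hqo.symm], ?_, hsup, rfl, ?_⟩
  · intro z
    rw [Pi.single_apply]
    split_ifs
    · exact hs.neg
    · exact small_zero
  · intro T hTC
    by_cases h : p ∈ T ∧ q ∈ T
    · obtain ⟨z, hzp, hzq, rfl, hz⟩ := hT T hTC h.1 h.2
      apply flat_triple (upd_field hβ hRs hsup).anti
      rw [cur_upd_single hpq hzp.symm hzq.symm]
      have : cur β p q z + -β p q = β q z + β z p := by simp only [cur]; ring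
      rw [this]; exact hz
    · refine (hflat T hTC).congr fun a ha b hb => ?_
      apply upd_single_apply_ne
      rintro (⟨rfl, rfl⟩ | ⟨rfl, rfl⟩)
      · exact h ⟨ha, hb⟩
      · exact h ⟨hb, ha⟩

/-- The final part of the treatment of a tetrahedron: the field already vanishes on the pairs
containing `a`. -/
theorem tetra_zero {a b c d : V} (hb : b ≠ o) (hc : c ≠ o) (hd : d ≠ o) (hab : a ≠ b)
    (hac : a ≠ c) (had : a ≠ d) (hbc : b ≠ c) (hbd : b ≠ d) (hcd : c ≠ d)
    (hRs : ∀ a b, R a b → R b a) (hRbc : R b c) (hRcd : R c d) (hRdb : R d b)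
    (h3 : ∀ T ∈ C, T.card = 3)
    (habc : {a, b, c} ∈ C) (habd : {a, b, d} ∈ C) (hacd : {a, c, d} ∈ C) (hbcd : {b, c, d} ∈ C)
    (hcl : ∀ T ∈ C, ∀ y ∈ T, y ≠ o → y ∈ ({a, b, c, d} : Finset V) → T ⊆ {a, b, c, d}) :
    ∀ n : ℕ, ∀ γ : V → V → ZMod 5, IsField R γ → (∀ T ∈ C, Flat γ T) → γ a b = 0 → γ a c = 0 →
      γ a d = 0 → (if γ b c = 0 then 0 else 1) + (if γ c d = 0 then 0 else 1) +
        (if γ d b = 0 then 0 else 1) ≤ n →
      ∃ γ', ReflTransGen (Step o R C) γ γ' ∧ AgreeOutside {a, b, c, d} γ' γ ∧
        ∀ p ∈ ({a, b, c, d} : Finset V), ∀ q ∈ ({a, b, c, d} : Finset V), γ' p q = 0 := by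
  intro n
  induction n with
  | zero =>
    intro γ hγ _ hb0 hc0 hd0 hn
    have e1 : γ b c = 0 := by by_contra h; simp [h] at hn
    have e2 : γ c d = 0 := by by_contra h; simp [h] at hn
    have e3 : γ d b = 0 := by by_contra h; simp [h] at hn
    refine ⟨γ, ReflTransGen.refl, fun _ _ _ => rfl, ?_⟩
    have h0 : ∀ x, γ x x = 0 := fun x => self_eq_zero (hγ.anti x x)
    have f1 : γ b a = 0 := by rw [hγ.anti, hb0, neg_zero]
    have f2 : γ c a = 0 := by rw [hγ.anti, hc0, neg_zero]
    have f3 : γ d a = 0 := by rw [hγ.anti, hd0, neg_zero]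
    have f4 : γ c b = 0 := by rw [hγ.anti, e1, neg_zero]
    have f5 : γ d c = 0 := by rw [hγ.anti, e2, neg_zero]
    have f6 : γ b d = 0 := by rw [hγ.anti, e3, neg_zero]
    intro p hp q hq
    simp only [Finset.mem_insert, Finset.mem_singleton] at hp hq
    rcases hp with rfl | rfl | rfl | rfl <;> rcases hq with rfl | rfl | rfl | rfl <;>
      first | exact h0 _ | assumption
  | succ n ih =>
    intro γ hγ hflat hb0 hc0 hd0 hn
    have f1 : γ b a = 0 := by rw [hγ.anti, hb0, neg_zero]
    have f2 : γ c a = 0 := by rw [hγ.anti, hc0, neg_zero]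
    have f3 : γ d a = 0 := by rw [hγ.anti, hd0, neg_zero]
    have su : Small (γ b c) := by
      have := hflat _ habc a (by simp) b (by simp) c (by simp)
      simpa [cur, hb0, f2] using this
    have sv : Small (γ c d) := by
      have := hflat _ hacd a (by simp) c (by simp) d (by simp)
      simpa [cur, hc0, f3] using this
    have sw : Small (γ d b) := by
      have := hflat _ habd a (by simp) d (by simp) b (by simp)
      simpa [cur, hd0, f1] using this
    have ssum : Small (γ b c + γ c d + γ d b) :=
      hflat _ hbcd b (by simp) c (by simp) d (by simp)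
    have dec : ∀ u v w : ZMod 5, Small u → Small v → Small w → Small (u + v + w) →
        (u = 0 ∧ v = 0 ∧ w = 0) ∨ (u ≠ 0 ∧ Small (v + w)) ∨ (v ≠ 0 ∧ Small (w + u)) ∨
          (w ≠ 0 ∧ Small (u + v)) := by
      intro u v w hu hv hw
      rcases hu with rfl | rfl | rfl <;> rcases hv with rfl | rfl | rfl <;>
        rcases hw with rfl | rfl | rfl <;> decide
    -- one step on the edge `{p, q}`, the third vertex being `r`
    have one : ∀ p q r : V, p ≠ o → q ≠ o → p ≠ q → p ≠ r → q ≠ r → a ≠ p → a ≠ q → a ≠ r → R p q →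
        (∀ t, t ∈ ({a, b, c, d} : Finset V) ↔ t = a ∨ t = p ∨ t = q ∨ t = r) →
        γ a p = 0 → γ q a = 0 → Small (γ p q) → Small (γ q r + γ r p) →
        Step o R C γ (upd γ p (Pi.single q (-γ p q))) := by
      intro p q r hpo hqo hpq hpr hqr hap haq har hR hE hap0 hqa0 hs hs'
      apply edge_zero hpo hqo hpq hRs hR hγ hflat hs
      intro T hT hpT hqT
      obtain ⟨z, hzp, hzq, rfl⟩ := eq_three (h3 T hT) hpT hqT hpq
      refine ⟨z, hzp, hzq, rfl, ?_⟩
      have hz : z ∈ ({a, b, c, d} : Finset V) := by
        apply hcl _ hT p (by simp) hpo ((hE p).2 (by tauto))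
        simp
      rcases (hE z).1 hz with h | h | h | h
      · rw [h, hqa0, hap0, add_zero]; exact small_zero
      · exact absurd h hzp
      · exact absurd h hzq
      · rw [h]; exact hs'
    -- conclusion from one step
    have fin : ∀ p q : V, p ∈ ({a, b, c, d} : Finset V) → q ∈ ({a, b, c, d} : Finset V) → p ≠ q →
        a ≠ p → a ≠ q → Step o R C γ (upd γ p (Pi.single q (-γ p q))) →
        (if upd γ p (Pi.single q (-γ p q)) b c = 0 then 0 else 1) +
          (if upd γ p (Pi.single q (-γ p q)) c d = 0 then 0 else 1) +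
          (if upd γ p (Pi.single q (-γ p q)) d b = 0 then 0 else 1) ≤ n →
        ∃ γ', ReflTransGen (Step o R C) γ γ' ∧ AgreeOutside {a, b, c, d} γ' γ ∧
        ∀ p ∈ ({a, b, c, d} : Finset V), ∀ q ∈ ({a, b, c, d} : Finset V), γ' p q = 0 := by
      intro p q hp hq hpq hap haq hst hle
      have hfl : ∀ T ∈ C, Flat (upd γ p (Pi.single q (-γ p q))) T := by
        obtain ⟨_, _, _, _, _, _, _, _, h⟩ := hst
        exact h
      have ha : ∀ t, upd γ p (Pi.single q (-γ p q)) a t = γ a t := by
        intro t
        apply upd_single_apply_ne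
        rintro (⟨h, _⟩ | ⟨h, _⟩)
        · exact hap h
        · exact haq h
      obtain ⟨γ', h1, h2, h4⟩ := ih _ (hst.field hRs hγ) hfl (by rw [ha]; exact hb0)
        (by rw [ha]; exact hc0) (by rw [ha]; exact hd0) hle
      refine ⟨γ', (ReflTransGen.single hst).trans h1, h2.trans ?_, h4⟩
      intro s t hst'
      apply upd_single_apply_ne
      rintro (⟨rfl, rfl⟩ | ⟨rfl, rfl⟩)
      · exact hst' ⟨hp, hq⟩
      · exact hst' ⟨hq, hp⟩
    have mb : b ∈ ({a, b, c, d} : Finset V) := by simp
    have mc : c ∈ ({a, b, c, d} : Finset V) := by simp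
    have md : d ∈ ({a, b, c, d} : Finset V) := by simp
    rcases dec _ _ _ su sv sw ssum with ⟨e1, e2, e3⟩ | ⟨hu, hs⟩ | ⟨hv, hs⟩ | ⟨hw, hs⟩
    · apply ih γ hγ hflat hb0 hc0 hd0
      simp [e1, e2, e3]
    · refine fin b c mb mc hbc hab hac (one b c d hb hc hbc hbd hcd hab hac had hRbc ?_ hb0 f2 su
        hs) ?_
      · intro t; simp only [Finset.mem_insert, Finset.mem_singleton]
      · rw [upd_single_apply hbc, upd_single_apply_ne, upd_single_apply_ne]
        · simp only [hu, if_false, add_neg_cancel, if_true] at hn ⊢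
          omega
        · rintro (⟨h, _⟩ | ⟨h, _⟩)
          · exact hbd h.symm
          · exact hcd h.symm
        · rintro (⟨h, _⟩ | ⟨_, h⟩)
          · exact hbc h.symm
          · exact hbd h.symm
    · refine fin c d mc md hcd hac had (one c d b hc hd hcd hbc.symm hbd.symm hac had hab hRcd ?_
        hc0 f3 sv hs) ?_
      · intro t; simp only [Finset.mem_insert, Finset.mem_singleton]; tauto
      · rw [upd_single_apply hcd, upd_single_apply_ne, upd_single_apply_ne]
        · simp only [hv, if_false, add_neg_cancel, if_true] at hn ⊢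
          omega
        · rintro (⟨h, _⟩ | ⟨_, h⟩)
          · exact hcd h.symm
          · exact hbc h
        · rintro (⟨h, _⟩ | ⟨h, _⟩)
          · exact hbc h
          · exact hbd h
    · refine fin d b md mb hbd.symm had hab (one d b c hd hb hbd.symm hcd.symm hbc had hab hac
        hRdb ?_ hd0 f1 sw hs) ?_
      · intro t; simp only [Finset.mem_insert, Finset.mem_singleton]; tauto
      · rw [upd_single_apply hbd.symm, upd_single_apply_ne, upd_single_apply_ne]
        · simp only [hw, if_false, add_neg_cancel, if_true] at hn ⊢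
          omega
        · rintro (⟨h, _⟩ | ⟨h, _⟩)
          · exact hcd h
          · exact hbc h.symm
        · rintro (⟨h, _⟩ | ⟨_, h⟩)
          · exact hbd h
          · exact hcd h

/-- Treatment of a tetrahedron. -/
theorem tetra {a b c d : V} (hb : b ≠ o) (hc : c ≠ o) (hd : d ≠ o) (hab : a ≠ b)
    (hac : a ≠ c) (had : a ≠ d) (hbc : b ≠ c) (hbd : b ≠ d) (hcd : c ≠ d)
    (hRs : ∀ a b, R a b → R b a) (hRo : ∀ a, ¬ R a o)
    (hR : ∀ T ∈ C, ∀ x ∈ T, ∀ y ∈ T, x ≠ y → x ≠ o → y ≠ o → R x y)
    (h3 : ∀ T ∈ C, T.card = 3)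
    (habc : {a, b, c} ∈ C) (habd : {a, b, d} ∈ C) (hacd : {a, c, d} ∈ C) (hbcd : {b, c, d} ∈ C)
    (hcl : ∀ T ∈ C, ∀ y ∈ T, y ≠ o → y ∈ ({a, b, c, d} : Finset V) → T ⊆ {a, b, c, d})
    (hβ : IsField R β) (hflat : ∀ T ∈ C, Flat β T) :
    ∃ γ', ReflTransGen (Step o R C) β γ' ∧ AgreeOutside {a, b, c, d} γ' β ∧
        ∀ p ∈ ({a, b, c, d} : Finset V), ∀ q ∈ ({a, b, c, d} : Finset V), γ' p q = 0 := by
  have hRbc : R b c := hR _ hbcd b (by simp) c (by simp) hbc hb hc
  have hRcd : R c d := hR _ hbcd c (by simp) d (by simp) hcd hc hd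
  have hRdb : R d b := hR _ hbcd d (by simp) b (by simp) hbd.symm hd hb
  suffices h : ∃ γ, ReflTransGen (Step o R C) β γ ∧ AgreeOutside {a, b, c, d} γ β ∧
      γ a b = 0 ∧ γ a c = 0 ∧ γ a d = 0 by
    obtain ⟨γ, h1, h2, e1, e2, e3⟩ := h
    obtain ⟨γ', h4, h5, h6⟩ := tetra_zero hb hc hd hab hac had hbc hbd hcd hRs hRbc hRcd hRdb h3
      habc habd hacd hbcd hcl 3 γ (reach_field hRs hβ h1) (reach_flat hflat h1) e1 e2 e3
      (by split_ifs <;> simp)
    exact ⟨γ', h1.trans h4, h5.trans h2, h6⟩
  by_cases ha : a = o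
  · have h0 : ∀ t, β a t = 0 := by
      intro t
      by_contra h
      have := hRs _ _ (hβ.supp _ _ h)
      rw [ha] at this
      exact hRo _ this
    exact ⟨β, ReflTransGen.refl, fun _ _ _ => rfl, h0 _, h0 _, h0 _⟩
  · have hoE : o ∉ ({a, b, c, d} : Finset V) := by
      simp only [Finset.mem_insert, Finset.mem_singleton, not_or]
      exact ⟨fun h => ha h.symm, hb.symm, hc.symm, hd.symm⟩
    -- all pairs are related
    have hne : ∀ z ∈ ({a, b, c, d} : Finset V), z ≠ o := fun z hz h => hoE (h ▸ hz)
    have hRab : R a b := hR _ habc a (by simp) b (by simp) hab ha hb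
    have hRac : R a c := hR _ habc a (by simp) c (by simp) hac ha hc
    have hRad : R a d := hR _ habd a (by simp) d (by simp) had ha hd
    have hRE : ∀ y ∈ ({a, b, c, d} : Finset V), ∀ z ∈ ({a, b, c, d} : Finset V), z ≠ y →
        R y z := by
      intro y hy z hz hzy
      simp only [Finset.mem_insert, Finset.mem_singleton] at hy hz
      rcases hy with rfl | rfl | rfl | rfl <;> rcases hz with rfl | rfl | rfl | rfl <;>
        first
          | exact absurd rfl hzy
          | assumption
          | exact hRs _ _ (by assumption)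
    -- one gauge transformation making `β a y` zero
    have g : ∀ y ∈ ({a, b, c, d} : Finset V), a ≠ y → ∀ γ : V → V → ZMod 5, IsField R γ →
        (∀ T ∈ C, Flat γ T) →
        ∃ γ', ReflTransGen (Step o R C) γ γ' ∧ AgreeOutside {a, b, c, d} γ' γ ∧ γ' a y = 0 ∧
          ∀ z, z ≠ y → γ' a z = γ a z := by
      intro y hy hay γ hγ hγf
      have hst := gauge (β := γ) hy hoE (fun z hz hzy => hRE y hy z hz hzy)
        (fun T hT hyT => hcl T hT y hyT (hne y hy) hy) hγf (γ a y)
      refine ⟨_, hst, ?_, ?_, ?_⟩
      · intro p q hpq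
        simp only [upd]
        by_cases e1 : p = y
        · subst e1
          have hq : q ∉ ({a, b, c, d} : Finset V) := fun h => hpq ⟨hy, h⟩
          have hqp : q ≠ p := fun h => hq (h ▸ hy)
          simp only [hq, hqp, if_true, if_false, false_and, add_zero, sub_zero]
        · by_cases e2 : q = y
          · subst e2
            have hp : p ∉ ({a, b, c, d} : Finset V) := fun h => hpq ⟨h, hy⟩
            simp only [hp, e1, if_true, if_false, false_and, add_zero, sub_zero]
          · simp only [e1, e2, if_false, add_zero, sub_zero]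
      · simp [upd, hay]
      · intro z hz
        simp [upd, hay, hz]
    obtain ⟨γ₁, r1, o1, z1, k1⟩ := g b (by simp) hab β hβ hflat
    have f1 := reach_field hRs hβ r1
    have l1 := reach_flat hflat r1
    obtain ⟨γ₂, r2, o2, z2, k2⟩ := g c (by simp) hac γ₁ f1 l1
    have f2 := reach_field hRs f1 r2
    have l2 := reach_flat l1 r2
    obtain ⟨γ₃, r3, o3, z3, k3⟩ := g d (by simp) had γ₂ f2 l2
    refine ⟨γ₃, (r1.trans r2).trans r3, (o3.trans o2).trans o1, ?_, ?_, z3⟩
    · rw [k3 b hbd, k2 b hbc, z1]
    · rw [k3 c hcd, z2]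

theorem Step.mono {C' : Finset (Finset V)} (h : C' ⊆ C) {β β' : V → V → ZMod 5}
    (hst : Step o R C β β') : Step o R C' β β' := by
  obtain ⟨x, g, h1, h2, h3, h4, h5, h6, h7⟩ := hst
  exact ⟨x, g, h1, h2, h3, h4, h5, h6, fun T hT => h7 T (h hT)⟩

/-- With no constraint, each field can be changed to zero. -/
theorem reach_empty [Fintype V] (hRs : ∀ a b, R a b → R b a) (hRo : ∀ a, ¬ R a o) :
    ∀ n : ℕ, ∀ β : V → V → ZMod 5, IsField R β →
      (Finset.univ.filter (fun p : V × V => β p.1 p.2 ≠ 0)).card ≤ n →
      ReflTransGen (Step o R (∅ : Finset (Finset V))) β 0 := by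
  intro n
  induction n with
  | zero =>
    intro β hβ hn
    have : β = 0 := by
      funext a b
      by_contra h
      have hm : (a, b) ∈ Finset.univ.filter (fun p : V × V => β p.1 p.2 ≠ 0) := by
        simpa using h
      have := Finset.card_pos.2 ⟨_, hm⟩
      omega
    rw [this]
  | succ n ih =>
    intro β hβ hn
    by_cases h0 : β = 0
    · rw [h0]
    · obtain ⟨a, b, hab⟩ : ∃ a b, β a b ≠ 0 := by
        by_contra! hcon
        exact h0 (by funext a b; exact hcon a b)
      have hR := hβ.supp a b hab
      have hao : a ≠ o := by rintro rfl; exact hRo _ (hRs _ _ hR)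
      have hbo : b ≠ o := by rintro rfl; exact hRo _ hR
      have hne : a ≠ b := by
        rintro rfl
        exact hab (self_eq_zero (hβ.anti a a))
      have hst := edge_reach (C := ∅) (β := β) hao hbo hne hR (by simp) (by simp) (-β a b)
      refine hst.trans (ih _ (reach_field hRs hβ hst) ?_)
      have hlt : (Finset.univ.filter
          (fun p : V × V => upd β a (Pi.single b (-β a b)) p.1 p.2 ≠ 0)).card <
          (Finset.univ.filter (fun p : V × V => β p.1 p.2 ≠ 0)).card := by
        apply Finset.card_lt_card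
        constructor
        · intro p hp
          simp only [Finset.mem_filter, Finset.mem_univ, true_and] at hp ⊢
          by_cases hp' : (p.1 = a ∧ p.2 = b) ∨ (p.1 = b ∧ p.2 = a)
          · exfalso
            apply hp
            rcases hp' with ⟨e1, e2⟩ | ⟨e1, e2⟩
            · rw [e1, e2, upd_single_apply hne]; ring
            · rw [e1, e2, upd_single_apply' hne, hβ.anti b a]; ring
          · rwa [upd_single_apply_ne _ hp'] at hp
        · intro hsub
          have hm : (a, b) ∈ Finset.univ.filter (fun p : V × V => β p.1 p.2 ≠ 0) := by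
            simpa using hab
          have := hsub hm
          simp only [Finset.mem_filter, Finset.mem_univ, true_and] at this
          rw [upd_single_apply hne] at this
          exact this (by ring)
      omega

/-- **Main theorem on nearly flat fields.** -/
theorem reach_zero [Fintype V] (hRs : ∀ a b, R a b → R b a) (hRo : ∀ a, ¬ R a o) :
    ∀ (n : ℕ) (C : Finset (Finset V)), C.card ≤ n → (∀ T ∈ C, T.card = 3) →
      (∀ x, x ≠ o → (C.filter (x ∈ ·)).card ≤ 3) →
      (∀ T ∈ C, ∀ x ∈ T, ∀ y ∈ T, x ≠ y → x ≠ o → y ≠ o → R x y) →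
      ∀ β : V → V → ZMod 5, IsField R β → (∀ T ∈ C, Flat β T) →
      ReflTransGen (Step o R C) β 0 := by
  intro n
  induction n with
  | zero =>
    intro C hC h3 hdeg hR β hβ hflat
    have : C = ∅ := Finset.card_eq_zero.1 (by omega)
    subst this
    exact reach_empty hRs hRo _ β hβ le_rfl
  | succ n ih =>
    intro C hC h3 hdeg hR β hβ hflat
    by_cases hne : C.Nonempty
    · by_cases hnf : ∀ T ∈ C, ∀ u ∈ T, ∀ v ∈ T, u ≠ v → u ≠ o → v ≠ o →
          ∃ T' ∈ C, T' ≠ T ∧ u ∈ T' ∧ v ∈ T'
      · obtain ⟨a, b, c, d, hb, hc, hd, hab, hac, had, hbc, hbd, hcd, h1, h2, h4, h5, hcl⟩ :=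
          exists_tetra h3 hdeg hnf hne
        obtain ⟨γ, r1, ag1, z1⟩ := tetra hb hc hd hab hac had hbc hbd hcd hRs hRo hR h3 h1 h2 h4 h5
          hcl hβ hflat
        set E : Finset V := {a, b, c, d} with hE
        set C' := C.filter (fun T => ¬ T ⊆ E) with hC'
        have hsub : C' ⊆ C := Finset.filter_subset _ _
        have hcard : C'.card < C.card := by
          apply Finset.card_lt_card
          refine ⟨hsub, fun hh => ?_⟩
          have := hh h1
          rw [hC', Finset.mem_filter] at this
          apply this.2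
          intro t ht
          simp only [hE, Finset.mem_insert, Finset.mem_singleton] at ht ⊢
          tauto
        have fγ := reach_field hRs hβ r1
        have lγ := reach_flat hflat r1
        have r2 := ih C' (by omega) (fun T hT => h3 T (hsub hT))
          (fun x hx => le_trans (Finset.card_le_card (Finset.filter_subset_filter _ hsub))
            (hdeg x hx))
          (fun T hT => hR T (hsub hT)) γ fγ (fun T hT => lγ T (hsub hT))
        obtain ⟨γ', r3, z3, ag3⟩ := lift_zero (C := C) (C' := C') (E := E) (γ := γ)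
          (by
            intro T hT hT'
            by_contra h
            exact hT' (Finset.mem_filter.2 ⟨hT, h⟩))
          (by
            intro T hT hT' p hp q hq hpE hqE hpq
            have hTE : ¬ T ⊆ E := (Finset.mem_filter.1 hT').2
            by_cases hpo : p = o
            · have hqo : q ≠ o := by rw [← hpo]; exact hpq.symm
              exact hTE (hcl T hT q hq hqo hqE)
            · exact hTE (hcl T hT p hp hpo hpE))
          r2 hRs fγ fγ z1 (fun _ _ _ => rfl)
        have : γ' = 0 := by
          funext p q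
          by_cases hpq : p ∈ E ∧ q ∈ E
          · exact z3 p hpq.1 q hpq.2
          · rw [ag3 p q hpq]
        rw [this] at r3
        exact r1.trans r3
      · push Not at hnf
        obtain ⟨T, hT, u, hu, v, hv, huv, huo, hvo, hfree⟩ := hnf
        obtain ⟨w, hwu, hwv, rfl⟩ := eq_three (h3 T hT) hu hv huv
        have hfree' : ∀ T ∈ C, u ∈ T → v ∈ T → T = {u, v, w} := by
          intro T' hT' hu' hv'
          by_contra h
          exact hfree T' hT' h hu' hv'
        have hsub : C.erase {u, v, w} ⊆ C := Finset.erase_subset _ _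
        have hcard : (C.erase {u, v, w}).card < C.card := Finset.card_erase_lt_of_mem hT
        apply reach_of_free huo hvo huv hwu.symm hwv.symm hRs (hR _ hT u hu v hv huv huo hvo) hT
          hfree' hβ hflat
        exact ih _ (by omega) (fun T hT => h3 T (hsub hT))
          (fun x hx => le_trans (Finset.card_le_card (Finset.filter_subset_filter _ hsub))
            (hdeg x hx))
          (fun T hT => hR T (hsub hT)) β hβ (fun T hT => hflat T (hsub hT))
    · rw [Finset.not_nonempty_iff_eq_empty] at hne
      subst hne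
      exact reach_empty hRs hRo _ β hβ le_rfl

end

end Pool.Agent.Helper5_Mobility
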