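import Mathlib
import Pool.Agent.Helper5_Mobility.Fields

/-!
# Fluxes through squares
-/

namespace Pool.Agent.Helper5_Mobility

section

variable {V : Type} (b : V → V → ZMod 5)

/-- The set of the elements with property `P` is flat. -/
def FlatOn (P : V → Prop) : Prop :=
  ∀ x y z, P x → P y → P z → Small (b x y + b y z + b z x)

/-- The integral flux through a triangle. -/
def tri (p q r : V) : ℤ := (b p q + b q r + b r p).valMinAbs

/-- The integral flux through a square. -/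
def quad (p q r s : V) : ℤ := (b p q + b q r + b r s + b s p).valMinAbs

theorem small_lift {z : ZMod 5} (h : Small z) : -1 ≤ z.valMinAbs ∧ z.valMinAbs ≤ 1 := by
  rcases h with rfl | rfl | rfl <;> decide

theorem lift_bound (z : ZMod 5) : -2 ≤ z.valMinAbs ∧ z.valMinAbs ≤ 2 := by
  revert z; decide

theorem lift_eq {z : ZMod 5} {m : ℤ} (h : (m : ZMod 5) = z) (h1 : -2 ≤ m) (h2 : m ≤ 2) :
    z.valMinAbs = m := by
  rw [ZMod.valMinAbs_spec]
  refine ⟨h.symm, ?_⟩
  rw [Set.mem_Ioc]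
  constructor
  · push_cast; linarith
  · push_cast; linarith

theorem int_zero {m : ℤ} (h : (m : ZMod 5) = 0) (h1 : -4 ≤ m) (h2 : m ≤ 4) : m = 0 := by
  rw [ZMod.intCast_zmod_eq_zero_iff_dvd] at h
  omega

variable {b} {P : V → Prop}

theorem tri_anti (hb : ∀ x y, b x y = - b y x) (hP : FlatOn b P) {o u v : V} (ho : P o)
    (hu : P u) (hv : P v) : tri b o u v = - tri b o v u := by
  have h1 := small_lift (hP o u v ho hu hv)
  have h2 := small_lift (hP o v u ho hv hu)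
  have h3 : ((tri b o u v + tri b o v u : ℤ) : ZMod 5) = 0 := by
    push_cast
    simp only [tri, ZMod.coe_valMinAbs]
    rw [hb v o, hb u v, hb o u]
    ring
  have h4 := int_zero h3 (by simp only [tri]; linarith [h1.1, h2.1])
    (by simp only [tri]; linarith [h1.2, h2.2])
  linarith

theorem tri_cocycle (hb : ∀ x y, b x y = - b y x) (hP : FlatOn b P) {o p q r : V} (ho : P o)
    (hp : P p) (hq : P q) (hr : P r) :
    tri b p q r = tri b o p q + tri b o q r + tri b o r p := by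
  have h1 := small_lift (hP p q r hp hq hr)
  have h2 := small_lift (hP o p q ho hp hq)
  have h3 := small_lift (hP o q r ho hq hr)
  have h4 := small_lift (hP o r p ho hr hp)
  have h5 : ((tri b o p q + tri b o q r + tri b o r p - tri b p q r : ℤ) : ZMod 5) = 0 := by
    push_cast
    simp only [tri, ZMod.coe_valMinAbs]
    rw [hb q o, hb r o, hb p o]
    ring
  have h6 := int_zero h5 (by simp only [tri]; linarith [h1.2, h2.1, h3.1, h4.1])
    (by simp only [tri]; linarith [h1.1, h2.2, h3.2, h4.2])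
  linarith

theorem quad_eq (hb : ∀ x y, b x y = - b y x) (hP : FlatOn b P) {o p q r s : V} (ho : P o)
    (hp : P p) (hq : P q) (hr : P r) (hs : P s) :
    quad b p q r s = tri b o p q + tri b o q r + tri b o r s + tri b o s p := by
  have h1 := small_lift (hP p q r hp hq hr)
  have h2 := small_lift (hP p r s hp hr hs)
  have h3 : quad b p q r s = tri b p q r + tri b p r s := by
    apply lift_eq
    · push_cast
      simp only [tri, ZMod.coe_valMinAbs]
      rw [hb p r]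
      ring
    · simp only [tri]; linarith [h1.1, h2.1]
    · simp only [tri]; linarith [h1.2, h2.2]
  rw [h3, tri_cocycle hb hP ho hp hq hr, tri_cocycle hb hP ho hp hr hs,
    tri_anti hb hP ho hr hp]
  ring

/-- The total flux through the surface of a cube is zero. -/
theorem cube (hb : ∀ x y, b x y = - b y x) (hP : FlatOn b P)
    {a₀₀₀ a₀₀₁ a₀₁₀ a₀₁₁ a₁₀₀ a₁₀₁ a₁₁₀ a₁₁₁ : V}
    (h₀₀₀ : P a₀₀₀) (h₀₀₁ : P a₀₀₁) (h₀₁₀ : P a₀₁₀) (h₀₁₁ : P a₀₁₁)
    (h₁₀₀ : P a₁₀₀) (h₁₀₁ : P a₁₀₁) (h₁₁₀ : P a₁₁₀) (h₁₁₁ : P a₁₁₁) :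
    quad b a₁₀₀ a₁₁₀ a₁₁₁ a₁₀₁ - quad b a₀₀₀ a₀₁₀ a₀₁₁ a₀₀₁ =
      (quad b a₀₁₀ a₁₁₀ a₁₁₁ a₀₁₁ - quad b a₀₀₀ a₁₀₀ a₁₀₁ a₀₀₁) -
      (quad b a₀₀₁ a₁₀₁ a₁₁₁ a₀₁₁ - quad b a₀₀₀ a₁₀₀ a₁₁₀ a₀₁₀) := by
  have o := h₀₀₀
  rw [quad_eq hb hP o h₁₀₀ h₁₁₀ h₁₁₁ h₁₀₁, quad_eq hb hP o h₀₀₀ h₀₁₀ h₀₁₁ h₀₀₁,
    quad_eq hb hP o h₀₁₀ h₁₁₀ h₁₁₁ h₀₁₁, quad_eq hb hP o h₀₀₀ h₁₀₀ h₁₀₁ h₀₀₁,
    quad_eq hb hP o h₀₀₁ h₁₀₁ h₁₁₁ h₀₁₁, quad_eq hb hP o h₀₀₀ h₁₀₀ h₁₁₀ h₀₁₀]
  have e1 := tri_anti hb hP o h₀₁₀ h₁₁₀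
  have e2 := tri_anti hb hP o h₁₀₀ h₁₁₀
  have e3 := tri_anti hb hP o h₁₀₁ h₀₀₁
  have e4 := tri_anti hb hP o h₁₀₀ h₁₀₁
  have e5 := tri_anti hb hP o h₁₁₁ h₁₀₁
  have e6 := tri_anti hb hP o h₀₁₁ h₀₁₀
  have e7 := tri_anti hb hP o h₀₁₁ h₀₀₁
  have e8 := tri_anti hb hP o h₀₀₁ h₀₀₀
  have e9 := tri_anti hb hP o h₀₁₀ h₀₀₀
  linarith

/-- The total flux of a labelling of a grid, constant on the sides and on the top, is zero. -/
theorem grid (hb : ∀ x y, b x y = - b y x) (n : ℕ) (l : ℕ → ℕ → ℕ → V) (x₀ : V)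
    (hflat : ∀ t < n, ∀ i < n, ∀ j < n, ∃ P : V → Prop, FlatOn b P ∧
      ∀ t' ∈ Set.Icc t (t + 1), ∀ i' ∈ Set.Icc i (i + 1), ∀ j' ∈ Set.Icc j (j + 1), P (l t' i' j'))
    (hside : ∀ t ≤ n, ∀ i ≤ n, ∀ j ≤ n, (i = 0 ∨ i = n ∨ j = 0 ∨ j = n ∨ t = n) →
      l t i j = x₀) :
    ∑ i ∈ Finset.range n, ∑ j ∈ Finset.range n,
      quad b (l 0 i j) (l 0 (i + 1) j) (l 0 (i + 1) (j + 1)) (l 0 i (j + 1)) = 0 := by
  have hq0 : quad b x₀ x₀ x₀ x₀ = 0 := by
    have : b x₀ x₀ = 0 := self_eq_zero (hb x₀ x₀)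
    simp [quad, this]
  set S : ℕ → ℤ := fun t => ∑ i ∈ Finset.range n, ∑ j ∈ Finset.range n,
      quad b (l t i j) (l t (i + 1) j) (l t (i + 1) (j + 1)) (l t i (j + 1)) with hS
  have hstep : ∀ t < n, S (t + 1) = S t := by
    intro t ht
    set A : ℕ → ℕ → ℤ := fun i j =>
      quad b (l t i j) (l (t + 1) i j) (l (t + 1) i (j + 1)) (l t i (j + 1)) with hA
    set B : ℕ → ℕ → ℤ := fun i j =>
      quad b (l t i j) (l (t + 1) i j) (l (t + 1) (i + 1) j) (l t (i + 1) j) with hB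
    have hcube : ∀ i ∈ Finset.range n, ∀ j ∈ Finset.range n,
        quad b (l (t + 1) i j) (l (t + 1) (i + 1) j) (l (t + 1) (i + 1) (j + 1))
            (l (t + 1) i (j + 1)) -
          quad b (l t i j) (l t (i + 1) j) (l t (i + 1) (j + 1)) (l t i (j + 1)) =
        (A (i + 1) j - A i j) - (B i (j + 1) - B i j) := by
      intro i hi j hj
      rw [Finset.mem_range] at hi hj
      obtain ⟨P, hP, hl⟩ := hflat t ht i hi j hj
      have m0 : ∀ k : ℕ, k ∈ Set.Icc k (k + 1) := fun k => ⟨le_rfl, Nat.le_succ k⟩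
      have m1 : ∀ k : ℕ, k + 1 ∈ Set.Icc k (k + 1) := fun k => ⟨Nat.le_succ k, le_rfl⟩
      exact cube hb hP (hl t (m0 t) i (m0 i) j (m0 j)) (hl t (m0 t) i (m0 i) (j + 1) (m1 j))
        (hl t (m0 t) (i + 1) (m1 i) j (m0 j)) (hl t (m0 t) (i + 1) (m1 i) (j + 1) (m1 j))
        (hl (t + 1) (m1 t) i (m0 i) j (m0 j)) (hl (t + 1) (m1 t) i (m0 i) (j + 1) (m1 j))
        (hl (t + 1) (m1 t) (i + 1) (m1 i) j (m0 j))
        (hl (t + 1) (m1 t) (i + 1) (m1 i) (j + 1) (m1 j))
    have h1 : S (t + 1) - S t = ∑ i ∈ Finset.range n, ∑ j ∈ Finset.range n,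
        ((A (i + 1) j - A i j) - (B i (j + 1) - B i j)) := by
      simp only [hS]
      rw [← Finset.sum_sub_distrib]
      apply Finset.sum_congr rfl
      intro i hi
      rw [← Finset.sum_sub_distrib]
      apply Finset.sum_congr rfl
      intro j hj
      exact hcube i hi j hj
    have h2 : ∑ i ∈ Finset.range n, ∑ j ∈ Finset.range n, (A (i + 1) j - A i j) = 0 := by
      rw [Finset.sum_comm]
      apply Finset.sum_eq_zero
      intro j hj
      rw [Finset.mem_range] at hj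
      rw [Finset.sum_range_sub (fun i => A i j)]
      simp only [hA]
      rw [hside t ht.le n le_rfl j hj.le (by simp), hside (t + 1) ht n le_rfl j hj.le (by simp),
        hside (t + 1) ht n le_rfl (j + 1) hj (by simp), hside t ht.le n le_rfl (j + 1) hj (by simp),
        hside t ht.le 0 (Nat.zero_le _) j hj.le (by simp),
        hside (t + 1) ht 0 (Nat.zero_le _) j hj.le (by simp),
        hside (t + 1) ht 0 (Nat.zero_le _) (j + 1) hj (by simp),
        hside t ht.le 0 (Nat.zero_le _) (j + 1) hj (by simp)]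
      ring
    have h3 : ∑ i ∈ Finset.range n, ∑ j ∈ Finset.range n, (B i (j + 1) - B i j) = 0 := by
      apply Finset.sum_eq_zero
      intro i hi
      rw [Finset.mem_range] at hi
      rw [Finset.sum_range_sub (fun j => B i j)]
      simp only [hB]
      rw [hside t ht.le i hi.le n le_rfl (by simp), hside (t + 1) ht i hi.le n le_rfl (by simp),
        hside (t + 1) ht (i + 1) hi n le_rfl (by simp), hside t ht.le (i + 1) hi n le_rfl (by simp),
        hside t ht.le i hi.le 0 (Nat.zero_le _) (by simp),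
        hside (t + 1) ht i hi.le 0 (Nat.zero_le _) (by simp),
        hside (t + 1) ht (i + 1) hi 0 (Nat.zero_le _) (by simp),
        hside t ht.le (i + 1) hi 0 (Nat.zero_le _) (by simp)]
      ring
    simp only [Finset.sum_sub_distrib] at h1 h2 h3
    linarith
  have hall : ∀ t ≤ n, S t = S 0 := by
    intro t
    induction t with
    | zero => intro _; rfl
    | succ t ih => intro ht; rw [hstep t ht, ih (by omega)]
  have hn : S n = 0 := by
    simp only [hS]
    apply Finset.sum_eq_zero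
    intro i hi
    apply Finset.sum_eq_zero
    intro j hj
    rw [Finset.mem_range] at hi hj
    rw [hside n le_rfl i hi.le j hj.le (by simp), hside n le_rfl (i + 1) hi j hj.le (by simp),
      hside n le_rfl (i + 1) hi (j + 1) hj (by simp), hside n le_rfl i hi.le (j + 1) hj (by simp)]
    exact hq0
  have := hall n le_rfl
  rw [hn] at this
  exact this.symm

/-- Summation along a step function. -/
theorem step_sum (G : ℕ → ℕ → ℤ) (hG : ∀ m, G m m = 0) (r : ℕ → ℕ) (n : ℕ)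
    (hr : ∀ i, r (i + 1) = r i ∨ r (i + 1) = r i + 1) (r0 : r 0 = 0) :
    ∑ i ∈ Finset.range n, G (r i) (r (i + 1)) = ∑ m ∈ Finset.range (r n), G m (m + 1) := by
  induction n with
  | zero => simp [r0]
  | succ n ih =>
    rw [Finset.sum_range_succ, ih]
    rcases hr n with h | h
    · rw [h, hG, add_zero]
    · rw [h, Finset.sum_range_succ]

/-- The flux of a labelling of a coarse grid is the flux of a finer labelling. -/
theorem coarse (hb : ∀ x y, b x y = - b y x) (L : ℕ → ℕ → V) (r : ℕ → ℕ) (n : ℕ)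
    (hr : ∀ i, r (i + 1) = r i ∨ r (i + 1) = r i + 1) (r0 : r 0 = 0) :
    ∑ i ∈ Finset.range n, ∑ j ∈ Finset.range n,
      quad b (L (r i) (r j)) (L (r (i + 1)) (r j)) (L (r (i + 1)) (r (j + 1)))
        (L (r i) (r (j + 1))) =
    ∑ k ∈ Finset.range (r n), ∑ m ∈ Finset.range (r n),
      quad b (L k m) (L (k + 1) m) (L (k + 1) (m + 1)) (L k (m + 1)) := by
  have h0 : ∀ x, b x x = 0 := fun x => self_eq_zero (hb x x)
  have q1 : ∀ x y, quad b x y y x = 0 := by
    intro x y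
    have : b x y + b y y + b y x + b x x = 0 := by rw [h0, h0, hb y x]; ring
    simp [quad, this]
  have q2 : ∀ x y, quad b x x y y = 0 := by
    intro x y
    have : b x x + b x y + b y y + b y x = 0 := by rw [h0, h0, hb y x]; ring
    simp [quad, this]
  have h1 : ∀ i, ∑ j ∈ Finset.range n,
      quad b (L (r i) (r j)) (L (r (i + 1)) (r j)) (L (r (i + 1)) (r (j + 1)))
        (L (r i) (r (j + 1))) =
      ∑ m ∈ Finset.range (r n), quad b (L (r i) m) (L (r (i + 1)) m) (L (r (i + 1)) (m + 1))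
        (L (r i) (m + 1)) := fun i =>
    step_sum (fun m m' => quad b (L (r i) m) (L (r (i + 1)) m) (L (r (i + 1)) m') (L (r i) m'))
      (fun m => q1 _ _) r n hr r0
  rw [Finset.sum_congr rfl fun i _ => h1 i]
  exact step_sum (fun k k' => ∑ m ∈ Finset.range (r n),
    quad b (L k m) (L k' m) (L k' (m + 1)) (L k (m + 1)))
    (fun k => Finset.sum_eq_zero fun m _ => q2 _ _) r n hr r0

end

end Pool.Agent.Helper5_Mobility
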