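import Mathlib
import Pool.Agent.Helper5_Mobility.Defs
import Pool.Agent.Helper5_Mobility.Flux

/-!
# A two-dimensional loop in the neighbourhood complex
-/

open scoped unitInterval

namespace Pool.Agent.Helper5_Mobility

/-- The tent function at the integer `m`. -/
noncomputable def tent (m : ℕ) (s : ℝ) : ℝ := max 0 (1 - |s - m|)

theorem tent_nonneg (m : ℕ) (s : ℝ) : 0 ≤ tent m s := le_max_left _ _

theorem tent_continuous (m : ℕ) : Continuous (tent m) := by
  unfold tent
  fun_prop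

theorem tent_ne {m : ℕ} {s : ℝ} (h : tent m s ≠ 0) : |s - m| < 1 := by
  by_contra! hcon
  apply h
  unfold tent
  rw [max_eq_left]
  linarith

theorem tent_cell {s : ℝ} (h0 : 0 ≤ s) (h4 : s ≤ 4) :
    ∃ a : ℕ, a < 4 ∧ (a : ℝ) ≤ s ∧ s ≤ a + 1 := by
  by_cases h1 : s ≤ 1
  · exact ⟨0, by norm_num, by push_cast; linarith, by push_cast; linarith⟩
  · by_cases h2 : s ≤ 2
    · exact ⟨1, by norm_num, by push_cast; linarith, by push_cast; linarith⟩
    · by_cases h3 : s ≤ 3
      · exact ⟨2, by norm_num, by push_cast; linarith, by push_cast; linarith⟩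
      · exact ⟨3, by norm_num, by push_cast; linarith, by push_cast; linarith⟩

theorem tent_support {s : ℝ} {a m : ℕ} (h1 : (a : ℝ) ≤ s) (h2 : s ≤ a + 1) (h : tent m s ≠ 0) :
    m = a ∨ m = a + 1 := by
  have h3 := abs_lt.1 (tent_ne h)
  have h4 : (m : ℝ) < (a + 2 : ℕ) := by push_cast; linarith [h3.1]
  have h5 : (a : ℝ) < (m + 1 : ℕ) := by push_cast; linarith [h3.2]
  rw [Nat.cast_lt] at h4 h5
  omega

theorem tent_left {s : ℝ} {a : ℕ} (h1 : (a : ℝ) ≤ s) (h2 : s ≤ a + 1) : tent a s = 1 - (s - a) := by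
  unfold tent
  rw [abs_of_nonneg (by linarith), max_eq_right (by linarith)]

theorem tent_right {s : ℝ} {a : ℕ} (h1 : (a : ℝ) ≤ s) (h2 : s ≤ a + 1) :
    tent (a + 1) s = s - a := by
  unfold tent
  push_cast
  rw [abs_of_nonpos (by linarith), max_eq_right (by linarith)]
  ring

theorem tent_sum {s : ℝ} (h0 : 0 ≤ s) (h4 : s ≤ 4) : ∑ m ∈ Finset.range 5, tent m s = 1 := by
  obtain ⟨a, ha, h1, h2⟩ := tent_cell h0 h4
  have h3 : ∑ m ∈ Finset.range 5, tent m s = ∑ m ∈ ({a, a + 1} : Finset ℕ), tent m s := by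
    symm
    apply Finset.sum_subset
    · intro m hm
      simp only [Finset.mem_insert, Finset.mem_singleton] at hm
      rw [Finset.mem_range]
      omega
    · intro m _ hm
      by_contra h
      apply hm
      simp only [Finset.mem_insert, Finset.mem_singleton]
      exact tent_support h1 h2 h
  rw [h3, Finset.sum_pair (by omega), tent_left h1 h2, tent_right h1 h2]
  ring

section

variable {V : Type} [Fintype V] [DecidableEq V] (H : SimpleGraph V)

/-- The weights of the loop. -/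
noncomputable def wt (L : ℕ → ℕ → V) (p : ℝ × ℝ) (v : V) : ℝ :=
  ∑ a ∈ Finset.range 5, ∑ c ∈ Finset.range 5, if L a c = v then tent a p.1 * tent c p.2 else 0

omit [Fintype V] in
theorem wt_nonneg (L : ℕ → ℕ → V) (p : ℝ × ℝ) (v : V) : 0 ≤ wt L p v := by
  unfold wt
  apply Finset.sum_nonneg
  intro a _
  apply Finset.sum_nonneg
  intro c _
  split_ifs
  · exact mul_nonneg (tent_nonneg _ _) (tent_nonneg _ _)
  · exact le_rfl

theorem wt_sum (L : ℕ → ℕ → V) {p : ℝ × ℝ} (h1 : 0 ≤ p.1) (h2 : p.1 ≤ 4) (h3 : 0 ≤ p.2)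
    (h4 : p.2 ≤ 4) : ∑ v, wt L p v = 1 := by
  unfold wt
  rw [Finset.sum_comm]
  have : ∀ a ∈ Finset.range 5, (∑ v : V, ∑ c ∈ Finset.range 5,
      if L a c = v then tent a p.1 * tent c p.2 else 0) = tent a p.1 := by
    intro a _
    rw [Finset.sum_comm]
    have : ∀ c ∈ Finset.range 5, (∑ v : V, if L a c = v then tent a p.1 * tent c p.2 else 0) =
        tent a p.1 * tent c p.2 := by
      intro c _
      rw [Finset.sum_ite_eq Finset.univ (L a c) fun _ => tent a p.1 * tent c p.2]
      simp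
    rw [Finset.sum_congr rfl this, ← Finset.mul_sum, tent_sum h3 h4, mul_one]
  rw [Finset.sum_congr rfl this, tent_sum h1 h2]

omit [Fintype V] in
theorem wt_ne {L : ℕ → ℕ → V} {p : ℝ × ℝ} {v : V} (h : wt L p v ≠ 0) :
    ∃ a c, L a c = v ∧ tent a p.1 ≠ 0 ∧ tent c p.2 ≠ 0 := by
  by_contra! hcon
  apply h
  unfold wt
  apply Finset.sum_eq_zero
  intro a _
  apply Finset.sum_eq_zero
  intro c _
  split_ifs with hv
  · by_cases ha : tent a p.1 = 0
    · rw [ha, zero_mul]
    · rw [hcon a c hv ha, mul_zero]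
  · rfl

omit [Fintype V] in
theorem wt_ge (L : ℕ → ℕ → V) (p : ℝ × ℝ) {a c : ℕ} (ha : a < 5) (hc : c < 5) :
    tent a p.1 * tent c p.2 ≤ wt L p (L a c) := by
  unfold wt
  have h0 : ∀ a' c', 0 ≤ (if L a' c' = L a c then tent a' p.1 * tent c' p.2 else 0) := by
    intro a' c'
    split_ifs
    · exact mul_nonneg (tent_nonneg _ _) (tent_nonneg _ _)
    · exact le_rfl
  calc tent a p.1 * tent c p.2 = (if L a c = L a c then tent a p.1 * tent c p.2 else 0) := by
        rw [if_pos rfl]
    _ ≤ ∑ c' ∈ Finset.range 5, if L a c' = L a c then tent a p.1 * tent c' p.2 else 0 :=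
        Finset.single_le_sum (f := fun c' => if L a c' = L a c then tent a p.1 * tent c' p.2 else 0)
          (fun c' _ => h0 a c') (Finset.mem_range.2 hc)
    _ ≤ _ := Finset.single_le_sum (f := fun a' => ∑ c' ∈ Finset.range 5,
          if L a' c' = L a c then tent a' p.1 * tent c' p.2 else 0)
          (fun a' _ => Finset.sum_nonneg fun c' _ => h0 a' c') (Finset.mem_range.2 ha)

/-- Labellings of the `4 × 4` grid, compatible with the graph and constant on the boundary. -/
structure Lab (L : ℕ → ℕ → V) (x₀ : V) : Prop where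
  cell : ∀ a < 4, ∀ c < 4, ∃ u, H.Adj u (L a c) ∧ H.Adj u (L (a + 1) c) ∧
    H.Adj u (L a (c + 1)) ∧ H.Adj u (L (a + 1) (c + 1))
  bd : ∀ a ≤ 4, ∀ c ≤ 4, (a = 0 ∨ a = 4 ∨ c = 0 ∨ c = 4) → L a c = x₀

variable {H}

omit [Fintype V] in
theorem wt_adj {L : ℕ → ℕ → V} {x₀ : V} (hL : Lab H L x₀) {p : ℝ × ℝ} (h1 : 0 ≤ p.1)
    (h2 : p.1 ≤ 4) (h3 : 0 ≤ p.2) (h4 : p.2 ≤ 4) : ∃ u, ∀ v, wt L p v ≠ 0 → H.Adj u v := by
  obtain ⟨a, ha, ha1, ha2⟩ := tent_cell h1 h2
  obtain ⟨c, hc, hc1, hc2⟩ := tent_cell h3 h4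
  obtain ⟨u, hu1, hu2, hu3, hu4⟩ := hL.cell a ha c hc
  refine ⟨u, fun v hv => ?_⟩
  obtain ⟨a', c', hv', ha', hc'⟩ := wt_ne hv
  rcases tent_support ha1 ha2 ha' with rfl | rfl <;> rcases tent_support hc1 hc2 hc' with rfl | rfl
  · rw [← hv']; exact hu1
  · rw [← hv']; exact hu3
  · rw [← hv']; exact hu2
  · rw [← hv']; exact hu4

/-- The coordinates of a point of the square, scaled by `4`. -/
noncomputable def co (p : Fin 2 → I) : ℝ × ℝ := (4 * (p 0 : ℝ), 4 * (p 1 : ℝ))

theorem co_bounds (p : Fin 2 → I) :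
    0 ≤ (co p).1 ∧ (co p).1 ≤ 4 ∧ 0 ≤ (co p).2 ∧ (co p).2 ≤ 4 := by
  have h1 := (p 0).2
  have h2 := (p 1).2
  rw [Set.mem_Icc] at h1 h2
  simp only [co]
  refine ⟨by linarith [h1.1], by linarith [h1.2], by linarith [h2.1], by linarith [h2.2]⟩

/-- The loop as a map to the neighbourhood complex. -/
noncomputable def loopFun {L : ℕ → ℕ → V} {x₀ : V} (hL : Lab H L x₀) (p : Fin 2 → I) :
    NComplex H :=
  ⟨wt L (co p), wt_nonneg L (co p), by
    obtain ⟨h1, h2, h3, h4⟩ := co_bounds p
    exact wt_sum L h1 h2 h3 h4, by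
    obtain ⟨h1, h2, h3, h4⟩ := co_bounds p
    exact wt_adj hL h1 h2 h3 h4⟩

theorem loopFun_continuous {L : ℕ → ℕ → V} {x₀ : V} (hL : Lab H L x₀) :
    Continuous (loopFun hL) := by
  apply Continuous.subtype_mk
  apply continuous_pi
  intro v
  unfold wt co
  apply continuous_finsetSum
  intro a _
  apply continuous_finsetSum
  intro c _
  split_ifs
  · have h1 := tent_continuous a
    have h2 := tent_continuous c
    have h3 : Continuous fun p : Fin 2 → I => tent a (4 * (p 0 : ℝ)) :=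
      h1.comp (by fun_prop)
    have h4 : Continuous fun p : Fin 2 → I => tent c (4 * (p 1 : ℝ)) :=
      h2.comp (by fun_prop)
    exact h3.mul h4
  · exact continuous_const

/-- The vertex `x₀` as a point of the neighbourhood complex. -/
noncomputable def pnt (x₀ : V) (h : ∃ u, H.Adj u x₀) : NComplex H :=
  ⟨Pi.single x₀ 1, fun v => by
    by_cases hv : v = x₀
    · rw [hv, Pi.single_eq_same]; exact zero_le_one
    · rw [Pi.single_eq_of_ne hv], by
    rw [Finset.sum_pi_single']; simp, by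
    obtain ⟨u, hu⟩ := h
    refine ⟨u, fun v hv => ?_⟩
    by_cases hvx : v = x₀
    · rw [hvx]; exact hu
    · rw [Pi.single_eq_of_ne hvx] at hv
      exact absurd rfl hv⟩

omit [DecidableEq V] in
theorem eq_of_support [DecidableEq V] {w : NComplex H} {x₀ : V} (h : ∃ u, H.Adj u x₀)
    (hw : ∀ v, w.1 v ≠ 0 → v = x₀) : w = pnt x₀ h := by
  apply Subtype.ext
  have h0 : ∀ v, v ≠ x₀ → w.1 v = 0 := by
    intro v hv
    by_contra h'
    exact hv (hw v h')
  have h1 : w.1 x₀ = 1 := by
    have := w.2.2.1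
    rwa [Finset.sum_eq_single x₀ (fun v _ hv => h0 v hv) (fun h => absurd (Finset.mem_univ _) h)]
      at this
  funext v
  change w.1 v = (Pi.single x₀ 1 : V → ℝ) v
  by_cases hv : v = x₀
  · rw [hv, h1, Pi.single_eq_same]
  · rw [h0 v hv, Pi.single_eq_of_ne hv]

omit [Fintype V] [DecidableEq V] in
theorem Lab.ex {L : ℕ → ℕ → V} {x₀ : V} (hL : Lab H L x₀) : ∃ u, H.Adj u x₀ := by
  obtain ⟨u, hu, _⟩ := hL.cell 0 (by norm_num) 0 (by norm_num)
  rw [hL.bd 0 (by norm_num) 0 (by norm_num) (by simp)] at hu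
  exact ⟨u, hu⟩

theorem tent_zero {m : ℕ} (h : tent m 0 ≠ 0) : m = 0 := by
  rcases tent_support (s := 0) (a := 0) (by simp) (by simp) h with h' | h'
  · exact h'
  · exfalso
    apply h
    rw [h', tent_right (a := 0) (by simp) (by simp)]
    simp

theorem tent_four {m : ℕ} (h : tent m 4 ≠ 0) : m = 4 := by
  rcases tent_support (s := 4) (a := 4) (by norm_num) (by norm_num) h with h' | h'
  · exact h'
  · exfalso
    apply h
    rw [h', tent_right (a := 4) (by norm_num) (by norm_num)]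
    norm_num

theorem loopFun_boundary {L : ℕ → ℕ → V} {x₀ : V} (hL : Lab H L x₀) {p : Fin 2 → I}
    (hp : p ∈ Cube.boundary (Fin 2)) : loopFun hL p = pnt x₀ hL.ex := by
  apply eq_of_support
  intro v hv
  obtain ⟨a, c, hv', ha, hc⟩ := wt_ne hv
  obtain ⟨h1, h2, h3, h4⟩ := co_bounds p
  obtain ⟨a', ha', ha1, ha2⟩ := tent_cell h1 h2
  obtain ⟨c', hc', hc1, hc2⟩ := tent_cell h3 h4
  have ha4 : a ≤ 4 := by
    rcases tent_support ha1 ha2 ha with h | h <;> omega
  have hc4 : c ≤ 4 := by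
    rcases tent_support hc1 hc2 hc with h | h <;> omega
  rw [← hv']
  apply hL.bd a ha4 c hc4
  obtain ⟨i, hi⟩ := hp
  fin_cases i
  · rcases hi with hi | hi
    · left
      apply tent_zero
      have : (co p).1 = 0 := by
        simp only [co]
        have : p 0 = 0 := hi
        rw [this]; simp
      rwa [this] at ha
    · right; left
      apply tent_four
      have : (co p).1 = 4 := by
        simp only [co]
        have : p 0 = 1 := hi
        rw [this]; simp
      rwa [this] at ha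
  · rcases hi with hi | hi
    · right; right; left
      apply tent_zero
      have : (co p).2 = 0 := by
        simp only [co]
        have : p 1 = 0 := hi
        rw [this]; simp
      rwa [this] at hc
    · right; right; right
      apply tent_four
      have : (co p).2 = 4 := by
        simp only [co]
        have : p 1 = 1 := hi
        rw [this]; simp
      rwa [this] at hc

/-- The loop. -/
noncomputable def theLoop {L : ℕ → ℕ → V} {x₀ : V} (hL : Lab H L x₀) :
    GenLoop (Fin 2) (NComplex H) (pnt x₀ hL.ex) :=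
  ⟨⟨loopFun hL, loopFun_continuous hL⟩, fun _ hy => loopFun_boundary hL hy⟩

/-- The grid points of the unit interval. -/
noncomputable def gp (n i : ℕ) : I := Set.projIcc (0 : ℝ) 1 zero_le_one ((i : ℝ) / n)

theorem gp_dist {n i i' : ℕ} (h : i' ∈ Set.Icc i (i + 1)) : dist (gp n i') (gp n i) ≤ 1 / n := by
  have h1 := (LipschitzWith.projIcc (zero_le_one (α := ℝ))).dist_le_mul ((i' : ℝ) / n) ((i : ℝ) / n)
  rw [NNReal.coe_one, one_mul] at h1
  refine h1.trans ?_
  rw [Real.dist_eq, ← sub_div, abs_div]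
  rw [Set.mem_Icc] at h
  have h2 : |(i' : ℝ) - i| ≤ 1 := by
    have e1 : (i : ℝ) ≤ i' := by exact_mod_cast h.1
    have e2 : (i' : ℝ) ≤ i + 1 := by exact_mod_cast h.2
    rw [abs_le]
    constructor <;> linarith
  rw [abs_of_nonneg (Nat.cast_nonneg n : (0 : ℝ) ≤ n)]
  exact div_le_div_of_nonneg_right h2 (Nat.cast_nonneg n)

theorem gp_val {n i : ℕ} (h : i ≤ n) (hn : 0 < n) : (gp n i : ℝ) = (i : ℝ) / n := by
  unfold gp
  rw [Set.projIcc_of_mem]
  have hn' : (0 : ℝ) < n := by exact_mod_cast hn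
  have h' : (i : ℝ) ≤ n := by exact_mod_cast h
  exact ⟨by positivity, by rw [div_le_one hn']; exact h'⟩

theorem gp_zero (n : ℕ) : gp n 0 = 0 := by
  unfold gp
  rw [Nat.cast_zero, zero_div]
  exact Set.projIcc_left (zero_le_one (α := ℝ))

theorem gp_one {n : ℕ} (hn : 0 < n) : gp n n = 1 := by
  unfold gp
  rw [div_self (by exact_mod_cast hn.ne')]
  exact Set.projIcc_right (zero_le_one (α := ℝ))

/-- The grid points of the cube. -/
noncomputable def gpt (n t i j : ℕ) : I × (Fin 2 → I) := (gp n t, ![gp n i, gp n j])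

theorem gpt_dist {n t i j t' i' j' : ℕ} (ht : t' ∈ Set.Icc t (t + 1))
    (hi : i' ∈ Set.Icc i (i + 1)) (hj : j' ∈ Set.Icc j (j + 1)) :
    dist (gpt n t' i' j') (gpt n t i j) ≤ 1 / n := by
  rw [Prod.dist_eq]
  apply max_le (gp_dist ht)
  rw [dist_pi_le_iff (by positivity)]
  intro k
  fin_cases k
  · exact gp_dist hi
  · exact gp_dist hj

/-- Rounding. -/
def rnd (k i : ℕ) : ℕ := (i + k) / (2 * k)

theorem rnd_step {k : ℕ} (hk : 0 < k) (i : ℕ) : rnd k (i + 1) = rnd k i ∨ rnd k (i + 1) = rnd k i + 1 := by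
  unfold rnd
  have : i + 1 + k = (i + k) + 1 := by ring
  rw [this, Nat.succ_div]
  split_ifs
  · exact Or.inr rfl
  · exact Or.inl rfl

theorem rnd_zero {k : ℕ} (hk : 0 < k) : rnd k 0 = 0 := by
  unfold rnd
  exact Nat.div_eq_of_lt (by omega)

theorem rnd_last {k : ℕ} (hk : 0 < k) : rnd k (8 * k) = 4 := by
  unfold rnd
  rw [Nat.div_eq_iff (by omega)]
  constructor
  · omega
  · omega

theorem rnd_le {k i : ℕ} (hk : 0 < k) (hi : i ≤ 8 * k) : rnd k i ≤ 4 := by
  rw [← rnd_last hk]
  unfold rnd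
  exact Nat.div_le_div_right (by omega)

theorem rnd_tent {k i : ℕ} (hk : 0 < k) (hi : i ≤ 8 * k) :
    1 / 2 ≤ tent (rnd k i) (4 * (gp (8 * k) i : ℝ)) := by
  rw [gp_val hi (by omega)]
  have hk' : (0 : ℝ) < k := by exact_mod_cast hk
  have h1 : 2 * k * rnd k i ≤ i + k := Nat.mul_div_le _ _
  have h2 : i + k < 2 * k * rnd k i + 2 * k := by
    have := Nat.lt_mul_div_succ (i + k) (show 0 < 2 * k by omega)
    rw [mul_add, mul_one] at this
    exact this
  have h1' : 2 * (k : ℝ) * rnd k i ≤ i + k := by exact_mod_cast h1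
  have h2' : (i : ℝ) + k < 2 * k * rnd k i + 2 * k := by exact_mod_cast h2
  unfold tent
  apply le_max_of_le_right
  have e : 4 * ((i : ℝ) / ((8 * k : ℕ) : ℝ)) = i / (2 * k) := by
    push_cast
    field_simp
    ring
  rw [e]
  have h3 : |(i : ℝ) / (2 * k) - rnd k i| ≤ 1 / 2 := by
    have e2 : (i : ℝ) / (2 * k) - rnd k i = (i - 2 * k * rnd k i) / (2 * k) := by
      field_simp
    rw [e2, abs_div, abs_of_pos (show (0 : ℝ) < 2 * k by positivity), div_le_iff₀ (by positivity),
      abs_le]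
    constructor <;> linarith
  linarith

/-- **The flux criterion.** If the neighbourhood complex is `2`-connected then the flux of each
labelling of the `4 × 4` grid is zero. -/
theorem flux_zero {b : V → V → ZMod 5} (hb : ∀ x y, b x y = - b y x)
    (hflat : ∀ u, FlatOn b (H.Adj u)) {L : ℕ → ℕ → V} {x₀ : V} (hL : Lab H L x₀)
    (h2 : ∀ x : NComplex H, Subsingleton (HomotopyGroup.Pi 2 (NComplex H) x)) :
    ∑ a ∈ Finset.range 4, ∑ c ∈ Finset.range 4,
      quad b (L a c) (L (a + 1) c) (L (a + 1) (c + 1)) (L a (c + 1)) = 0 := by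
  -- the homotopy
  have hsub := h2 (pnt x₀ hL.ex)
  have heq : (Quotient.mk _ (theLoop hL) : HomotopyGroup.Pi 2 (NComplex H) (pnt x₀ hL.ex)) =
      Quotient.mk _ GenLoop.const := @Subsingleton.elim _ hsub _ _
  obtain ⟨G⟩ : GenLoop.Homotopic (theLoop hL) GenLoop.const := Quotient.exact heq
  have hG0 : ∀ p, G (0, p) = loopFun hL p := fun p => G.apply_zero p
  have hG1 : ∀ p, G (1, p) = pnt x₀ hL.ex := fun p => G.apply_one p
  have hGb : ∀ t, ∀ p ∈ Cube.boundary (Fin 2), G (t, p) = pnt x₀ hL.ex := by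
    intro t p hp
    rw [G.eq_fst t hp]
    exact loopFun_boundary hL hp
  -- the weights
  set W : I × (Fin 2 → I) → V → ℝ := fun q => (G q).1 with hW
  have hWc : Continuous W := continuous_subtype_val.comp G.continuous
  have hVne : Nonempty V := ⟨x₀⟩
  have hcard : (0 : ℝ) < Fintype.card V := by exact_mod_cast Fintype.card_pos
  set δ : ℝ := min (1 / 4) (1 / Fintype.card V) with hδ
  have hδ0 : 0 < δ := lt_min (by norm_num) (by positivity)
  have huc := CompactSpace.uniformContinuous_of_continuous hWc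
  rw [Metric.uniformContinuous_iff] at huc
  obtain ⟨ε, hε, hWε⟩ := huc δ hδ0
  obtain ⟨m, hm⟩ := exists_nat_one_div_lt hε
  set k := m + 1 with hk
  have hk0 : 0 < k := Nat.succ_pos m
  set n := 8 * k with hn
  have hn0 : 0 < n := by omega
  have hnε : (1 : ℝ) / n < ε := by
    refine lt_of_le_of_lt ?_ hm
    apply one_div_le_one_div_of_le (by positivity)
    rw [hn, hk]
    push_cast
    have : (0 : ℝ) ≤ m := Nat.cast_nonneg m
    linarith
  -- the labels
  have hpntW : ∀ q, G q = pnt x₀ hL.ex → δ ≤ W q x₀ := by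
    intro q hq
    have : W q x₀ = 1 := by
      simp only [hW, hq]
      change (Pi.single x₀ 1 : V → ℝ) x₀ = 1
      rw [Pi.single_eq_same]
    rw [this]
    exact (min_le_left _ _).trans (by norm_num)
  have hlab : ∀ t i j, t ≤ n → i ≤ n → j ≤ n → ∃ v, δ ≤ W (gpt n t i j) v ∧
      ((i = 0 ∨ i = n ∨ j = 0 ∨ j = n ∨ t = n) → v = x₀) ∧ (t = 0 → v = L (rnd k i) (rnd k j)) := by
    intro t i j ht hi hj
    by_cases hside : i = 0 ∨ i = n ∨ j = 0 ∨ j = n ∨ t = n
    · refine ⟨x₀, ?_, fun _ => rfl, fun ht0 => ?_⟩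
      · apply hpntW
        have hbd : ∀ s : I × (Fin 2 → I), s.2 ∈ Cube.boundary (Fin 2) → G s = pnt x₀ hL.ex :=
          fun s hs => hGb s.1 s.2 hs
        rcases hside with h | h | h | h | h
        · apply hbd
          exact ⟨0, Or.inl (by rw [h]; exact gp_zero n)⟩
        · apply hbd
          exact ⟨0, Or.inr (by rw [h]; exact gp_one hn0)⟩
        · apply hbd
          exact ⟨1, Or.inl (by rw [h]; exact gp_zero n)⟩
        · apply hbd
          exact ⟨1, Or.inr (by rw [h]; exact gp_one hn0)⟩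
        · have : gpt n t i j = (1, (gpt n t i j).2) := by
            rw [h]
            simp only [gpt, gp_one hn0]
          rw [this]
          exact hG1 _
      · symm
        apply hL.bd _ (rnd_le hk0 hi) _ (rnd_le hk0 hj)
        rcases hside with h | h | h | h | h
        · left; rw [h]; exact rnd_zero hk0
        · right; left; rw [h]; exact rnd_last hk0
        · right; right; left; rw [h]; exact rnd_zero hk0
        · right; right; right; rw [h]; exact rnd_last hk0
        · omega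
    · by_cases ht0 : t = 0
      · refine ⟨L (rnd k i) (rnd k j), ?_, fun h => absurd h hside, fun _ => rfl⟩
        have h1 : W (gpt n t i j) = wt L (co (gpt n t i j).2) := by
          have : gpt n t i j = (0, (gpt n t i j).2) := by
            rw [ht0]
            simp only [gpt, gp_zero]
          rw [this]
          simp only [hW]
          rw [hG0]
          rfl
        rw [h1]
        refine le_trans ?_ (wt_ge L _ (Nat.lt_succ_of_le (rnd_le hk0 hi))
          (Nat.lt_succ_of_le (rnd_le hk0 hj)))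
        have e1 : 1 / 2 ≤ tent (rnd k i) (co (gpt n t i j).2).1 := rnd_tent hk0 hi
        have e2 : 1 / 2 ≤ tent (rnd k j) (co (gpt n t i j).2).2 := rnd_tent hk0 hj
        calc δ ≤ 1 / 4 := min_le_left _ _
          _ = 1 / 2 * (1 / 2) := by norm_num
          _ ≤ _ := mul_le_mul e1 e2 (by norm_num) (tent_nonneg _ _)
      · -- some vertex has a large weight
        have h1 : ∃ v, 1 / (Fintype.card V : ℝ) ≤ W (gpt n t i j) v := by
          by_contra! hcon
          have h3 : ∑ v, W (gpt n t i j) v = 1 := (G (gpt n t i j)).2.2.1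
          have h4 : ∑ v, W (gpt n t i j) v < ∑ v : V, 1 / (Fintype.card V : ℝ) :=
            Finset.sum_lt_sum_of_nonempty Finset.univ_nonempty fun v _ => hcon v
          rw [h3, Finset.sum_const, Finset.card_univ, nsmul_eq_mul, mul_one_div_cancel hcard.ne'] at h4
          exact lt_irrefl _ h4
        obtain ⟨v, hv⟩ := h1
        exact ⟨v, (min_le_right _ _).trans hv, fun h => absurd h hside, fun h => absurd h ht0⟩
  choose! l hl1 hl2 hl3 using hlab
  -- the flux of the fine labelling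
  have hgrid := grid (b := b) hb n l x₀ (by
    intro t ht i hi j hj
    obtain ⟨u, hu⟩ := (G (gpt n t i j)).2.2.2
    refine ⟨H.Adj u, hflat u, fun t' ht' i' hi' j' hj' => hu _ ?_⟩
    have hd := lt_of_le_of_lt (gpt_dist (n := n) ht' hi' hj') hnε
    have h3 := hWε hd
    have h4 : dist (W (gpt n t' i' j') (l t' i' j')) (W (gpt n t i j) (l t' i' j')) < δ :=
      lt_of_le_of_lt (dist_le_pi_dist _ _ _) h3
    rw [Set.mem_Icc] at ht' hi' hj'
    have h5 := hl1 t' i' j' (by omega) (by omega) (by omega)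
    rw [Real.dist_eq, abs_lt] at h4
    have h6 : 0 < W (gpt n t i j) (l t' i' j') := by linarith [h4.2]
    exact h6.ne') (by
    intro t ht i hi j hj h
    exact hl2 t i j ht hi hj h)
  have h0 : ∀ i ≤ n, ∀ j ≤ n, l 0 i j = L (rnd k i) (rnd k j) := fun i hi j hj =>
    hl3 0 i j (Nat.zero_le _) hi hj rfl
  have hfine : ∑ i ∈ Finset.range n, ∑ j ∈ Finset.range n,
      quad b (L (rnd k i) (rnd k j)) (L (rnd k (i + 1)) (rnd k j))
        (L (rnd k (i + 1)) (rnd k (j + 1))) (L (rnd k i) (rnd k (j + 1))) = 0 := by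
    rw [← hgrid]
    apply Finset.sum_congr rfl
    intro i hi
    apply Finset.sum_congr rfl
    intro j hj
    rw [Finset.mem_range] at hi hj
    rw [h0 i hi.le j hj.le, h0 (i + 1) hi j hj.le, h0 (i + 1) hi (j + 1) hj, h0 i hi.le (j + 1) hj]
  rw [coarse hb L (rnd k) n (rnd_step hk0) (rnd_zero hk0), hn, rnd_last hk0] at hfine
  exact hfine

end

end Pool.Agent.Helper5_Mobility
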