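import Mathlib
import Pool.Agent.Helper5_Mobility.Fields

/-!
# The symplectic space over `ℤ/5`
-/

namespace Pool.Agent.Helper5_Mobility

instance fact_prime_five : Fact (Nat.Prime 5) := ⟨by norm_num⟩

/-- The space of dimension `120` over `ℤ/5`. -/
abbrev Vec : Type := (Fin 60 → ZMod 5) × (Fin 60 → ZMod 5)

/-- The standard symplectic form. -/
def om (a b : Vec) : ZMod 5 := ∑ i, (a.1 i * b.2 i - a.2 i * b.1 i)

theorem om_anti (a b : Vec) : om a b = - om b a := by
  simp only [om, ← Finset.sum_neg_distrib]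
  exact Finset.sum_congr rfl fun i _ => by ring

theorem om_self (a : Vec) : om a a = 0 := self_eq_zero (om_anti a a)

theorem om_add_left (a b c : Vec) : om (a + b) c = om a c + om b c := by
  simp only [om, ← Finset.sum_add_distrib, Prod.fst_add, Prod.snd_add, Pi.add_apply]
  exact Finset.sum_congr rfl fun i _ => by ring

theorem om_smul_left (t : ZMod 5) (a c : Vec) : om (t • a) c = t * om a c := by
  simp only [om, Finset.mul_sum, Prod.smul_fst, Prod.smul_snd, Pi.smul_apply, smul_eq_mul]
  exact Finset.sum_congr rfl fun i _ => by ring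

theorem om_zero_left (c : Vec) : om 0 c = 0 := by simp [om]

theorem om_zero_right (c : Vec) : om c 0 = 0 := by simp [om]

theorem om_add_right (a b c : Vec) : om c (a + b) = om c a + om c b := by
  rw [om_anti c (a + b), om_add_left, om_anti c a, om_anti c b]; ring

/-- Each linear form is given by the symplectic form. -/
theorem exists_om_eq (f : Vec →ₗ[ZMod 5] ZMod 5) : ∃ v : Vec, ∀ b, om v b = f b := by
  refine ⟨(fun i => f (0, Pi.single i 1), fun i => - f (Pi.single i 1, 0)), fun b => ?_⟩
  have hb : b = ∑ i, b.1 i • ((Pi.single i 1, 0) : Vec) + ∑ i, b.2 i • ((0, Pi.single i 1) : Vec) := by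
    ext j
    · simp [Prod.fst_sum, Finset.sum_apply, Pi.single_apply]
    · simp [Prod.snd_sum, Finset.sum_apply, Pi.single_apply]
  conv_rhs => rw [hb]
  simp only [map_add, map_sum, map_smul, smul_eq_mul, om]
  rw [← Finset.sum_add_distrib]
  exact Finset.sum_congr rfl fun i _ => by ring

/-- Prescribing the values of the form on linearly independent vectors. -/
theorem exists_om_prescribed {ι : Type} {s : Set ι} {ψ : ι → Vec}
    (h : LinearIndepOn (ZMod 5) ψ s) (g : ι → ZMod 5) :
    ∃ v : Vec, ∀ z ∈ s, om v (ψ z) = g z := by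
  obtain ⟨f, hf⟩ := LinearMap.exists_extend (p := Submodule.span (ZMod 5) (Set.range fun z : s => ψ z))
    ((Module.Basis.span h).constr (ZMod 5) (fun z : s => g z))
  obtain ⟨v, hv⟩ := exists_om_eq f
  refine ⟨v, fun z hz => ?_⟩
  rw [hv]
  have h1 : (Module.Basis.span h) ⟨z, hz⟩ =
      (⟨ψ z, Submodule.subset_span ⟨⟨z, hz⟩, rfl⟩⟩ :
        Submodule.span (ZMod 5) (Set.range fun z : s => ψ z)) :=
    Module.Basis.span_apply h ⟨z, hz⟩
  have h2 := congrArg (fun F => F (⟨ψ z, Submodule.subset_span ⟨⟨z, hz⟩, rfl⟩⟩ :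
        Submodule.span (ZMod 5) (Set.range fun z : s => ψ z))) hf
  simp only [LinearMap.comp_apply, Submodule.subtype_apply] at h2
  rw [h2, ← h1, Module.Basis.constr_basis]

/-- Avoiding a small subspace. -/
theorem exists_om_avoid {ι : Type} (s : Finset ι) {ψ : ι → Vec} {g : ι → ZMod 5} {v₀ : Vec}
    (hv₀ : ∀ z ∈ s, om v₀ (ψ z) = g z) (x : Vec) (t : Finset ι) (hst : s.card + t.card < 120) :
    ∃ v : Vec, (∀ z ∈ s, om v (ψ z) = g z) ∧
      x + v ∉ Submodule.span (ZMod 5) (ψ '' (t : Set ι)) := by
  classical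
  let L : Vec →ₗ[ZMod 5] (s → ZMod 5) :=
    { toFun := fun v z => om v (ψ z)
      map_add' := fun a b => by funext z; simp [om_add_left]
      map_smul' := fun a b => by funext z; simp [om_smul_left] }
  by_contra! hcon
  have hker : LinearMap.ker L ≤ Submodule.span (ZMod 5) (ψ '' (t : Set ι)) := by
    intro k hk
    have hk' : ∀ z ∈ s, om k (ψ z) = 0 := fun z hz => congrFun (LinearMap.mem_ker.1 hk) ⟨z, hz⟩
    have h1 := hcon v₀ hv₀
    have h2 := hcon (v₀ + k) (fun z hz => by rw [om_add_left, hv₀ z hz, hk' z hz, add_zero])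
    have := Submodule.sub_mem _ h2 h1
    have e : x + (v₀ + k) - (x + v₀) = k := by abel
    rwa [e] at this
  have h1 := Submodule.finrank_mono hker
  have h2 : Module.finrank (ZMod 5) (Submodule.span (ZMod 5) (ψ '' (t : Set ι))) ≤ t.card := by
    have := finrank_span_finset_le_card (R := ZMod 5) (t.image ψ)
    rw [Finset.coe_image] at this
    exact this.trans Finset.card_image_le
  have h3 := L.finrank_range_add_finrank_ker
  have h4 : Module.finrank (ZMod 5) (LinearMap.range L) ≤ s.card := by
    refine (Submodule.finrank_le _).trans ?_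
    rw [Module.finrank_fintype_fun_eq_card, Fintype.card_coe]
  have h5 : Module.finrank (ZMod 5) Vec = 120 := by
    rw [Module.finrank_prod, Module.finrank_fintype_fun_eq_card, Fintype.card_fin]
  omega

end Pool.Agent.Helper5_Mobility
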