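import Mathlib
import Pool.Agent.Helper5_Mobility.Defs
import Pool.Agent.Helper5_Mobility.Space

/-!
# The graph
-/

namespace Pool.Agent.Helper5_Mobility

/-- The curvature of three vectors. -/
def curv (a b c : Vec) : ZMod 5 := om a b + om b c + om c a

/-- A set of vectors is flat if all curvatures are in `{-1, 0, 1}`. -/
def FlatSet (s : Finset Vec) : Prop := ∀ a ∈ s, ∀ b ∈ s, ∀ c ∈ s, Small (curv a b c)

theorem FlatSet.mono {s t : Finset Vec} (h : FlatSet t) (hst : s ⊆ t) : FlatSet s :=
  fun a ha b hb c hc => h a (hst ha) b (hst hb) c (hst hc)

/-- The faces: flat sets of at most four vectors. -/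
abbrev Face : Type := {s : Finset Vec // s.card ≤ 4 ∧ FlatSet s}

/-- The vertices of the graph: vectors, faces and four additional vertices. -/
abbrev HV : Type := Vec ⊕ (Face ⊕ Fin 4)

/-- The adjacency of the graph: a vector is adjacent to the faces containing it, the four
additional vertices are pairwise adjacent and adjacent to the zero vector. -/
def hadj : HV → HV → Prop
  | Sum.inl a, Sum.inr (Sum.inl s) => a ∈ s.1
  | Sum.inr (Sum.inl s), Sum.inl a => a ∈ s.1
  | Sum.inl a, Sum.inr (Sum.inr _) => a = 0
  | Sum.inr (Sum.inr _), Sum.inl a => a = 0
  | Sum.inr (Sum.inr i), Sum.inr (Sum.inr j) => i ≠ j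
  | _, _ => False

/-- The graph. -/
def HG : SimpleGraph HV where
  Adj := hadj
  symm := ⟨by
    rintro (a | s | i) (b | t | j) h
    · exact h
    · exact h
    · exact h
    · exact h
    · exact h
    · exact h
    · exact h
    · exact h
    · exact Ne.symm h⟩
  loopless := ⟨by
    rintro (a | s | i) h
    · exact h
    · exact h
    · exact h rfl⟩

theorem adj_pf {a : Vec} {s : Face} : HG.Adj (Sum.inl a) (Sum.inr (Sum.inl s)) ↔ a ∈ s.1 := Iff.rfl

theorem adj_fp {a : Vec} {s : Face} : HG.Adj (Sum.inr (Sum.inl s)) (Sum.inl a) ↔ a ∈ s.1 := Iff.rfl

theorem adj_pw {a : Vec} {i : Fin 4} : HG.Adj (Sum.inl a) (Sum.inr (Sum.inr i)) ↔ a = 0 := Iff.rfl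

theorem adj_wp {a : Vec} {i : Fin 4} : HG.Adj (Sum.inr (Sum.inr i)) (Sum.inl a) ↔ a = 0 := Iff.rfl

theorem adj_ww {i j : Fin 4} : HG.Adj (Sum.inr (Sum.inr i)) (Sum.inr (Sum.inr j)) ↔ i ≠ j := Iff.rfl

theorem not_adj_pp {a b : Vec} : ¬ HG.Adj (Sum.inl a) (Sum.inl b) := fun h => h

theorem not_adj_ff {s t : Face} : ¬ HG.Adj (Sum.inr (Sum.inl s)) (Sum.inr (Sum.inl t)) := fun h => h

theorem not_adj_fw {s : Face} {i : Fin 4} :
    ¬ HG.Adj (Sum.inr (Sum.inl s)) (Sum.inr (Sum.inr i)) := fun h => h

theorem not_adj_wf {s : Face} {i : Fin 4} :
    ¬ HG.Adj (Sum.inr (Sum.inr i)) (Sum.inr (Sum.inl s)) := fun h => h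

section Reach

variable {T V : Type} {F : SimpleGraph T} {H : SimpleGraph V}

theorem reachable_of_agree {f g : F →g H} (x : T) (h : ∀ z, z ≠ x → f z = g z) :
    (homGraph F H).Reachable f g := by
  by_cases hx : f x = g x
  · have : f = g := by
      apply RelHom.ext
      intro z
      by_cases hz : z = x
      · rw [hz]; exact hx
      · exact h z hz
    rw [this]
  · apply SimpleGraph.Adj.reachable
    refine ⟨x, hx, fun y hy => ?_⟩
    by_contra hyx
    exact hy (h y hyx)

/-- Two homomorphisms which differ on an independent set are joined by a path. -/
theorem reachable_of_indep [Finite T] : ∀ (n : ℕ) (f g : F →g H),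
    (∀ x y, f x ≠ g x → f y ≠ g y → ¬ F.Adj x y) → {x | f x ≠ g x}.ncard ≤ n →
    (homGraph F H).Reachable f g := by
  classical
  intro n
  induction n with
  | zero =>
    intro f g _ hn
    have h0 : {x | f x ≠ g x} = ∅ := by
      rw [← Set.ncard_eq_zero (Set.toFinite _)]; omega
    have : f = g := by
      apply RelHom.ext
      intro z
      by_contra hz
      have : z ∈ {x | f x ≠ g x} := hz
      rw [h0] at this
      exact this
    rw [this]
  | succ n ih =>
    intro f g hind hn
    by_cases h0 : ∃ x, f x ≠ g x
    · obtain ⟨x, hx⟩ := h0
      let f' : F →g H :=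
        { toFun := Function.update f x (g x)
          map_rel' := by
            intro a b hab
            by_cases ha : a = x
            · subst ha
              have hba : b ≠ a := hab.ne'
              rw [Function.update_self, Function.update_of_ne hba]
              have : f b = g b := by
                by_contra hb
                exact hind a b hx hb hab
              rw [this]
              exact g.map_rel hab
            · by_cases hb : b = x
              · subst hb
                rw [Function.update_self, Function.update_of_ne ha]
                have : f a = g a := by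
                  by_contra ha'
                  exact hind a b ha' hx hab
                rw [this]
                exact g.map_rel hab
              · rw [Function.update_of_ne ha, Function.update_of_ne hb]
                exact f.map_rel hab }
      have hf' : ∀ z, z ≠ x → f' z = f z := fun z hz => Function.update_of_ne hz _ _
      have hf'x : f' x = g x := by
        change Function.update (⇑f) x (g x) x = g x
        simp
      have h1 : (homGraph F H).Reachable f f' :=
        reachable_of_agree x fun z hz => (hf' z hz).symm
      refine h1.trans (ih f' g ?_ ?_)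
      · intro a b ha hb
        have hax : a ≠ x := by rintro rfl; exact ha hf'x
        have hbx : b ≠ x := by rintro rfl; exact hb hf'x
        rw [hf' a hax] at ha
        rw [hf' b hbx] at hb
        exact hind a b ha hb
      · have hsub : {z | f' z ≠ g z} ⊆ {z | f z ≠ g z} \ {x} := by
          intro z hz
          have hzx : z ≠ x := by rintro rfl; exact hz hf'x
          refine ⟨?_, hzx⟩
          have : f' z ≠ g z := hz
          rwa [hf' z hzx] at this
        have hlt : ({z | f z ≠ g z} \ {x}).ncard < {z | f z ≠ g z}.ncard :=
          Set.ncard_sdiff_singleton_lt_of_mem hx (Set.toFinite _)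
        have := Set.ncard_le_ncard hsub (Set.toFinite _)
        omega
    · push Not at h0
      have : f = g := RelHom.ext h0
      rw [this]

/-- Two homomorphisms which differ on an independent set are joined by a path. -/
theorem reachable_indep [Finite T] (f g : F →g H)
    (h : ∀ x y, f x ≠ g x → f y ≠ g y → ¬ F.Adj x y) : (homGraph F H).Reachable f g :=
  reachable_of_indep _ f g h le_rfl

/-- Recolouring: for graphs of maximum degree at most three, any two colourings by (at least)
five colours are joined by a path. -/
theorem recolour [Finite T] (hdeg : ∀ x, (F.neighborSet x).ncard ≤ 3) {α : Type} [Fintype α]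
    (hα : 5 ≤ Fintype.card α) : ∀ (n : ℕ) (f g : F →g (⊤ : SimpleGraph α)),
    {x | f x ≠ g x}.ncard ≤ n → (homGraph F (⊤ : SimpleGraph α)).Reachable f g := by
  classical
  intro n
  induction n with
  | zero =>
    intro f g hn
    apply reachable_indep
    intro x y hx
    have h0 : {x | f x ≠ g x} = ∅ := by
      rw [← Set.ncard_eq_zero (Set.toFinite _)]; omega
    have : x ∈ {x | f x ≠ g x} := hx
    rw [h0] at this
    exact absurd this (Set.notMem_empty _)
  | succ n ih =>
    intro f g hn
    by_cases h0 : ∃ x, f x ≠ g x
    · obtain ⟨x, hx⟩ := h0
      set c := g x with hc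
      -- new colours for the neighbours of `x` of colour `c`
      have hnew : ∀ u, ∃ d, d ≠ c ∧ ∀ z, F.Adj u z → f z ≠ d := by
        intro u
        by_contra! hcon
        -- all colours other than `c` appear on the neighbours
        have hsub : (Finset.univ.erase c : Finset α) ⊆
            (Set.toFinite (F.neighborSet u)).toFinset.image f := by
          intro d hd
          rw [Finset.mem_erase] at hd
          obtain ⟨z, hz, hzd⟩ := hcon d hd.1
          rw [Finset.mem_image]
          exact ⟨z, by simpa using hz, hzd⟩
        have h1 := Finset.card_le_card hsub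
        rw [Finset.card_erase_of_mem (Finset.mem_univ _), Finset.card_univ] at h1
        have h2 : ((Set.toFinite (F.neighborSet u)).toFinset.image f).card ≤ 3 := by
          refine Finset.card_image_le.trans ?_
          rw [← Set.ncard_eq_toFinset_card _ (Set.toFinite _)]
          exact hdeg u
        omega
      choose nc hnc1 hnc2 using hnew
      -- first recolour the neighbours
      let f₁ : F →g (⊤ : SimpleGraph α) :=
        { toFun := fun z => if F.Adj x z ∧ f z = c then nc z else f z
          map_rel' := by
            intro a b hab
            rw [SimpleGraph.top_adj]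
            have hfab : f a ≠ f b := f.map_rel hab
            by_cases ha : F.Adj x a ∧ f a = c
            · by_cases hb : F.Adj x b ∧ f b = c
              · exact absurd (ha.2.trans hb.2.symm) hfab
              · rw [if_pos ha, if_neg hb]
                exact (hnc2 a b hab).symm
            · by_cases hb : F.Adj x b ∧ f b = c
              · rw [if_neg ha, if_pos hb]
                exact hnc2 b a hab.symm
              · rw [if_neg ha, if_neg hb]
                exact hfab }
      have hf₁ : ∀ z, f₁ z = if F.Adj x z ∧ f z = c then nc z else f z := fun _ => rfl
      have r1 : (homGraph F (⊤ : SimpleGraph α)).Reachable f f₁ := by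
        apply reachable_indep
        intro a b ha hb hab
        rw [hf₁] at ha hb
        have ha' : F.Adj x a ∧ f a = c := by
          by_contra h; rw [if_neg h] at ha; exact ha rfl
        have hb' : F.Adj x b ∧ f b = c := by
          by_contra h; rw [if_neg h] at hb; exact hb rfl
        have : f a ≠ f b := f.map_rel hab
        exact this (ha'.2.trans hb'.2.symm)
      have hnb : ∀ z, F.Adj x z → f₁ z ≠ c := by
        intro z hz
        rw [hf₁]
        by_cases h : f z = c
        · rw [if_pos ⟨hz, h⟩]; exact hnc1 z
        · rw [if_neg (fun h' => h h'.2)]; exact h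
      -- then recolour `x`
      let f₂ : F →g (⊤ : SimpleGraph α) :=
        { toFun := Function.update f₁ x c
          map_rel' := by
            intro a b hab
            rw [SimpleGraph.top_adj]
            by_cases ha : a = x
            · subst ha
              rw [Function.update_self, Function.update_of_ne hab.ne']
              exact (hnb b hab).symm
            · by_cases hb : b = x
              · subst hb
                rw [Function.update_self, Function.update_of_ne ha]
                exact hnb a hab.symm
              · rw [Function.update_of_ne ha, Function.update_of_ne hb]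
                exact f₁.map_rel hab }
      have hf₂ : ∀ z, z ≠ x → f₂ z = f₁ z := fun z hz => Function.update_of_ne hz _ _
      have hf₂x : f₂ x = c := by
        change Function.update (⇑f₁) x c x = c
        simp
      have r2 : (homGraph F (⊤ : SimpleGraph α)).Reachable f₁ f₂ :=
        reachable_of_agree x fun z hz => (hf₂ z hz).symm
      refine (r1.trans r2).trans (ih f₂ g ?_)
      have hsub : {z | f₂ z ≠ g z} ⊆ {z | f z ≠ g z} \ {x} := by
        intro z hz
        have hz' : f₂ z ≠ g z := hz
        have hzx : z ≠ x := by
          rintro rfl
          exact hz' hf₂x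
        refine ⟨?_, hzx⟩
        rw [hf₂ z hzx, hf₁] at hz'
        by_cases h : F.Adj x z ∧ f z = c
        · change f z ≠ g z
          rw [h.2]
          have : g x ≠ g z := g.map_rel h.1
          exact this
        · rwa [if_neg h] at hz'
      have hlt : ({z | f z ≠ g z} \ {x}).ncard < {z | f z ≠ g z}.ncard :=
        Set.ncard_sdiff_singleton_lt_of_mem hx (Set.toFinite _)
      have := Set.ncard_le_ncard hsub (Set.toFinite _)
      omega
    · push Not at h0
      have : f = g := RelHom.ext h0
      rw [this]

end Reach

end Pool.Agent.Helper5_Mobility
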