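import Mathlib
import Pool.Agent.Helper5_Mobility.Graph

/-!
# The graph is `5`-mobile
-/

namespace Pool.Agent.Helper5_Mobility

open Relation

section Mob

variable {T : Type} [Fintype T] [DecidableEq T] {F : SimpleGraph T}

/-- `x` is mapped to a vector. -/
def IsX (f : F →g HG) (x : T) : Prop := ∃ a, f x = Sum.inl a

/-- `x` is mapped to a face. -/
def IsY (f : F →g HG) (x : T) : Prop := ∃ s, f x = Sum.inr (Sum.inl s)

/-- `x` is mapped to an additional vertex. -/
def IsZ (f : F →g HG) (x : T) : Prop := ∃ i, f x = Sum.inr (Sum.inr i)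

omit [Fintype T] [DecidableEq T] in
theorem isX_of_adj {f : F →g HG} {x y : T} (hy : IsY f y) (h : F.Adj y x) : IsX f x := by
  obtain ⟨s, hs⟩ := hy
  have h1 := f.map_rel h
  rw [hs] at h1
  rcases hfx : f x with a | t | i
  · exact ⟨a, hfx⟩
  · rw [hfx] at h1; exact absurd h1 not_adj_ff
  · rw [hfx] at h1; exact absurd h1 not_adj_fw

/-- The finite set of neighbours. -/
noncomputable def nb (F : SimpleGraph T) (y : T) : Finset T :=
  (Set.toFinite (F.neighborSet y)).toFinset

omit [DecidableEq T] in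
theorem mem_nb {y z : T} : z ∈ nb F y ↔ F.Adj y z := by simp [nb]

omit [DecidableEq T] in
theorem card_nb (hdeg : ∀ x, (F.neighborSet x).ncard ≤ 3) (y : T) : (nb F y).card ≤ 3 := by
  rw [nb, ← Set.ncard_eq_toFinset_card _ (Set.toFinite _)]
  exact hdeg y

/-- A system of vectors and faces. -/
structure Sys (f : F →g HG) (ψ : T → Vec) (S : T → Face) : Prop where
  pin : ∀ x z, IsX f x → IsZ f z → F.Adj x z → ψ x = 0
  inc : ∀ y x, IsY f y → F.Adj y x → ψ x ∈ (S y).1

/-- The homomorphism given by a system of vectors and faces. -/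
def mkHom (f : F →g HG) (ψ : T → Vec) (S : T → Face) (h : Sys f ψ S) : F →g HG where
  toFun t :=
    match f t with
    | Sum.inl _ => Sum.inl (ψ t)
    | Sum.inr (Sum.inl _) => Sum.inr (Sum.inl (S t))
    | Sum.inr (Sum.inr i) => Sum.inr (Sum.inr i)
  map_rel' := by
    intro x y hxy
    have h1 := f.map_rel hxy
    rcases hfx : f x with a | t | i <;> rcases hfy : f y with b | t' | j <;>
      rw [hfx, hfy] at h1
    · exact absurd h1 not_adj_pp
    · exact adj_pf.2 (h.inc y x ⟨t', hfy⟩ hxy.symm)
    · exact adj_pw.2 (h.pin x y ⟨a, hfx⟩ ⟨j, hfy⟩ hxy)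
    · exact adj_fp.2 (h.inc x y ⟨t, hfx⟩ hxy)
    · exact absurd h1 not_adj_ff
    · exact absurd h1 not_adj_fw
    · exact adj_wp.2 (h.pin y x ⟨b, hfy⟩ ⟨i, hfx⟩ hxy.symm)
    · exact absurd h1 not_adj_wf
    · exact h1

omit [Fintype T] [DecidableEq T] in
theorem mkHom_X {f : F →g HG} {ψ : T → Vec} {S : T → Face} {h : Sys f ψ S} {x : T}
    (hx : IsX f x) : mkHom f ψ S h x = Sum.inl (ψ x) := by
  obtain ⟨a, ha⟩ := hx
  change (match f x with
    | Sum.inl _ => Sum.inl (ψ x)
    | Sum.inr (Sum.inl _) => Sum.inr (Sum.inl (S x))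
    | Sum.inr (Sum.inr i) => Sum.inr (Sum.inr i)) = Sum.inl (ψ x)
  rw [ha]

omit [Fintype T] [DecidableEq T] in
theorem mkHom_Y {f : F →g HG} {ψ : T → Vec} {S : T → Face} {h : Sys f ψ S} {x : T}
    (hx : IsY f x) : mkHom f ψ S h x = Sum.inr (Sum.inl (S x)) := by
  obtain ⟨a, ha⟩ := hx
  change (match f x with
    | Sum.inl _ => Sum.inl (ψ x)
    | Sum.inr (Sum.inl _) => Sum.inr (Sum.inl (S x))
    | Sum.inr (Sum.inr i) => Sum.inr (Sum.inr i)) = Sum.inr (Sum.inl (S x))
  rw [ha]

omit [Fintype T] [DecidableEq T] in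
theorem mkHom_Z {f : F →g HG} {ψ : T → Vec} {S : T → Face} {h : Sys f ψ S} {x : T} {i : Fin 4}
    (hx : f x = Sum.inr (Sum.inr i)) : mkHom f ψ S h x = Sum.inr (Sum.inr i) := by
  change (match f x with
    | Sum.inl _ => Sum.inl (ψ x)
    | Sum.inr (Sum.inl _) => Sum.inr (Sum.inl (S x))
    | Sum.inr (Sum.inr i) => Sum.inr (Sum.inr i)) = Sum.inr (Sum.inr i)
  rw [hx]

omit [Fintype T] [DecidableEq T] in
theorem trichotomy (f : F →g HG) (x : T) : IsX f x ∨ IsY f x ∨ ∃ i, f x = Sum.inr (Sum.inr i) := by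
  rcases hfx : f x with a | t | i
  · exact Or.inl ⟨a, hfx⟩
  · exact Or.inr (Or.inl ⟨t, hfx⟩)
  · exact Or.inr (Or.inr ⟨i, rfl⟩)

omit [Fintype T] [DecidableEq T] in
theorem isY_of_not {f : F →g HG} {x : T} (h1 : ¬ IsX f x) (h2 : ∀ i, f x ≠ Sum.inr (Sum.inr i)) :
    IsY f x := by
  rcases trichotomy f x with h | h | ⟨i, h⟩
  · exact absurd h h1
  · exact h
  · exact absurd h (h2 i)

omit [Fintype T] [DecidableEq T] in
/-- No two vertices mapped to faces are adjacent. -/
theorem not_adj_YY {f : F →g HG} {x y : T} (hx : IsY f x) (hy : IsY f y) : ¬ F.Adj x y := by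
  intro h
  obtain ⟨s, hs⟩ := hx
  obtain ⟨t, ht⟩ := hy
  have := f.map_rel h
  rw [hs, ht] at this
  exact not_adj_ff this

omit [DecidableEq T] in
theorem reach_faces {f : F →g HG} {ψ : T → Vec} {S S' : T → Face} (h : Sys f ψ S)
    (h' : Sys f ψ S') : (homGraph F HG).Reachable (mkHom f ψ S h) (mkHom f ψ S' h') := by
  have key : ∀ x, mkHom f ψ S h x ≠ mkHom f ψ S' h' x → IsY f x := by
    intro x hx
    rcases trichotomy f x with h1 | h1 | ⟨i, h1⟩
    · rw [mkHom_X h1, mkHom_X h1] at hx; exact absurd rfl hx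
    · exact h1
    · rw [mkHom_Z h1, mkHom_Z h1] at hx; exact absurd rfl hx
  apply reachable_indep
  intro x y hx hy
  exact not_adj_YY (key x hx) (key y hy)

omit [Fintype T] [DecidableEq T] in
theorem reach_vertex {f : F →g HG} {ψ ψ' : T → Vec} {S : T → Face} (h : Sys f ψ S)
    (h' : Sys f ψ' S) (x : T) (hx : ∀ z, z ≠ x → ψ z = ψ' z) :
    (homGraph F HG).Reachable (mkHom f ψ S h) (mkHom f ψ' S h') := by
  apply reachable_of_agree x
  intro z hz
  rcases trichotomy f z with h1 | h1 | ⟨i, h1⟩
  · rw [mkHom_X h1, mkHom_X h1, hx z hz]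
  · rw [mkHom_Y h1, mkHom_Y h1]
  · rw [mkHom_Z h1, mkHom_Z h1]

open Classical in
/-- The face given by a set of vectors. -/
noncomputable def faceOf (s : Finset Vec) : Face :=
  if h : s.card ≤ 4 ∧ FlatSet s then ⟨s, h⟩ else ⟨∅, by simp, by simp [FlatSet]⟩

theorem faceOf_val {s : Finset Vec} (h1 : s.card ≤ 4) (h2 : FlatSet s) : (faceOf s).1 = s := by
  rw [faceOf, dif_pos ⟨h1, h2⟩]

/-- A system of vectors which is flat on the neighbourhoods of the faces. -/
structure Good (f : F →g HG) (ψ : T → Vec) : Prop where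
  pin : ∀ x z, IsX f x → IsZ f z → F.Adj x z → ψ x = 0
  flat : ∀ y, IsY f y → FlatSet ((nb F y).image ψ)

/-- The canonical faces. -/
noncomputable def faces (F : SimpleGraph T) (ψ : T → Vec) (y : T) : Face :=
  faceOf ((nb F y).image ψ)

omit [DecidableEq T] in
theorem Good.sys (hdeg : ∀ x, (F.neighborSet x).ncard ≤ 3) {f : F →g HG} {ψ : T → Vec}
    (h : Good f ψ) : Sys f ψ (faces F ψ) := by
  refine ⟨h.pin, fun y x hy hyx => ?_⟩
  rw [faces, faceOf_val (Finset.card_image_le.trans ((card_nb hdeg y).trans (by norm_num)))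
    (h.flat y hy)]
  exact Finset.mem_image_of_mem _ (mem_nb.2 hyx)

/-- The canonical homomorphism. -/
noncomputable def canon (hdeg : ∀ x, (F.neighborSet x).ncard ≤ 3) {f : F →g HG} {ψ : T → Vec}
    (h : Good f ψ) : F →g HG :=
  mkHom f ψ (faces F ψ) (h.sys hdeg)

/-- The elementary move. -/
theorem move (hdeg : ∀ x, (F.neighborSet x).ncard ≤ 3) {f : F →g HG} {ψ ψ' : T → Vec}
    (h : Good f ψ) (h' : Good f ψ') {x : T} (hx : ∀ z, z ≠ x → ψ z = ψ' z)
    (hS : ∀ y, IsY f y → F.Adj y x → FlatSet (insert (ψ' x) ((nb F y).image ψ))) :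
    (homGraph F HG).Reachable (canon hdeg h) (canon hdeg h') := by
  classical
  set S : T → Face := fun y => if F.Adj y x then faceOf (insert (ψ' x) ((nb F y).image ψ))
    else faces F ψ y with hSdef
  have hval : ∀ y, IsY f y → F.Adj y x → (S y).1 = insert (ψ' x) ((nb F y).image ψ) := by
    intro y hy hyx
    rw [hSdef]
    simp only [if_pos hyx]
    apply faceOf_val
    · refine (Finset.card_insert_le _ _).trans ?_
      have := (Finset.card_image_le (s := nb F y) (f := ψ)).trans (card_nb hdeg y)
      omega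
    · exact hS y hy hyx
  have hval' : ∀ y, IsY f y → ¬ F.Adj y x → (S y).1 = (nb F y).image ψ := by
    intro y hy hyx
    rw [hSdef]
    simp only [if_neg hyx]
    exact faceOf_val (Finset.card_image_le.trans ((card_nb hdeg y).trans (by norm_num)))
      (h.flat y hy)
  have s1 : Sys f ψ S := by
    refine ⟨h.pin, fun y z hy hyz => ?_⟩
    by_cases hyx : F.Adj y x
    · rw [hval y hy hyx]
      exact Finset.mem_insert_of_mem (Finset.mem_image_of_mem _ (mem_nb.2 hyz))
    · rw [hval' y hy hyx]
      exact Finset.mem_image_of_mem _ (mem_nb.2 hyz)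
  have s2 : Sys f ψ' S := by
    refine ⟨h'.pin, fun y z hy hyz => ?_⟩
    by_cases hzx : z = x
    · subst hzx
      rw [hval y hy hyz]
      exact Finset.mem_insert_self _ _
    · rw [← hx z hzx]
      exact s1.inc y z hy hyz
  exact ((reach_faces (h.sys hdeg) s1).trans (reach_vertex s1 s2 x hx)).trans
    (reach_faces s2 (h'.sys hdeg))

/-- `x` is free: mapped to a vector and without neighbours mapped to additional vertices. -/
def Free (f : F →g HG) (x : T) : Prop := IsX f x ∧ ∀ z, F.Adj x z → ¬ IsZ f z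

open Classical in
/-- The contraction of the vertices which are not free. -/
noncomputable def kap (f : F →g HG) (x : T) : Option T := if Free f x then some x else none

omit [Fintype T] [DecidableEq T] in
theorem kap_some {f : F →g HG} {x z : T} : kap f x = some z ↔ x = z ∧ Free f x := by
  unfold kap
  split_ifs with h
  · simp [h]
  · simp [h]

omit [Fintype T] [DecidableEq T] in
theorem kap_none {f : F →g HG} {x : T} : kap f x = none ↔ ¬ Free f x := by
  unfold kap
  split_ifs with h
  · simp [h]
  · simp [h]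

/-- The relation: different free vertices with a common neighbour mapped to a face. -/
def Rel (f : F →g HG) (a b : Option T) : Prop :=
  ∃ x z, a = some x ∧ b = some z ∧ x ≠ z ∧ Free f x ∧ Free f z ∧
    ∃ y, IsY f y ∧ F.Adj y x ∧ F.Adj y z

omit [Fintype T] [DecidableEq T] in
theorem Rel.symm {f : F →g HG} {a b : Option T} (h : Rel f a b) : Rel f b a := by
  obtain ⟨x, z, h1, h2, h3, h4, h5, y, h6, h7, h8⟩ := h
  exact ⟨z, x, h2, h1, h3.symm, h5, h4, y, h6, h8, h7⟩

omit [Fintype T] [DecidableEq T] in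
theorem not_rel_none {f : F →g HG} {a : Option T} : ¬ Rel f a none := by
  rintro ⟨x, z, _, h, _⟩
  exact absurd h (by simp)

/-- The vector of an element of `Option T`. -/
def vv (ψ : T → Vec) : Option T → Vec
  | none => 0
  | some x => ψ x

open Classical in
/-- The field of a system of vectors. -/
noncomputable def fld (f : F →g HG) (ψ : T → Vec) (a b : Option T) : ZMod 5 :=
  if Rel f a b then om (vv ψ a) (vv ψ b) else 0

omit [Fintype T] [DecidableEq T] in
theorem fld_isField (f : F →g HG) (ψ : T → Vec) : IsField (Rel f) (fld f ψ) := by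
  constructor
  · intro a b
    unfold fld
    by_cases h : Rel f a b
    · rw [if_pos h, if_pos h.symm, om_anti]
    · rw [if_neg h, if_neg (fun h' => h h'.symm), neg_zero]
  · intro a b h
    by_contra h'
    exact h (by rw [fld, if_neg h'])

omit [Fintype T] [DecidableEq T] in
theorem Good.vv_kap {f : F →g HG} {ψ : T → Vec}
    (hpin : ∀ x z, IsX f x → IsZ f z → F.Adj x z → ψ x = 0) {x y : T} (hy : IsY f y)
    (hyx : F.Adj y x) : vv ψ (kap f x) = ψ x := by
  by_cases h : Free f x
  · rw [kap_some.2 ⟨rfl, h⟩]; rfl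
  · rw [kap_none.2 h]
    have hX : IsX f x := isX_of_adj hy hyx
    unfold Free at h
    push Not at h
    obtain ⟨z, hxz, hz⟩ := h hX
    exact (hpin x z hX hz hxz).symm

omit [Fintype T] [DecidableEq T] in
/-- On the neighbourhood of a face the field is given by the form. -/
theorem fld_kap {f : F →g HG} {ψ : T → Vec}
    (hpin : ∀ x z, IsX f x → IsZ f z → F.Adj x z → ψ x = 0) {y x z : T} (hy : IsY f y)
    (hyx : F.Adj y x) (hyz : F.Adj y z) : fld f ψ (kap f x) (kap f z) = om (ψ x) (ψ z) := by
  unfold fld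
  by_cases h : Rel f (kap f x) (kap f z)
  · rw [if_pos h, Good.vv_kap hpin hy hyx, Good.vv_kap hpin hy hyz]
  · rw [if_neg h]
    by_cases hx : Free f x
    · by_cases hz : Free f z
      · by_cases hxz : x = z
        · subst hxz; rw [om_self]
        · exfalso
          apply h
          exact ⟨x, z, kap_some.2 ⟨rfl, hx⟩, kap_some.2 ⟨rfl, hz⟩, hxz, hx, hz, y, hy, hyx, hyz⟩
      · rw [← Good.vv_kap hpin hy hyz, kap_none.2 hz]
        exact (om_zero_right _).symm
    · rw [← Good.vv_kap hpin hy hyx, kap_none.2 hx]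
      exact (om_zero_left _).symm

open Classical in
/-- The set of triples. -/
noncomputable def CC (f : F →g HG) : Finset (Finset (Option T)) :=
  ((Finset.univ.filter fun y => IsY f y).image fun y => (nb F y).image (kap f)).filter
    fun s => s.card = 3

theorem mem_CC {f : F →g HG} {s : Finset (Option T)} :
    s ∈ CC f ↔ (∃ y, IsY f y ∧ (nb F y).image (kap f) = s) ∧ s.card = 3 := by
  classical
  simp [CC]

theorem CC_deg (hdeg : ∀ x, (F.neighborSet x).ncard ≤ 3) (f : F →g HG) :
    ∀ x, x ≠ none → ((CC f).filter (x ∈ ·)).card ≤ 3 := by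
  classical
  intro x hx
  obtain ⟨x', rfl⟩ := Option.ne_none_iff_exists'.1 hx
  have hsub : (CC f).filter (some x' ∈ ·) ⊆ (nb F x').image fun y => (nb F y).image (kap f) := by
    intro s hs
    rw [Finset.mem_filter, mem_CC] at hs
    obtain ⟨⟨⟨y, _, hys⟩, _⟩, hxs⟩ := hs
    rw [← hys, Finset.mem_image] at hxs
    obtain ⟨z, hz, hzx⟩ := hxs
    rw [kap_some] at hzx
    rw [Finset.mem_image]
    refine ⟨y, ?_, hys⟩
    rw [mem_nb]
    rw [mem_nb] at hz
    rw [← hzx.1]
    exact hz.symm
  exact (Finset.card_le_card hsub).trans (Finset.card_image_le.trans (card_nb hdeg x'))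

theorem CC_rel (f : F →g HG) : ∀ s ∈ CC f, ∀ a ∈ s, ∀ b ∈ s, a ≠ b → a ≠ none → b ≠ none →
    Rel f a b := by
  intro s hs a ha b hb hab ha0 hb0
  rw [mem_CC] at hs
  obtain ⟨⟨y, hy, rfl⟩, _⟩ := hs
  rw [Finset.mem_image] at ha hb
  obtain ⟨x, hx, rfl⟩ := ha
  obtain ⟨z, hz, rfl⟩ := hb
  rw [mem_nb] at hx hz
  obtain ⟨x', hx'⟩ := Option.ne_none_iff_exists'.1 ha0
  obtain ⟨z', hz'⟩ := Option.ne_none_iff_exists'.1 hb0
  obtain ⟨rfl, hfx⟩ := kap_some.1 hx'
  obtain ⟨rfl, hfz⟩ := kap_some.1 hz'
  refine ⟨x, z, hx', hz', ?_, hfx, hfz, y, hy, hx, hz⟩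
  rintro rfl
  exact hab rfl

omit [DecidableEq T] in
theorem curv_anti1 (a b c : Vec) : curv b a c = - curv a b c := by
  simp only [curv]
  rw [om_anti b a, om_anti a c, om_anti c b]
  ring

theorem curv_rot (a b c : Vec) : curv b c a = curv a b c := by
  simp only [curv]; ring

theorem curv_self1 (a b : Vec) : curv a a b = 0 := by
  simp only [curv]
  rw [om_self, om_anti b a]
  ring

/-- Criterion for the flatness of a set with one more element. -/
theorem flatSet_insert {s : Finset Vec} (hs : FlatSet s) {a : Vec}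
    (h : ∀ b ∈ s, ∀ c ∈ s, Small (curv a b c)) : FlatSet (insert a s) := by
  have r1 : ∀ x y, Small (curv x x y) := fun x y => by rw [curv_self1]; exact small_zero
  have r2 : ∀ x y, Small (curv x y y) := fun x y => by rw [← curv_rot]; exact r1 _ _
  have r3 : ∀ x y, Small (curv x y x) := fun x y => by rw [← curv_rot, ← curv_rot]; exact r1 _ _
  intro x hx y hy z hz
  rw [Finset.mem_insert] at hx hy hz
  rcases hx with rfl | hx <;> rcases hy with rfl | hy <;> rcases hz with rfl | hz
  · exact r1 _ _
  · exact r1 _ _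
  · exact r3 _ _
  · exact h y hy z hz
  · exact r2 _ _
  · rw [← curv_rot]; exact h z hz x hx
  · rw [curv_rot]; exact h x hx y hy
  · exact hs x hx y hy z hz

theorem flat_CC {f : F →g HG} {ψ : T → Vec} (h : Good f ψ) : ∀ s ∈ CC f, Flat (fld f ψ) s := by
  intro s hs
  rw [mem_CC] at hs
  obtain ⟨⟨y, hy, rfl⟩, _⟩ := hs
  intro a ha b hb c hc
  rw [Finset.mem_image] at ha hb hc
  obtain ⟨x, hx, rfl⟩ := ha
  obtain ⟨z, hz, rfl⟩ := hb
  obtain ⟨w, hw, rfl⟩ := hc
  have := h.flat y hy (ψ x) (Finset.mem_image_of_mem _ hx) (ψ z) (Finset.mem_image_of_mem _ hz)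
    (ψ w) (Finset.mem_image_of_mem _ hw)
  rw [mem_nb] at hx hz hw
  simp only [cur]
  rw [fld_kap h.pin hy hx hz, fld_kap h.pin hy hz hw, fld_kap h.pin hy hw hx]
  exact this

open Classical in
/-- `x` and its partners. -/
noncomputable def SS (f : F →g HG) (x : T) : Finset T :=
  insert x (Finset.univ.filter fun z => Rel f (some x) (some z))

theorem mem_SS {f : F →g HG} {x z : T} : z ∈ SS f x ↔ z = x ∨ Rel f (some x) (some z) := by
  classical
  simp [SS]

theorem SS_symm {f : F →g HG} {x z : T} (h : z ∈ SS f x) : x ∈ SS f z := by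
  rw [mem_SS] at *
  rcases h with h | h
  · exact Or.inl h.symm
  · exact Or.inr h.symm

theorem card_SS (hdeg : ∀ x, (F.neighborSet x).ncard ≤ 3) (f : F →g HG) (x : T) :
    (SS f x).card ≤ 10 := by
  classical
  have hsub : SS f x ⊆ insert x ((nb F x).biUnion fun y => nb F y) := by
    intro z hz
    rw [mem_SS] at hz
    rcases hz with rfl | ⟨x', z', hx', hz', _, _, _, y, _, hyx, hyz⟩
    · exact Finset.mem_insert_self _ _
    · cases hx'; cases hz'
      apply Finset.mem_insert_of_mem
      rw [Finset.mem_biUnion]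
      exact ⟨y, mem_nb.2 hyx.symm, mem_nb.2 hyz⟩
  refine (Finset.card_le_card hsub).trans ((Finset.card_insert_le _ _).trans ?_)
  have h1 : ((nb F x).biUnion fun y => nb F y).card ≤ (nb F x).card * 3 :=
    Finset.card_biUnion_le_card_mul _ _ _ fun y _ => card_nb hdeg y
  have h2 := card_nb hdeg x
  omega

/-- The vertices near `x`. -/
noncomputable def near (f : F →g HG) (x : T) : Finset T :=
  ((SS f x).biUnion fun z => SS f z).erase x

theorem card_near (hdeg : ∀ x, (F.neighborSet x).ncard ≤ 3) (f : F →g HG) (x : T) :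
    (near f x).card ≤ 100 := by
  refine (Finset.card_le_card (Finset.erase_subset _ _)).trans ?_
  have h1 : ((SS f x).biUnion fun z => SS f z).card ≤ (SS f x).card * 10 :=
    Finset.card_biUnion_le_card_mul _ _ _ fun y _ => card_SS hdeg f y
  have h2 := card_SS hdeg f x
  omega

theorem mem_near {f : F →g HG} {x x' z : T} (h : x ∈ SS f x') (hz : z ∈ SS f x') (hzx : z ≠ x) :
    z ∈ near f x := by
  rw [near, Finset.mem_erase, Finset.mem_biUnion]
  exact ⟨hzx, x', SS_symm h, hz⟩

/-- Realization of an elementary step of the field. -/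
theorem realize (hdeg : ∀ x, (F.neighborSet x).ncard ≤ 3) {f : F →g HG} {ψ : T → Vec}
    (hψ : Good f ψ) {D : Set T}
    (hD : ∀ x, Free f x → LinearIndepOn (ZMod 5) ψ (↑(SS f x) ∩ D))
    {x₀ : T} (hx₀ : Free f x₀) {g : Option T → ZMod 5} (g0 : g (some x₀) = 0) (gn : g none = 0)
    (gs : ∀ z, Small (g z)) (gR : ∀ z, g z ≠ 0 → Rel f (some x₀) z)
    (hflat : ∀ s ∈ CC f, Flat (upd (fld f ψ) (some x₀) g) s)
    {v₀ : Vec} (hv₀ : ∀ z ∈ SS f x₀, om v₀ (ψ z) = g (some z)) :
    ∃ ψ' : T → Vec, ∃ hψ' : Good f ψ', fld f ψ' = upd (fld f ψ) (some x₀) g ∧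
      (homGraph F HG).Reachable (canon hdeg hψ) (canon hdeg hψ') ∧
      ∀ x, Free f x → LinearIndepOn (ZMod 5) ψ' (↑(SS f x) ∩ insert x₀ D) := by
  classical
  obtain ⟨v, hv, hspan⟩ := exists_om_avoid (SS f x₀) (g := fun z => g (some z)) hv₀ (ψ x₀)
    (near f x₀) (by have := card_SS hdeg f x₀; have := card_near hdeg f x₀; omega)
  set ψ' : T → Vec := Function.update ψ x₀ (ψ x₀ + v) with hψ'def
  have e1 : ψ' x₀ = ψ x₀ + v := Function.update_self _ _ _
  have e2 : ∀ z, z ≠ x₀ → ψ' z = ψ z := fun z hz => Function.update_of_ne hz _ _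
  have hvx : om v (ψ x₀) = 0 := by
    rw [hv x₀ (mem_SS.2 (Or.inl rfl)), g0]
  -- the values of the form on the neighbours of the faces around `x₀`
  have hvk : ∀ y, IsY f y → F.Adj y x₀ → ∀ z, F.Adj y z → om v (ψ z) = g (kap f z) := by
    intro y hy hyx z hyz
    by_cases hz : Free f z
    · rw [kap_some.2 ⟨rfl, hz⟩]
      apply hv
      rw [mem_SS]
      by_cases hzx : z = x₀
      · exact Or.inl hzx
      · exact Or.inr ⟨x₀, z, rfl, rfl, fun h => hzx h.symm, hx₀, hz, y, hy, hyx, hyz⟩
    · rw [kap_none.2 hz, gn, ← Good.vv_kap hψ.pin hy hyz, kap_none.2 hz]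
      exact om_zero_right _
  have hkx : kap f x₀ = some x₀ := kap_some.2 ⟨rfl, hx₀⟩
  have hpin' : ∀ x z, IsX f x → IsZ f z → F.Adj x z → ψ' x = 0 := by
    intro x z hx hz hxz
    by_cases hxx : x = x₀
    · subst hxx
      exact absurd hz (hx₀.2 z hxz)
    · rw [e2 x hxx]; exact hψ.pin x z hx hz hxz
  -- the new field
  have hfld : fld f ψ' = upd (fld f ψ) (some x₀) g := by
    funext a b
    by_cases hR : Rel f a b
    · obtain ⟨x, z, rfl, rfl, hxz, hfx, hfz, y, hy, hyx, hyz⟩ := id hR
      have hva : ∀ t, t ≠ x₀ → vv ψ' (some t) = ψ t := fun t ht => e2 t ht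
      simp only [fld, if_pos hR, upd]
      by_cases hx : x = x₀
      · subst hx
        have hzx : z ≠ x := fun h => hxz h.symm
        rw [if_pos rfl, if_neg (by simpa using hzx)]
        change om (ψ' x) (ψ' z) = om (ψ x) (ψ z) + g (some z) - 0
        rw [e1, e2 z hzx, om_add_left, hv z (mem_SS.2 (Or.inr hR)), sub_zero]
      · by_cases hz : z = x₀
        · subst hz
          rw [if_neg (by simpa using hx), if_pos rfl]
          change om (ψ' x) (ψ' z) = om (ψ x) (ψ z) + 0 - g (some x)
          rw [e1, e2 x hx, om_add_right, om_anti (ψ x) v, hv x (mem_SS.2 (Or.inr hR.symm))]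
          ring
        · rw [if_neg (by simpa using hx), if_neg (by simpa using hz)]
          change om (ψ' x) (ψ' z) = om (ψ x) (ψ z) + 0 - 0
          rw [e2 x hx, e2 z hz]; ring
    · simp only [fld, if_neg hR, upd]
      have h1 : (if a = some x₀ then g b else 0) = 0 := by
        split_ifs with h
        · by_contra h'
          apply hR
          rw [h]
          exact gR b h'
        · rfl
      have h2 : (if b = some x₀ then g a else 0) = 0 := by
        split_ifs with h
        · by_contra h'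
          apply hR
          rw [h]
          exact (gR a h').symm
        · rfl
      rw [h1, h2]; ring
  -- the key flatness
  have hflat' : ∀ y, IsY f y → F.Adj y x₀ → FlatSet (insert (ψ' x₀) ((nb F y).image ψ)) := by
    intro y hy hyx
    apply flatSet_insert (hψ.flat y hy)
    intro b hb c hc
    rw [Finset.mem_image] at hb hc
    obtain ⟨z, hz, rfl⟩ := hb
    obtain ⟨w, hw, rfl⟩ := hc
    rw [mem_nb] at hz hw
    have hgz := hvk y hy hyx z hz
    have hgw := hvk y hy hyx w hw
    have hcv : curv (ψ' x₀) (ψ z) (ψ w) =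
        om (ψ x₀) (ψ z) + g (kap f z) + om (ψ z) (ψ w) - (om (ψ x₀) (ψ w) + g (kap f w)) := by
      simp only [curv]
      rw [e1, om_add_left, om_add_right, hgz, om_anti (ψ w) (ψ x₀), om_anti (ψ w) v, hgw]
      ring
    by_cases h1 : kap f z = kap f w
    · have : ψ z = ψ w := by
        rw [← Good.vv_kap hψ.pin hy hz, h1, Good.vv_kap hψ.pin hy hw]
      rw [hcv, h1, this, om_self]
      have : om (ψ x₀) (ψ w) + g (kap f w) + 0 - (om (ψ x₀) (ψ w) + g (kap f w)) = 0 := by ring
      rw [this]
      exact small_zero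
    · by_cases h2 : kap f z = kap f x₀
      · have h2' : z = x₀ := by
          rw [hkx] at h2
          exact (kap_some.1 h2).1
        subst h2'
        rw [hcv, hkx, g0, om_self]
        have : (0 : ZMod 5) + 0 + om (ψ z) (ψ w) - (om (ψ z) (ψ w) + g (kap f w)) =
          - g (kap f w) := by ring
        rw [this]
        exact (gs _).neg
      · by_cases h3 : kap f w = kap f x₀
        · have h3' : w = x₀ := by
            rw [hkx] at h3
            exact (kap_some.1 h3).1
          subst h3'
          rw [hcv, hkx, g0, om_self, om_anti (ψ z) (ψ w)]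
          have : om (ψ w) (ψ z) + g (kap f z) + - om (ψ w) (ψ z) - (0 + 0) = g (kap f z) := by ring
          rw [this]
          exact gs _
        · -- the three points are different
          have hcard : ((nb F y).image (kap f)).card = 3 := by
            apply le_antisymm (Finset.card_image_le.trans (card_nb hdeg y))
            have hsub : ({kap f x₀, kap f z, kap f w} : Finset (Option T)) ⊆
                (nb F y).image (kap f) := by
              intro t ht
              simp only [Finset.mem_insert, Finset.mem_singleton] at ht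
              rcases ht with rfl | rfl | rfl
              · exact Finset.mem_image_of_mem _ (mem_nb.2 hyx)
              · exact Finset.mem_image_of_mem _ (mem_nb.2 hz)
              · exact Finset.mem_image_of_mem _ (mem_nb.2 hw)
            have := Finset.card_le_card hsub
            rw [Finset.card_eq_three.2 ⟨_, _, _, fun h => h2 h.symm, fun h => h3 h.symm, h1, rfl⟩]
              at this
            exact this
          have hmem : (nb F y).image (kap f) ∈ CC f := mem_CC.2 ⟨⟨y, hy, rfl⟩, hcard⟩
          have h4 := hflat _ hmem (kap f x₀) (Finset.mem_image_of_mem _ (mem_nb.2 hyx))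
            (kap f z) (Finset.mem_image_of_mem _ (mem_nb.2 hz)) (kap f w)
            (Finset.mem_image_of_mem _ (mem_nb.2 hw))
          have h5 : cur (upd (fld f ψ) (some x₀) g) (kap f x₀) (kap f z) (kap f w) =
              curv (ψ' x₀) (ψ z) (ψ w) := by
            rw [hkx] at h2 h3
            rw [hcv]
            simp only [cur, upd]
            rw [hkx, if_pos rfl, if_neg h2, if_neg h2, if_neg h3, if_neg h3, if_pos rfl, ← hkx,
              fld_kap hψ.pin hy hyx hz, fld_kap hψ.pin hy hz hw, fld_kap hψ.pin hy hw hyx,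
              om_anti (ψ w) (ψ x₀)]
            ring
          rw [← h5]
          exact h4
  have hψ' : Good f ψ' := by
    refine ⟨hpin', fun y hy => ?_⟩
    by_cases hyx : F.Adj y x₀
    · apply (hflat' y hy hyx).mono
      intro a ha
      rw [Finset.mem_image] at ha
      obtain ⟨z, hz, rfl⟩ := ha
      by_cases hzx : z = x₀
      · rw [hzx]; exact Finset.mem_insert_self _ _
      · rw [e2 z hzx]; exact Finset.mem_insert_of_mem (Finset.mem_image_of_mem _ hz)
    · have : (nb F y).image ψ' = (nb F y).image ψ := by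
        apply Finset.image_congr
        intro z hz
        have hz' : F.Adj y z := mem_nb.1 hz
        apply e2
        rintro rfl
        exact hyx hz'
      rw [this]
      exact hψ.flat y hy
  refine ⟨ψ', hψ', hfld, ?_, ?_⟩
  · exact move hdeg hψ hψ' (x := x₀) (fun z hz => (e2 z hz).symm) hflat'
  · intro x hx
    by_cases hmem : x₀ ∈ SS f x
    · have hset : (↑(SS f x) ∩ insert x₀ D : Set T) = insert x₀ ((↑(SS f x) ∩ D) \ {x₀}) := by
        ext t
        simp only [Set.mem_inter_iff, Finset.mem_coe, Set.mem_insert_iff, Set.mem_sdiff,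
          Set.mem_singleton_iff]
        constructor
        · rintro ⟨h1, h2⟩
          by_cases ht : t = x₀
          · exact Or.inl ht
          · exact Or.inr ⟨⟨h1, h2.resolve_left ht⟩, ht⟩
        · rintro (rfl | ⟨⟨h1, h2⟩, h3⟩)
          · exact ⟨hmem, Or.inl rfl⟩
          · exact ⟨h1, Or.inr h2⟩
      rw [hset, linearIndepOn_insert (by simp)]
      have heq : Set.EqOn ψ ψ' ((↑(SS f x) ∩ D) \ {x₀}) := by
        intro t ht
        exact (e2 t (by simpa using ht.2)).symm
      constructor
      · exact ((hD x hx).mono Set.sdiff_subset).congr heq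
      · rw [e1]
        intro hcon
        apply hspan
        refine Submodule.span_mono ?_ hcon
        rw [← heq.image_eq]
        apply Set.image_mono
        intro t ht
        rw [Finset.mem_coe]
        exact mem_near hmem ht.1.1 (by simpa using ht.2)
    · have hset : (↑(SS f x) ∩ insert x₀ D : Set T) = ↑(SS f x) ∩ D := by
        ext t
        simp only [Set.mem_inter_iff, Finset.mem_coe, Set.mem_insert_iff]
        constructor
        · rintro ⟨h1, h2⟩
          refine ⟨h1, h2.resolve_left ?_⟩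
          rintro rfl
          exact hmem h1
        · rintro ⟨h1, h2⟩
          exact ⟨h1, Or.inr h2⟩
      rw [hset]
      apply (hD x hx).congr
      intro t ht
      refine (e2 t ?_).symm
      rintro rfl
      exact hmem ht.1

theorem upd_zero_fun (β : Option T → Option T → ZMod 5) (x : Option T) :
    upd β x (fun _ => 0) = β := by
  funext a b
  simp [upd]

/-- Making a system generic. -/
theorem genericize (hdeg : ∀ x, (F.neighborSet x).ncard ≤ 3) {f : F →g HG} {ψ : T → Vec}
    (hψ : Good f ψ) (D : Finset T) :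
    ∃ ψ' : T → Vec, ∃ hψ' : Good f ψ', fld f ψ' = fld f ψ ∧
      (homGraph F HG).Reachable (canon hdeg hψ) (canon hdeg hψ') ∧
      ∀ x, Free f x → LinearIndepOn (ZMod 5) ψ' (↑(SS f x) ∩ (D : Set T)) := by
  classical
  induction D using Finset.induction_on with
  | empty =>
    refine ⟨ψ, hψ, rfl, SimpleGraph.Reachable.refl _, fun x _ => ?_⟩
    rw [Finset.coe_empty, Set.inter_empty]
    exact linearIndepOn_empty _ _
  | insert x₀ D hx₀ ih =>
    obtain ⟨ψ₁, hψ₁, e1, r1, l1⟩ := ih
    by_cases hf : Free f x₀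
    · obtain ⟨ψ₂, hψ₂, e2, r2, l2⟩ := realize hdeg hψ₁ l1 hf (g := fun _ => 0) rfl rfl
        (fun _ => small_zero) (fun z hz => absurd rfl hz)
        (by rw [upd_zero_fun]; exact flat_CC hψ₁) (v₀ := 0) (fun z _ => om_zero_left _)
      refine ⟨ψ₂, hψ₂, ?_, r1.trans r2, ?_⟩
      · rw [e2, upd_zero_fun, e1]
      · intro x hx
        rw [Finset.coe_insert]
        exact l2 x hx
    · refine ⟨ψ₁, hψ₁, e1, r1, fun x hx => ?_⟩
      have : (↑(SS f x) ∩ ((insert x₀ D : Finset T) : Set T)) = ↑(SS f x) ∩ (D : Set T) := by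
        ext t
        simp only [Set.mem_inter_iff, Finset.mem_coe, Finset.mem_insert]
        constructor
        · rintro ⟨h1, h2⟩
          refine ⟨h1, h2.resolve_left ?_⟩
          rintro rfl
          rw [mem_SS] at h1
          rcases h1 with h1 | ⟨a, b, _, hb, _, _, hfb, _⟩
          · rw [h1] at hf; exact hf hx
          · cases hb; exact hf hfb
        · rintro ⟨h1, h2⟩
          exact ⟨h1, Or.inr h2⟩
      rw [this]
      exact l1 x hx

/-- Following a path of fields. -/
theorem follow (hdeg : ∀ x, (F.neighborSet x).ncard ≤ 3) {f : F →g HG}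
    {β : Option T → Option T → ZMod 5} {γ : Option T → Option T → ZMod 5}
    (h : ReflTransGen (Step none (Rel f) (CC f)) β γ) {ψ : T → Vec} (hψ : Good f ψ)
    (hβ : fld f ψ = β) (hgen : ∀ x, Free f x → LinearIndepOn (ZMod 5) ψ ↑(SS f x)) :
    ∃ ψ' : T → Vec, ∃ hψ' : Good f ψ', fld f ψ' = γ ∧
      (homGraph F HG).Reachable (canon hdeg hψ) (canon hdeg hψ') ∧
      ∀ x, Free f x → LinearIndepOn (ZMod 5) ψ' ↑(SS f x) := by
  classical
  induction h with
  | refl => exact ⟨ψ, hψ, hβ, SimpleGraph.Reachable.refl _, hgen⟩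
  | tail _ hstep ih =>
    obtain ⟨ψ₁, hψ₁, e1, r1, l1⟩ := ih
    obtain ⟨x, g, hx, g0, gn, gs, gR, hγ, hflat⟩ := hstep
    obtain ⟨x₀, rfl⟩ := Option.ne_none_iff_exists'.1 hx
    by_cases hf : Free f x₀
    · obtain ⟨v₀, hv₀⟩ := exists_om_prescribed (l1 x₀ hf) (fun z => g (some z))
      obtain ⟨ψ₂, hψ₂, e2, r2, l2⟩ := realize hdeg hψ₁ (D := Set.univ)
        (fun x hx => by rw [Set.inter_univ]; exact l1 x hx) hf g0 gn gs gR
        (by rw [e1, ← hγ]; exact hflat) (v₀ := v₀) (fun z hz => hv₀ z (Finset.mem_coe.2 hz))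
      refine ⟨ψ₂, hψ₂, ?_, r1.trans r2, ?_⟩
      · rw [e2, e1, hγ]
      · intro x hx
        have := l2 x hx
        rwa [Set.insert_eq_of_mem (Set.mem_univ _), Set.inter_univ] at this
    · have hg : g = fun _ => 0 := by
        funext z
        by_contra h
        obtain ⟨a, b, ha, _, _, hfa, _⟩ := gR z h
        cases ha
        exact hf hfa
      refine ⟨ψ₁, hψ₁, ?_, r1, l1⟩
      rw [e1, hγ, hg, upd_zero_fun]

/-- Moving everything to zero once the field is zero. -/
theorem collapse (hdeg : ∀ x, (F.neighborSet x).ncard ≤ 3) {f : F →g HG} {ψ : T → Vec}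
    (hψ : Good f ψ) (h0 : fld f ψ = 0) (D : Finset T) :
    ∃ ψ' : T → Vec, ∃ hψ' : Good f ψ', fld f ψ' = 0 ∧
      (homGraph F HG).Reachable (canon hdeg hψ) (canon hdeg hψ') ∧
      ∀ x ∈ D, Free f x → ψ' x = 0 := by
  classical
  induction D using Finset.induction_on with
  | empty => exact ⟨ψ, hψ, h0, SimpleGraph.Reachable.refl _, fun x hx => absurd hx (by simp)⟩
  | insert x₀ D hx₀ ih =>
    obtain ⟨ψ₁, hψ₁, e1, r1, l1⟩ := ih
    by_cases hf : Free f x₀
    · set ψ₂ : T → Vec := Function.update ψ₁ x₀ 0 with hψ₂def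
      have u1 : ψ₂ x₀ = 0 := Function.update_self _ _ _
      have u2 : ∀ z, z ≠ x₀ → ψ₂ z = ψ₁ z := fun z hz => Function.update_of_ne hz _ _
      have hom : ∀ y, IsY f y → ∀ z w, F.Adj y z → F.Adj y w → om (ψ₁ z) (ψ₁ w) = 0 := by
        intro y hy z w hz hw
        rw [← fld_kap hψ₁.pin hy hz hw, e1]
        rfl
      have hom0 : ∀ y, IsY f y → ∀ b ∈ (nb F y).image ψ₁, ∀ c ∈ (nb F y).image ψ₁, om b c = 0 := by
        intro y hy b hb c hc
        rw [Finset.mem_image] at hb hc
        obtain ⟨z, hz, rfl⟩ := hb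
        obtain ⟨w, hw, rfl⟩ := hc
        exact hom y hy z w (mem_nb.1 hz) (mem_nb.1 hw)
      have hflat' : ∀ y, IsY f y → F.Adj y x₀ → FlatSet (insert (ψ₂ x₀) ((nb F y).image ψ₁)) := by
        intro y hy hyx
        apply flatSet_insert (hψ₁.flat y hy)
        intro b hb c hc
        simp only [curv]
        rw [u1, om_zero_left, om_zero_right, hom0 y hy b hb c hc]
        simpa using small_zero
      have hψ₂ : Good f ψ₂ := by
        refine ⟨?_, fun y hy => ?_⟩
        · intro x z hx hz hxz
          by_cases hxx : x = x₀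
          · rw [hxx]; exact u1
          · rw [u2 x hxx]; exact hψ₁.pin x z hx hz hxz
        · by_cases hyx : F.Adj y x₀
          · apply (hflat' y hy hyx).mono
            intro a ha
            rw [Finset.mem_image] at ha
            obtain ⟨z, hz, rfl⟩ := ha
            by_cases hzx : z = x₀
            · rw [hzx]; exact Finset.mem_insert_self _ _
            · rw [u2 z hzx]; exact Finset.mem_insert_of_mem (Finset.mem_image_of_mem _ hz)
          · have : (nb F y).image ψ₂ = (nb F y).image ψ₁ := by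
              apply Finset.image_congr
              intro z hz
              have hz' : F.Adj y z := mem_nb.1 hz
              apply u2
              rintro rfl
              exact hyx hz'
            rw [this]
            exact hψ₁.flat y hy
      refine ⟨ψ₂, hψ₂, ?_, r1.trans ?_, ?_⟩
      · funext a b
        by_cases hR : Rel f a b
        · have h1 : fld f ψ₁ a b = 0 := by rw [e1]; rfl
          obtain ⟨x, z, rfl, rfl, hxz, hfx, hfz, y, hy, hyx, hyz⟩ := id hR
          simp only [fld, if_pos hR] at h1 ⊢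
          change om (ψ₁ x) (ψ₁ z) = 0 at h1
          change om (ψ₂ x) (ψ₂ z) = 0
          by_cases hx : x = x₀
          · rw [hx, u1]; exact om_zero_left _
          · by_cases hz : z = x₀
            · rw [hz, u1]; exact om_zero_right _
            · rw [u2 x hx, u2 z hz]; exact h1
        · simp only [fld, if_neg hR]
          rfl
      · exact move hdeg hψ₁ hψ₂ (x := x₀) (fun z hz => (u2 z hz).symm) hflat'
      · intro x hx hfx
        by_cases hxx : x = x₀
        · rw [hxx]; exact u1
        · rw [u2 x hxx]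
          exact l1 x ((Finset.mem_insert.1 hx).resolve_left hxx) hfx
    · refine ⟨ψ₁, hψ₁, e1, r1, fun x hx hfx => ?_⟩
      rcases Finset.mem_insert.1 hx with rfl | hx
      · exact absurd hfx hf
      · exact l1 x hx hfx

/-- The vector of a vertex. -/
def vecOf : HV → Vec
  | Sum.inl a => a
  | _ => 0

/-- Each homomorphism gives a good system. -/
theorem good_init (f : F →g HG) : Good f (fun x => vecOf (f x)) := by
  refine ⟨?_, ?_⟩
  · rintro x z ⟨a, ha⟩ ⟨i, hi⟩ hxz
    have := f.map_rel hxz
    rw [ha, hi] at this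
    change vecOf (f x) = 0
    rw [ha]
    exact this
  · rintro y ⟨s, hs⟩
    apply s.2.2.mono
    intro a ha
    rw [Finset.mem_image] at ha
    obtain ⟨x, hx, rfl⟩ := ha
    rw [mem_nb] at hx
    obtain ⟨a, ha⟩ := isX_of_adj ⟨s, hs⟩ hx
    have := f.map_rel hx
    rw [hs, ha] at this
    change vecOf (f x) ∈ s.1
    rw [ha]
    exact this

omit [DecidableEq T] in
theorem reach_init (hdeg : ∀ x, (F.neighborSet x).ncard ≤ 3) (f : F →g HG)
    (h : Good f (fun x => vecOf (f x))) : (homGraph F HG).Reachable f (canon hdeg h) := by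
  have key : ∀ x, f x ≠ canon hdeg h x → IsY f x := by
    intro x hx
    rcases trichotomy f x with h1 | h1 | ⟨i, h1⟩
    · rw [canon, mkHom_X h1] at hx
      obtain ⟨a, ha⟩ := h1
      rw [ha] at hx
      exact absurd rfl hx
    · exact h1
    · rw [canon, mkHom_Z h1] at hx
      exact absurd h1 hx
  apply reachable_indep
  intro x y hx hy
  exact not_adj_YY (key x hx) (key y hy)

/-- The embedding of the complete graph with five vertices. -/
def emb : (⊤ : SimpleGraph (Option (Fin 4))) →g HG where
  toFun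
    | none => Sum.inl 0
    | some i => Sum.inr (Sum.inr i)
  map_rel' := by
    rintro (_ | i) (_ | j) h
    · exact absurd rfl h
    · exact adj_pw.2 rfl
    · exact adj_wp.2 rfl
    · exact adj_ww.2 fun hij => h (by rw [hij])

theorem emb_injective : Function.Injective emb := by
  rintro (_ | i) (_ | j) h
  · rfl
  · exact absurd h (by change ¬ (Sum.inl 0 : HV) = Sum.inr (Sum.inr j); simp)
  · exact absurd h (by change ¬ (Sum.inr (Sum.inr i) : HV) = Sum.inl 0; simp)
  · have : (Sum.inr (Sum.inr i) : HV) = Sum.inr (Sum.inr j) := h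
    simpa using this

/-- The colour of a vertex. -/
def colOf : HV → Option (Fin 4)
  | Sum.inl _ => none
  | Sum.inr (Sum.inl _) => some 0
  | Sum.inr (Sum.inr i) => some i

/-- The colouring given by a homomorphism. -/
def colHom (f : F →g HG) : F →g (⊤ : SimpleGraph (Option (Fin 4))) where
  toFun x := colOf (f x)
  map_rel' := by
    intro x y hxy
    have h1 := f.map_rel hxy
    rcases hfx : f x with a | t | i <;> rcases hfy : f y with b | t' | j <;>
      rw [hfx, hfy] at h1
    · exact absurd h1 not_adj_pp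
    · simp [colOf]
    · simp [colOf]
    · simp [colOf]
    · exact absurd h1 not_adj_ff
    · exact absurd h1 not_adj_fw
    · simp [colOf]
    · exact absurd h1 not_adj_wf
    · have : i ≠ j := h1
      simpa [colOf] using this

omit [DecidableEq T] in
theorem reach_final (hdeg : ∀ x, (F.neighborSet x).ncard ≤ 3) {f : F →g HG} {ψ : T → Vec}
    (h : Good f ψ) (h0 : ∀ x, Free f x → ψ x = 0) :
    (homGraph F HG).Reachable (canon hdeg h) (emb.comp (colHom f)) := by
  have h0' : ∀ x, IsX f x → ψ x = 0 := by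
    intro x hx
    by_cases hf : Free f x
    · exact h0 x hf
    · unfold Free at hf
      push Not at hf
      obtain ⟨z, hxz, hz⟩ := hf hx
      exact h.pin x z hx hz hxz
  have key : ∀ x, canon hdeg h x ≠ emb.comp (colHom f) x → IsY f x := by
    intro x hx
    rcases trichotomy f x with h1 | h1 | ⟨i, h1⟩
    · exfalso
      apply hx
      rw [canon, mkHom_X h1, h0' x h1]
      obtain ⟨a, ha⟩ := h1
      change _ = emb (colOf (f x))
      rw [ha]
      rfl
    · exact h1
    · exfalso
      apply hx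
      rw [canon, mkHom_Z h1]
      change _ = emb (colOf (f x))
      rw [h1]
      rfl
  apply reachable_indep
  intro x y hx hy
  exact not_adj_YY (key x hx) (key y hy)

/-- Each homomorphism is joined with a colouring. -/
theorem reach_colour (hdeg : ∀ x, (F.neighborSet x).ncard ≤ 3) (f : F →g HG) :
    (homGraph F HG).Reachable f (emb.comp (colHom f)) := by
  have h0 := good_init f
  obtain ⟨ψ₁, hψ₁, e1, r1, l1⟩ := genericize hdeg h0 Finset.univ
  have hpath : ReflTransGen (Step none (Rel f) (CC f)) (fld f ψ₁) 0 :=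
    reach_zero (fun _ _ h => h.symm) (fun _ => not_rel_none) _ (CC f) le_rfl
      (fun s hs => (mem_CC.1 hs).2) (CC_deg hdeg f) (CC_rel f) _ (fld_isField f ψ₁)
      (flat_CC hψ₁)
  obtain ⟨ψ₂, hψ₂, e2, r2, l2⟩ := follow hdeg hpath hψ₁ rfl
    (fun x hx => by simpa using l1 x hx)
  obtain ⟨ψ₃, hψ₃, e3, r3, l3⟩ := collapse hdeg hψ₂ e2 Finset.univ
  exact (reach_init hdeg f h0).trans (r1.trans (r2.trans (r3.trans
    (reach_final hdeg hψ₃ fun x hx => l3 x (Finset.mem_univ _) hx))))

/-- Composition with the embedding. -/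
def embMap (F : SimpleGraph T) :
    homGraph F (⊤ : SimpleGraph (Option (Fin 4))) →g homGraph F HG where
  toFun f := emb.comp f
  map_rel' := by
    rintro f g ⟨x, hx, hu⟩
    refine ⟨x, fun h => hx (emb_injective h), fun y hy => hu y fun h => hy ?_⟩
    change emb (f y) = emb (g y)
    rw [h]

end Mob

/-- **The graph is `5`-mobile.** -/
theorem mobile : IsMobile HG 5 := by
  intro T _ F hdeg f g
  classical
  have := Fintype.ofFinite T
  have hdeg' : ∀ x, (F.neighborSet x).ncard ≤ 3 := fun x => hdeg x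
  have h := recolour hdeg' (α := Option (Fin 4)) (by simp) _ (colHom f) (colHom g) le_rfl
  exact ((reach_colour hdeg' f).trans (h.map (embMap F))).trans (reach_colour hdeg' g).symm

end Pool.Agent.Helper5_Mobility
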