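import Mathlib
import Pool.Agent.Helper5_Mobility.Mobile
import Pool.Agent.Helper5_Mobility.Loop

/-!
# The neighbourhood complex of the graph is not `2`-connected
-/

namespace Pool.Agent.Helper5_Mobility

/-- The extension of the form to all vertices. -/
def bb : HV → HV → ZMod 5
  | Sum.inl a, Sum.inl b => om a b
  | _, _ => 0

theorem bb_anti (x y : HV) : bb x y = - bb y x := by
  rcases x with a | s | i <;> rcases y with b | t | j <;> simp only [bb, neg_zero]
  exact om_anti a b

theorem bb_flat (u : HV) : FlatOn bb (HG.Adj u) := by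
  intro x y z hx hy hz
  rcases u with a | s | i
  · have key : ∀ p q : HV, HG.Adj (Sum.inl a) p → bb p q = 0 := by
      intro p q hp
      rcases p with b | t | j
      · exact absurd hp not_adj_pp
      · rfl
      · rfl
    rw [key x y hx, key y z hy, key z x hz]
    simpa using small_zero
  · have key : ∀ p : HV, HG.Adj (Sum.inr (Sum.inl s)) p → ∃ b ∈ s.1, p = Sum.inl b := by
      intro p hp
      rcases p with b | t | j
      · exact ⟨b, hp, rfl⟩
      · exact absurd hp not_adj_ff
      · exact absurd hp not_adj_fw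
    obtain ⟨b, hb, rfl⟩ := key x hx
    obtain ⟨c, hc, rfl⟩ := key y hy
    obtain ⟨d, hd, rfl⟩ := key z hz
    exact s.2.2 b hb c hc d hd
  · have key : ∀ p q : HV, HG.Adj (Sum.inr (Sum.inr i)) p → bb p q = 0 := by
      intro p q hp
      rcases p with b | t | j
      · have : b = 0 := hp
        subst this
        rcases q with c | t | j
        · exact om_zero_left c
        · rfl
        · rfl
      · rfl
      · rfl
    rw [key x y hx, key y z hy, key z x hz]
    simpa using small_zero

/-- Vectors with at most four nonzero coordinates. -/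
def mk4 (p : ZMod 5 × ZMod 5 × ZMod 5 × ZMod 5) : Vec :=
  (fun i => if i = 0 then p.1 else if i = 1 then p.2.1 else 0,
    fun i => if i = 0 then p.2.2.1 else if i = 1 then p.2.2.2 else 0)

theorem om_mk4 (p q : ZMod 5 × ZMod 5 × ZMod 5 × ZMod 5) :
    om (mk4 p) (mk4 q) = p.1 * q.2.2.1 - p.2.2.1 * q.1 + (p.2.1 * q.2.2.2 - p.2.2.2 * q.2.1) := by
  unfold om mk4
  rw [Fin.sum_univ_succ, Fin.sum_univ_succ, Finset.sum_eq_zero]
  · simp
  · intro i _
    have h1 : (i.succ.succ : Fin 60) ≠ 0 := Fin.succ_ne_zero _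
    have h2 : (i.succ.succ : Fin 60) ≠ 1 := by
      intro h
      have := congrArg Fin.val h
      simp at this
    simp only [if_neg h1, if_neg h2]
    ring

/-- The five labels: `w' , 0, x, y, z`. -/
def cf : Fin 5 → ZMod 5 × ZMod 5 × ZMod 5 × ZMod 5 :=
  ![(2, 1, 0, 0), (0, 0, 0, 0), (1, 0, 0, 0), (0, 1, 1, 0), (0, 0, -1, 1)]

/-- The table of the values of the form on the labels. -/
def tb (p q : Fin 5) : ZMod 5 :=
  (cf p).1 * (cf q).2.2.1 - (cf p).2.2.1 * (cf q).1 +
    ((cf p).2.1 * (cf q).2.2.2 - (cf p).2.2.2 * (cf q).2.1)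

/-- The vertices of the labels. -/
def vt (p : Fin 5) : HV := Sum.inl (mk4 (cf p))

theorem bb_vt (p q : Fin 5) : bb (vt p) (vt q) = tb p q := om_mk4 _ _

/-- The labelling of the grid. -/
def lb : ℕ → ℕ → Fin 5
  | 2, 2 => 1
  | 1, 1 => 2
  | 2, 1 => 2
  | 1, 2 => 2
  | 3, 1 => 3
  | 3, 2 => 3
  | 3, 3 => 3
  | 2, 3 => 4
  | 1, 3 => 4
  | _, _ => 0

/-- `s` is one of `p, q, r`. -/
def OneOf (s p q r : Fin 5) : Prop := s = p ∨ s = q ∨ s = r

instance (s p q r : Fin 5) : Decidable (OneOf s p q r) := by unfold OneOf; infer_instance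

/-- The labels of a cell are among `p, q, r`. -/
def CellOK (a c : ℕ) (p q r : Fin 5) : Prop :=
  Small (tb p q + tb q r + tb r p) ∧ OneOf (lb a c) p q r ∧ OneOf (lb (a + 1) c) p q r ∧
    OneOf (lb a (c + 1)) p q r ∧ OneOf (lb (a + 1) (c + 1)) p q r

instance (a c : ℕ) (p q r : Fin 5) : Decidable (CellOK a c p q r) := by
  unfold CellOK; infer_instance

theorem lb_cell : ∀ a < 4, ∀ c < 4, ∃ p q r : Fin 5, CellOK a c p q r := by
  decide +kernel

theorem lb_bd : ∀ a ≤ 4, ∀ c ≤ 4, (a = 0 ∨ a = 4 ∨ c = 0 ∨ c = 4) → lb a c = 0 := by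
  decide +kernel

theorem lb_flux : ∑ a ∈ Finset.range 4, ∑ c ∈ Finset.range 4,
    quad tb (lb a c) (lb (a + 1) c) (lb (a + 1) (c + 1)) (lb a (c + 1)) = 5 := by
  decide +kernel

theorem face_of_small {a b c : Vec} (h : Small (om a b + om b c + om c a)) :
    ∃ u, ∀ d, (d = a ∨ d = b ∨ d = c) → HG.Adj u (Sum.inl d) := by
  refine ⟨Sum.inr (Sum.inl ⟨{a, b, c}, Finset.card_le_three.trans (by norm_num),
    flat_triple (β := om) om_anti h⟩), fun d hd => ?_⟩
  rw [adj_fp]
  simpa using hd

theorem lab : Lab HG (fun a c => vt (lb a c)) (vt 0) := by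
  constructor
  · intro a ha c hc
    obtain ⟨p, q, r, h, h1, h2, h3, h4⟩ := lb_cell a ha c hc
    rw [← bb_vt, ← bb_vt, ← bb_vt] at h
    obtain ⟨u, hu⟩ := face_of_small h
    have key : ∀ s, OneOf s p q r → HG.Adj u (vt s) := by
      intro s hs
      apply hu
      rcases hs with rfl | rfl | rfl
      · exact Or.inl rfl
      · exact Or.inr (Or.inl rfl)
      · exact Or.inr (Or.inr rfl)
    exact ⟨u, key _ h1, key _ h2, key _ h3, key _ h4⟩
  · intro a ha c hc h
    rw [lb_bd a ha c hc h]

noncomputable instance : Fintype HV := Fintype.ofFinite HV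

theorem not_two_connected :
    ¬ ∀ x : NComplex HG, Subsingleton (HomotopyGroup.Pi 2 (NComplex HG) x) := by
  classical
  intro h
  have h1 := flux_zero bb_anti bb_flat lab h
  have h2 : ∀ a c, quad bb (vt (lb a c)) (vt (lb (a + 1) c)) (vt (lb (a + 1) (c + 1)))
      (vt (lb a (c + 1))) =
      quad tb (lb a c) (lb (a + 1) c) (lb (a + 1) (c + 1)) (lb a (c + 1)) := by
    intro a c
    simp only [quad, bb_vt]
  simp only [h2] at h1
  rw [lb_flux] at h1
  exact absurd h1 (by norm_num)

theorem not_isKConnected {k : ℤ} (hk : 2 ≤ k) : ¬ IsKConnected k (NComplex HG) := fun h =>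
  not_two_connected fun x => h.2 2 (by exact_mod_cast hk) x

theorem conn_le : conn (NComplex HG) ≤ 1 := by
  apply sSup_le
  rintro r (rfl | ⟨k, _, hk, rfl⟩)
  · have : ((-2 : ℝ) : EReal) ≤ ((1 : ℝ) : EReal) := EReal.coe_le_coe_iff.2 (by norm_num)
    exact this
  · have hk1 : k ≤ 1 := by
      by_contra! h
      exact not_isKConnected h hk
    have : (((k : ℝ)) : EReal) ≤ ((1 : ℝ) : EReal) :=
      EReal.coe_le_coe_iff.2 (by exact_mod_cast hk1)
    exact this

theorem le_mobility : 5 ≤ mobility HG := by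
  apply le_sSup
  exact ⟨5, by norm_num, mobile, by norm_num; rfl⟩

/-- A homomorphism from the complete graph which agrees with the embedding except at one vertex
is the embedding. -/
theorem emb_rigid (h : (⊤ : SimpleGraph (Option (Fin 4))) →g HG) (x : Option (Fin 4))
    (hx : ∀ z, z ≠ x → h z = emb z) : h x = emb x := by
  have hadj : ∀ z, z ≠ x → HG.Adj (h x) (emb z) := by
    intro z hz
    rw [← hx z hz]
    exact h.map_rel (fun h' => hz h'.symm)
  rcases x with _ | i
  · have h0 := hadj (some 0) (by simp)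
    have h1 : HG.Adj (h none) (Sum.inr (Sum.inr 0)) := h0
    rcases hu : h none with a | s | j
    · rw [hu] at h1
      have : a = 0 := h1
      rw [this]
      rfl
    · rw [hu] at h1
      exact absurd h1 not_adj_fw
    · have h2 : HG.Adj (h none) (Sum.inr (Sum.inr j)) := hadj (some j) (by simp)
      rw [hu] at h2
      exact absurd h2 (HG.irrefl)
  · have h1 : HG.Adj (h (some i)) (Sum.inl 0) := hadj none (by simp)
    rcases hu : h (some i) with a | s | j
    · rw [hu] at h1
      exact absurd h1 not_adj_pp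
    · have hj : ∃ j : Fin 4, j ≠ i := exists_ne i
      obtain ⟨j, hj⟩ := hj
      have h2 : HG.Adj (h (some i)) (Sum.inr (Sum.inr j)) := hadj (some j) (by simpa using hj)
      rw [hu] at h2
      exact absurd h2 not_adj_fw
    · by_cases hji : j = i
      · rw [hji]; rfl
      · have h2 : HG.Adj (h (some i)) (Sum.inr (Sum.inr j)) := hadj (some j) (by simpa using hji)
        rw [hu] at h2
        exact absurd h2 (HG.irrefl)

theorem not_mobile {d : ℕ} (hd : 6 ≤ d) : ¬ IsMobile HG d := by
  intro h
  have hdeg : ∀ x : Option (Fin 4),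
      ((⊤ : SimpleGraph (Option (Fin 4))).neighborSet x).ncard ≤ d - 2 := by
    intro x
    have hsub : (⊤ : SimpleGraph (Option (Fin 4))).neighborSet x ⊆ {x}ᶜ := by
      intro z hz
      have : x ≠ z := hz
      simpa using this.symm
    have h1 := Set.ncard_le_ncard hsub (Set.toFinite _)
    have h2 : ({x}ᶜ : Set (Option (Fin 4))).ncard = 4 := by
      rw [Set.ncard_compl, Set.ncard_singleton]
      simp
    omega
  let sw : (⊤ : SimpleGraph (Option (Fin 4))) →g (⊤ : SimpleGraph (Option (Fin 4))) :=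
    { toFun := Equiv.swap none (some 0)
      map_rel' := fun {a b} hab hab' => hab ((Equiv.swap none (some 0)).injective hab') }
  have hr := h _ (⊤ : SimpleGraph (Option (Fin 4))) hdeg emb (emb.comp sw)
  have hne : emb ≠ emb.comp sw := by
    intro he
    have h1 := DFunLike.congr_fun he none
    have h2 : emb.comp sw none = emb (some 0) := by
      change emb (Equiv.swap none (some 0) none) = emb (some 0)
      rw [Equiv.swap_apply_left]
    rw [h2] at h1
    exact absurd (emb_injective h1) (by simp)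
  generalize emb.comp sw = g at hr hne
  obtain ⟨w⟩ := hr
  cases w with
  | nil => exact hne rfl
  | cons ha _ =>
    obtain ⟨x, hx, hu⟩ := ha
    apply hx
    symm
    apply emb_rigid
    intro z hz
    by_contra hcon
    exact hz (hu z fun h => hcon h.symm)

/-- The mobility is exactly `5`. -/
theorem mobility_eq : mobility HG = 5 := by
  apply le_antisymm _ le_mobility
  apply sSup_le
  rintro r ⟨d, _, hd, rfl⟩
  have h5 : d ≤ 5 := by
    by_contra! hcon
    exact not_mobile hcon hd
  have : (((d : ℝ)) : EReal) ≤ ((5 : ℝ) : EReal) := EReal.coe_le_coe_iff.2 (by exact_mod_cast h5)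
  exact this

theorem exists_adj : ∃ u v, HG.Adj u v :=
  ⟨Sum.inl 0, Sum.inr (Sum.inr 0), adj_pw.2 rfl⟩

theorem disproof : conn (NComplex HG) + 4 ≤ mobility HG := by
  refine (add_le_add conn_le le_rfl).trans (le_trans ?_ le_mobility)
  have : ((1 : ℝ) : EReal) + ((4 : ℝ) : EReal) ≤ ((5 : ℝ) : EReal) := by
    rw [← EReal.coe_add]
    exact EReal.coe_le_coe_iff.2 (by norm_num)
  exact this

end Pool.Agent.Helper5_Mobility
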